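import Pool.Agent.V5helper54.RI.All0

/-! # All lengths at once -/

set_option autoImplicit false

namespace Pool.Agent.V5helper54.RI

open Finset Filter

open Classical in
theorem all_lengths (A : ℕ) : ∃ D : ℕ, ∀ ε : ℝ, 0 < ε → ∃ K : ℕ, ∃ δ : ℝ, 0 < δ ∧ ∃ x0 : ℕ, ∀ x : ℕ, x0 ≤ x →
    ∀ g : ℕ → ℝ, (∀ s ∈ Icc 1 x, 0 ≤ g s ∧ g s ≤ Real.log x ^ A) → (x : ℝ) ≤ (∑ s ∈ Icc 1 x, g s) * Real.log x ^ A →
    ∀ w H : ℕ, w + H ≤ x → (x : ℝ) ^ (1 / 3 : ℝ) * Real.log x ^ D ≤ H →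
    (((Ioc w (w + H)).filter (fun t => ∃ u : ℝ, K * Real.log (Real.log x) ≤ u ∧ 10 * u ≤ H ∧
      2 * u * Real.log x ^ (2 * A + 4) ≤ x ∧ ∃ h : ℕ → ℝ, (∀ n, 0 ≤ h n) ∧ (∀ n : ℕ, n ≤ 2 * x → (x : ℝ) ≤ n * Real.log x ^ (2 * A + 4) → |h n - u| ≤ δ * u) ∧
        ε * ∑ s ∈ Icc 1 x, g s < |∑ s ∈ Icc 1 x, g s * ratio h (s + t) - ∑ s ∈ Icc 1 x, g s|)).card : ℝ) ≤ ε * H := by
  obtain ⟨D', hD'⟩ := psi_win A (A + 1)
  refine ⟨D' + 1, fun ε hε => ?_⟩
  obtain ⟨e, he⟩ : ∃ e : ℝ, e = min (ε / 20) (1 / 8) := ⟨_, rfl⟩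
  have he0 : 0 < e := by rw [he]; exact lt_min (by positivity) (by norm_num)
  have he1 : e ≤ 1 / 8 := by rw [he]; exact min_le_right _ _
  have he2 : e ≤ ε / 20 := by rw [he]; exact min_le_left _ _
  obtain ⟨e', he'⟩ : ∃ e' : ℝ, e' = e * ε / 4 := ⟨_, rfl⟩
  have he'0 : 0 < e' := by rw [he']; positivity
  obtain ⟨K', x1, hK'⟩ := hD' e' he'0
  obtain ⟨x2, hx2⟩ := Pool.Agent.V5helper54.CS.log_cmp 4 (by norm_num)
  have hlim : Tendsto (fun N : ℕ => Real.log (N : ℝ)) atTop atTop :=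
    Real.tendsto_log_atTop.comp (tendsto_natCast_atTop_atTop (R := ℝ))
  obtain ⟨x3, hx3⟩ := eventually_atTop.1 (hlim.eventually_ge_atTop
    (max (max (2 ^ (D' + 2)) (12 / e')) (max 9 (max (2 / e) (2 * K' + 8)))))
  have hpw : ∀ᶠ N : ℕ in atTop, Real.log (N : ℝ) ^ (2 * A + 10) ≤ (N : ℝ) ^ (1 / 6 : ℝ) := by
    have h1 := (isLittleO_log_rpow_rpow_atTop (s := 1 / 6) ((2 * A + 10 : ℕ) : ℝ) (by norm_num)).bound
      (show (0 : ℝ) < 1 by norm_num)
    have h2 := (tendsto_natCast_atTop_atTop (R := ℝ)).eventually h1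
    filter_upwards [h2, eventually_ge_atTop 1] with N h3 h4
    have h5 : (1 : ℝ) ≤ N := by exact_mod_cast h4
    have h6 : 0 ≤ Real.log (N : ℝ) := Real.log_nonneg h5
    rw [Real.norm_of_nonneg (by positivity), Real.norm_of_nonneg (by positivity), one_mul, Real.rpow_natCast] at h3
    exact h3
  obtain ⟨x4, hx4⟩ := eventually_atTop.1 hpw
  obtain ⟨K, hK⟩ := exists_nat_ge (2 * ((2 * K' + 2) / e + 1) + 1 / e)
  refine ⟨K, e, he0, max (max x1 x2) (max (max x3 x4) 16), fun x hx g hg hgx w H hwH hH => ?_⟩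
  simp only [max_le_iff] at hx
  obtain ⟨⟨b1, b2⟩, ⟨b3, b4⟩, b5⟩ := hx
  have hxr : (16 : ℝ) ≤ x := by exact_mod_cast b5
  have hx0 : (0 : ℝ) < x := by linarith
  have hL := hx3 x b3
  have hpx := hx4 x b4
  obtain ⟨c0, c1, c2, c3⟩ := hx2 x b2 (4 * x) (by omega) le_rfl
  obtain ⟨L, hLd⟩ : ∃ L, L = Real.log (x : ℝ) := ⟨_, rfl⟩
  rw [← hLd] at hL hpx c0 c1 c2 c3 hg hgx hH ⊢
  simp only [max_le_iff] at hL
  obtain ⟨⟨l1, l2⟩, l3, l4, l5⟩ := hL
  have hL0 : 0 < L := by linarith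
  have hL1 : 1 ≤ L := by linarith
  have hLL : 1 ≤ Real.log L := by
    rw [← Real.log_exp 1]
    exact Real.log_le_log (Real.exp_pos 1) c0
  obtain ⟨G, hG⟩ : ∃ G, G = ∑ s ∈ Icc 1 x, g s := ⟨_, rfl⟩
  have hgn : ∀ s ∈ Icc 1 x, 0 ≤ g s := fun s hs => (hg s hs).1
  rw [← hG] at hgx
  have hG0 : 0 < G := by
    by_contra hcon
    push Not at hcon
    have : G * L ^ A ≤ 0 := mul_nonpos_of_nonpos_of_nonneg hcon (by positivity)
    linarith
  -- the block length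
  obtain ⟨b, hb⟩ : ∃ b, b = ⌈K' * Real.log (Real.log ((4 * x : ℕ) : ℝ))⌉₊ + 1 := ⟨_, rfl⟩
  have hb1 : 1 ≤ b := by omega
  have hb0 : (0 : ℝ) < b := by exact_mod_cast hb1
  have hbK : K' * Real.log (Real.log ((4 * x : ℕ) : ℝ)) ≤ b := by
    rw [hb]
    push_cast
    exact (Nat.le_ceil _).trans (by linarith)
  have hbu : (b : ℝ) ≤ (2 * K' + 2) * Real.log L := by
    have h1 : K' * Real.log (Real.log ((4 * x : ℕ) : ℝ)) ≤ K' * (2 * Real.log L) :=
      mul_le_mul_of_nonneg_left c3 (Nat.cast_nonneg _)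
    have h2 : 0 ≤ K' * Real.log (Real.log ((4 * x : ℕ) : ℝ)) := by
      apply mul_nonneg (Nat.cast_nonneg _)
      apply Real.log_nonneg
      exact hL1.trans c1
    have h3 := Nat.ceil_lt_add_one h2
    rw [hb]
    rw [Nat.cast_add, Nat.cast_one]
    linarith
  have hlogL : Real.log L ≤ L := (Real.log_le_sub_one_of_pos hL0).trans (by linarith)
  have hK'0 : (0 : ℝ) ≤ K' := Nat.cast_nonneg _
  have hbL : (b : ℝ) ≤ L ^ 2 := by
    calc (b : ℝ) ≤ (2 * K' + 2) * Real.log L := hbu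
      _ ≤ L * L := mul_le_mul (by linarith) hlogL (by linarith) hL0.le
      _ = L ^ 2 := (sq L).symm
  -- sizes
  have hx16 : (1 : ℝ) ≤ (x : ℝ) ^ (1 / 6 : ℝ) := Real.one_le_rpow (by linarith) (by norm_num)
  have hx13 : (x : ℝ) ^ (1 / 6 : ℝ) * (x : ℝ) ^ (1 / 6 : ℝ) = (x : ℝ) ^ (1 / 3 : ℝ) := by
    rw [← Real.rpow_add hx0]
    norm_num
  have hx12 : (x : ℝ) ^ (1 / 3 : ℝ) * (x : ℝ) ^ (1 / 6 : ℝ) = (x : ℝ) ^ (1 / 2 : ℝ) := by
    rw [← Real.rpow_add hx0]
    norm_num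
  have hxh : (x : ℝ) ^ (1 / 2 : ℝ) * (x : ℝ) ^ (1 / 2 : ℝ) = x := by
    rw [← Real.rpow_add hx0]
    norm_num
  have hLp : ∀ a : ℕ, a ≤ 2 * A + 10 → L ^ a ≤ (x : ℝ) ^ (1 / 6 : ℝ) := fun a ha =>
    (pow_le_pow_right₀ hL1 ha).trans hpx
  have hx13' : 0 < (x : ℝ) ^ (1 / 3 : ℝ) := by positivity
  have hb13 : (b : ℝ) ≤ (x : ℝ) ^ (1 / 3 : ℝ) := by
    calc (b : ℝ) ≤ L ^ 2 := hbL
      _ ≤ (x : ℝ) ^ (1 / 6 : ℝ) := hLp 2 (by omega)
      _ ≤ (x : ℝ) ^ (1 / 6 : ℝ) * (x : ℝ) ^ (1 / 6 : ℝ) := le_mul_of_one_le_right (by positivity) hx16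
      _ = _ := hx13
  have hH9 : 9 * (x : ℝ) ^ (1 / 3 : ℝ) ≤ H := by
    refine le_trans ?_ hH
    rw [mul_comm]
    apply mul_le_mul_of_nonneg_left _ hx13'.le
    calc (9 : ℝ) ≤ L := l3
      _ = L ^ 1 := (pow_one L).symm
      _ ≤ L ^ (D' + 1) := pow_le_pow_right₀ hL1 (by omega)
  have hbH : b ≤ H := by
    have : (b : ℝ) ≤ H := by linarith
    exact_mod_cast this
  -- the extended weight
  obtain ⟨g', hg'⟩ : ∃ g' : ℕ → ℝ, g' = fun s => if s ≤ x then g s else 0 := ⟨_, rfl⟩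
  have hext : ∀ F : ℕ → ℝ, ∑ s ∈ Icc 1 (4 * x), g' s * F s = ∑ s ∈ Icc 1 x, g s * F s := by
    intro F
    have h1 : ∑ s ∈ Icc 1 x, g s * F s = ∑ s ∈ Icc 1 x, g' s * F s := by
      apply sum_congr rfl
      intro s hs
      rw [hg']
      simp only
      rw [if_pos (mem_Icc.1 hs).2]
    rw [h1]
    symm
    apply sum_subset (Icc_subset_Icc_right (by omega))
    intro s hs hs'
    rw [hg']
    simp only
    rw [if_neg, zero_mul]
    intro h2
    exact hs' (mem_Icc.2 ⟨(mem_Icc.1 hs).1, h2⟩)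
  have hext1 : ∑ s ∈ Icc 1 (4 * x), g' s = G := by
    have := hext (fun _ => 1)
    simp only [mul_one] at this
    rw [this, hG]
  -- the mean value
  have key := hK' (4 * x) (by omega) b hbK (by
      have h1 : (x : ℝ) ^ (1 / 3 : ℝ) ≤ x := by
        calc (x : ℝ) ^ (1 / 3 : ℝ) ≤ (x : ℝ) ^ (1 : ℝ) := Real.rpow_le_rpow_of_exponent_le (by linarith) (by norm_num)
          _ = x := Real.rpow_one _
      have : (b : ℝ) ≤ x := hb13.trans h1
      have h2 : b ≤ x := by exact_mod_cast this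
      omega) w (3 * H) (by omega) (by
      push_cast
      have h1 : (4 * (x : ℝ)) ^ (1 / 3 : ℝ) ≤ 2 * (x : ℝ) ^ (1 / 3 : ℝ) := by
        calc (4 * (x : ℝ)) ^ (1 / 3 : ℝ) ≤ (8 * (x : ℝ)) ^ (1 / 3 : ℝ) :=
              Real.rpow_le_rpow (by linarith) (by linarith) (by norm_num)
          _ = (8 : ℝ) ^ (1 / 3 : ℝ) * (x : ℝ) ^ (1 / 3 : ℝ) := Real.mul_rpow (by norm_num) hx0.le
          _ = _ := by
              rw [show (8 : ℝ) = 2 ^ (3 : ℝ) by norm_num, ← Real.rpow_mul (by norm_num)]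
              norm_num
      have c2' : Real.log (4 * (x : ℝ)) ≤ 2 * L := by
        have := c2
        push_cast at this
        exact this
      have c1' : L ≤ Real.log (4 * (x : ℝ)) := by
        have := c1
        push_cast at this
        exact this
      have h3 : Real.log (4 * (x : ℝ)) ^ D' ≤ (2 * L) ^ D' := pow_le_pow_left₀ (by linarith) c2' D'
      calc (4 * (x : ℝ)) ^ (1 / 3 : ℝ) * Real.log (4 * (x : ℝ)) ^ D' ≤ (2 * (x : ℝ) ^ (1 / 3 : ℝ)) * (2 * L) ^ D' :=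
            mul_le_mul h1 h3 (pow_nonneg (by linarith) _) (by positivity)
        _ = (x : ℝ) ^ (1 / 3 : ℝ) * (L ^ D' * 2 ^ (D' + 1)) := by
            rw [mul_pow, pow_succ]
            ring
        _ ≤ (x : ℝ) ^ (1 / 3 : ℝ) * (L ^ D' * L) := by
            have h4 : (2 : ℝ) ^ (D' + 1) ≤ 2 ^ (D' + 2) := pow_le_pow_right₀ (by norm_num) (by omega)
            gcongr
            linarith
        _ = (x : ℝ) ^ (1 / 3 : ℝ) * L ^ (D' + 1) := by rw [pow_succ]
        _ ≤ H := hH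
        _ ≤ 3 * H := by
            have : (0 : ℝ) ≤ H := Nat.cast_nonneg H
            linarith) g' (by
      intro s hs
      rw [hg']
      simp only
      have c1' : L ≤ Real.log ((4 * x : ℕ) : ℝ) := c1
      split_ifs with h1
      · have h2 := hg s (mem_Icc.2 ⟨(mem_Icc.1 hs).1, h1⟩)
        exact ⟨h2.1, h2.2.trans (pow_le_pow_left₀ hL0.le c1' A)⟩
      · exact ⟨le_rfl, pow_nonneg (by linarith) _⟩)
  rw [hext1] at key
  obtain ⟨Φ, hΦ⟩ : ∃ Φ : ℕ → ℝ, Φ = fun t => |∑ s ∈ Icc 1 x, g s * (Psi (s + t) b - b)| := ⟨_, rfl⟩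
  have hkey : ∑ t ∈ Ioc w (w + 3 * H), Φ t ≤ 4 * e' * (b * (H * G)) := by
    have h1 : ∑ t ∈ Ioc w (w + 3 * H), Φ t = ∑ t ∈ Ioc w (w + 3 * H), |∑ s ∈ Icc 1 (4 * x), g' s *
        (∑ j ∈ Icc 1 b, ArithmeticFunction.vonMangoldt (s + t + j) - b)| := by
      apply sum_congr rfl
      intro t _
      rw [hext, hΦ]
      rfl
    rw [h1]
    refine key.trans ?_
    have h2 : ((4 * x : ℕ) : ℝ) * ((3 * H : ℕ) : ℝ) / Real.log ((4 * x : ℕ) : ℝ) ^ (A + 1) ≤ e' * (H * G) := by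
      have h3 : L ^ (A + 1) ≤ Real.log ((4 * x : ℕ) : ℝ) ^ (A + 1) := pow_le_pow_left₀ hL0.le c1 _
      have hH0 : (0 : ℝ) ≤ H := Nat.cast_nonneg H
      calc ((4 * x : ℕ) : ℝ) * ((3 * H : ℕ) : ℝ) / Real.log ((4 * x : ℕ) : ℝ) ^ (A + 1)
          ≤ ((4 * x : ℕ) : ℝ) * ((3 * H : ℕ) : ℝ) / L ^ (A + 1) :=
            div_le_div_of_nonneg_left (by positivity) (by positivity) h3
        _ = 12 * H * x / L ^ (A + 1) := by push_cast; ring
        _ ≤ 12 * H * (G * L ^ A) / L ^ (A + 1) := by gcongr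
        _ = (12 / L) * (H * G) := by
            rw [pow_succ]
            field_simp
        _ ≤ e' * (H * G) := by
            apply mul_le_mul_of_nonneg_right _ (by positivity)
            rw [div_le_iff₀ hL0]
            rw [div_le_iff₀ he'0] at l2
            linarith
    have h4 : e' * (((3 * H : ℕ) : ℝ) * G) = 3 * (e' * (H * G)) := by push_cast; ring
    rw [h4]
    calc (b : ℝ) * (3 * (e' * (H * G)) + ((4 * x : ℕ) : ℝ) * ((3 * H : ℕ) : ℝ) / Real.log ((4 * x : ℕ) : ℝ) ^ (A + 1))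
        ≤ b * (3 * (e' * (H * G)) + e' * (H * G)) := by gcongr
      _ = _ := by ring
  -- bad translations
  obtain ⟨M, hM⟩ : ∃ M, M = H / b := ⟨_, rfl⟩
  have hMb : M * b ≤ H := by rw [hM]; exact Nat.div_mul_le_self H b
  have hMb2 : H < (M + 1) * b := by rw [hM]; exact Nat.lt_mul_of_div_lt (Nat.lt_succ_self _) (by omega)
  obtain ⟨lam, hlam⟩ : ∃ lam : ℝ, lam = e * b * G := ⟨_, rfl⟩
  have hlam0 : 0 < lam := by rw [hlam]; positivity
  obtain ⟨bad, hbad⟩ : ∃ bad : ℕ → Prop, ∀ t, bad t ↔ ∃ m, 1 ≤ m ∧ m ≤ M ∧ lam * m < ∑ l ∈ range m, Φ (t + l * b) :=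
    ⟨_, fun _ => Iff.rfl⟩
  have hcnt := max_step Φ (fun t => by rw [hΦ]; exact abs_nonneg _) lam hlam0.le M b (M + 1) (w + 1) bad (by
    intro t ht
    obtain ⟨m, h1, h2, h3⟩ := (hbad t).1 ht
    exact ⟨m, h1, h2, h3.le⟩)
  have hcnt2 : (((Ico (w + 1) (w + 1 + (M + 1) * b)).filter bad).card : ℝ) ≤ ε * H := by
    have h1 : ∑ t ∈ Ico (w + 1) (w + 1 + (M + 1 + M) * b), Φ t ≤ ∑ t ∈ Ioc w (w + 3 * H), Φ t := by
      apply sum_le_sum_of_subset_of_nonneg
      · intro t ht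
        rw [mem_Ico] at ht
        rw [mem_Ioc]
        have : (M + 1 + M) * b = 2 * (M * b) + b := by ring
        omega
      · intro t _ _
        rw [hΦ]
        exact abs_nonneg _
    have h2 := hcnt.trans (h1.trans hkey)
    have h3 : 4 * e' * (b * (H * G)) = (ε * H) * lam := by
      rw [he', hlam]
      ring
    rw [h3] at h2
    exact le_of_mul_le_mul_right h2 hlam0
  refine le_trans ?_ hcnt2
  have hsub : (Ioc w (w + H)).filter (fun t => ∃ u : ℝ, K * Real.log L ≤ u ∧ 10 * u ≤ H ∧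
      2 * u * L ^ (2 * A + 4) ≤ x ∧ ∃ h : ℕ → ℝ, (∀ n, 0 ≤ h n) ∧ (∀ n : ℕ, n ≤ 2 * x → (x : ℝ) ≤ n * L ^ (2 * A + 4) → |h n - u| ≤ e * u) ∧
        ε * ∑ s ∈ Icc 1 x, g s < |∑ s ∈ Icc 1 x, g s * ratio h (s + t) - ∑ s ∈ Icc 1 x, g s|) ⊆
      (Ico (w + 1) (w + 1 + (M + 1) * b)).filter bad := by
    intro t ht
    rw [mem_filter, mem_Ioc] at ht
    obtain ⟨⟨ht1, ht2⟩, u, hu1, hu2, hu3, h, hh, hhu, hlt⟩ := ht
    rw [mem_filter, mem_Ico]
    refine ⟨⟨by omega, by omega⟩, ?_⟩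
    by_contra hnb
    rw [hbad] at hnb
    push Not at hnb
    apply absurd hlt
    rw [not_lt]
    -- lengths
    have hK1 : (2 * K' + 2) / e + 1 ≤ u / 2 ∧ 1 / e ≤ u := by
      have h1 : (K : ℝ) ≤ u := by
        refine le_trans ?_ hu1
        exact le_mul_of_one_le_right (Nat.cast_nonneg _) hLL
      have h2 : 0 ≤ 1 / e := by positivity
      have h3 : 0 ≤ (2 * K' + 2) / e := by positivity
      constructor <;> linarith
    have hu0 : 0 < u := by
      have : 0 < 1 / e := by positivity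
      linarith [hK1.2]
    have heu : 1 ≤ e * u := by
      have := hK1.2
      rw [div_le_iff₀ he0] at this
      linarith
    obtain ⟨hp, hhp⟩ : ∃ hp, hp = ⌊(1 + e) * u⌋₊ := ⟨_, rfl⟩
    obtain ⟨hm, hhm⟩ : ∃ hm, hm = ⌊(1 - e) * u⌋₊ := ⟨_, rfl⟩
    have hp1 : (hp : ℝ) ≤ (1 + e) * u := by rw [hhp]; exact Nat.floor_le (by positivity)
    have hm2 : (1 - e) * u < hm + 1 := by rw [hhm]; exact Nat.lt_floor_add_one _
    have hm1 : (hm : ℝ) ≤ (1 - e) * u := by rw [hhm]; exact Nat.floor_le (mul_nonneg (by linarith) hu0.le)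
    have heu8 : e * u ≤ 1 / 8 * u := mul_le_mul_of_nonneg_right he1 hu0.le
    have hmp : hm ≤ hp := by
      rw [hhm, hhp]
      exact Nat.floor_le_floor (by linarith)
    have hp2u : (hp : ℝ) ≤ 2 * u := by linarith
    have hmu : (hm : ℝ) ≤ u := by linarith
    have hbm : (b : ℝ) ≤ e * hm := by
      -- `hm ≥ u / 2` and `u ≥ K log L`
      have h1 : u / 2 ≤ hm := by linarith
      have h2 : (2 * ((2 * K' + 2) / e)) * Real.log L ≤ u := by
        refine le_trans ?_ hu1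
        apply mul_le_mul_of_nonneg_right _ (by linarith)
        refine le_trans ?_ hK
        have h4 : 0 ≤ 1 / e := by positivity
        linarith
      calc (b : ℝ) ≤ (2 * K' + 2) * Real.log L := hbu
        _ = e * ((2 * ((2 * K' + 2) / e)) * Real.log L / 2) := by field_simp
        _ ≤ e * (u / 2) := by gcongr
        _ ≤ e * hm := mul_le_mul_of_nonneg_left h1 he0.le
    have hMp : hp / b + 1 ≤ M := by
      have h1 : hp + b ≤ H := by
        have : (hp : ℝ) + b ≤ H := by linarith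
        exact_mod_cast this
      rw [hM]
      have h2 : hp / b + 1 = (hp + b) / b := by
        rw [Nat.add_div_right _ (by omega)]
      rw [h2]
      exact Nat.div_le_div_right h1
    have hMm : hm / b + 1 ≤ M := le_trans (Nat.add_le_add_right (Nat.div_le_div_right hmp) 1) hMp
    have hgd : ∀ m : ℕ, 1 ≤ m → m ≤ M →
        ∑ l ∈ range m, |∑ s ∈ Icc 1 x, g s * (Psi (s + (t + l * b)) b - b)| ≤ e * b * G * m := by
      intro m h1 h2
      have h3 := hnb m h1 h2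
      rw [hΦ, hlam] at h3
      exact h3
    have Ep := good_lengths x t b hp M e G g hgn hG he0 (by linarith) hb1 (by
      refine hbm.trans ?_
      apply mul_le_mul_of_nonneg_left _ he0.le
      exact_mod_cast hmp) hMp hgd
    have Em := good_lengths x t b hm M e G g hgn hG he0 (by linarith) hb1 hbm hMm hgd
    have hgoodn : ∀ n : ℕ, n ≤ 2 * x → x / L ^ (A + A + 4) ≤ n → 1 ≤ n ∧ (1 - e) * u ≤ h n ∧ h n ≤ (1 + e) * u ∧ h n ≤ n ∧
        Real.log 2 ≤ e * Real.log n := by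
      intro n hn1 hn2
      have h1 : A + A + 4 = 2 * A + 4 := by ring
      rw [h1] at hn2
      have h2 : (x : ℝ) ≤ n * L ^ (2 * A + 4) := by
        rw [div_le_iff₀ (by positivity)] at hn2
        exact hn2
      obtain ⟨h3, h4⟩ := abs_le.1 (hhu n hn1 h2)
      have h5 : (x : ℝ) ^ (1 / 2 : ℝ) ≤ n := by
        refine le_trans ?_ hn2
        rw [le_div_iff₀ (by positivity)]
        calc (x : ℝ) ^ (1 / 2 : ℝ) * L ^ (2 * A + 4) ≤ (x : ℝ) ^ (1 / 2 : ℝ) * (x : ℝ) ^ (1 / 6 : ℝ) := by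
              gcongr
              exact hLp _ (by omega)
          _ ≤ (x : ℝ) ^ (1 / 2 : ℝ) * (x : ℝ) ^ (1 / 2 : ℝ) := by
              gcongr
              · linarith
              · norm_num
          _ = x := hxh
      have h6 : 1 ≤ (x : ℝ) ^ (1 / 2 : ℝ) := Real.one_le_rpow (by linarith) (by norm_num)
      have h7 : (1 : ℝ) ≤ n := by linarith
      have h10 : (1 + e) * u ≤ n := by
        calc (1 + e) * u ≤ 2 * u := by linarith
          _ ≤ x / L ^ (2 * A + 4) := by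
              rw [le_div_iff₀ (by positivity)]
              exact hu3
          _ ≤ n := hn2
      refine ⟨by exact_mod_cast h7, by linarith, by linarith, by linarith, ?_⟩
      have h11 : L / 2 ≤ Real.log n := by
        have := Real.log_le_log (by positivity) h5
        rw [Real.log_rpow hx0, ← hLd] at this
        linarith
      have h12 := Real.log_two_lt_d9
      rw [div_le_iff₀ he0] at l4
      have h13 : e * (L / 2) ≤ e * Real.log n := mul_le_mul_of_nonneg_left h11 he0.le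
      linarith
    have hfin := key_ineq A A x L hLd l3 hxr (by
      calc L ^ (A + A + 10) ≤ (x : ℝ) ^ (1 / 6 : ℝ) := hLp _ (by omega)
        _ ≤ (x : ℝ) ^ (1 / 2 : ℝ) := Real.rpow_le_rpow_of_exponent_le (by linarith) (by norm_num)) g hg h hh u e he0 he1
        hu0 heu (by
          have h1 : (H : ℝ) ≤ x := by
            have : H ≤ x := by omega
            exact_mod_cast this
          linarith) hgoodn hp hm hhp hhm t (by omega)
    refine hfin.trans ?_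
    rw [← hG]
    have m1 : 2 / u * |∑ s ∈ Icc 1 x, g s * (Psi (s + t) hp - hp)| ≤ 12 * e * G := by
      calc 2 / u * |∑ s ∈ Icc 1 x, g s * (Psi (s + t) hp - hp)| ≤ 2 / u * (3 * e * hp * G) :=
            mul_le_mul_of_nonneg_left Ep (by positivity)
        _ ≤ 2 / u * (3 * e * (2 * u) * G) := by gcongr
        _ = _ := by
            field_simp
            ring
    have m2 : 1 / u * |∑ s ∈ Icc 1 x, g s * (Psi (s + t) hm - hm)| ≤ 3 * e * G := by
      calc 1 / u * |∑ s ∈ Icc 1 x, g s * (Psi (s + t) hm - hm)| ≤ 1 / u * (3 * e * hm * G) :=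
            mul_le_mul_of_nonneg_left Em (by positivity)
        _ ≤ 1 / u * (3 * e * u * G) := by gcongr
        _ = _ := by
            field_simp
    have m3 : 2 * (x / L ^ (A + 1)) ≤ e * G := by
      have h1 : (x : ℝ) / L ^ (A + 1) ≤ G / L := by
        rw [div_le_div_iff₀ (by positivity) hL0, pow_succ]
        calc (x : ℝ) * L ≤ (G * L ^ A) * L := mul_le_mul_of_nonneg_right hgx hL0.le
          _ = _ := by ring
      have h2 : 2 * (G / L) ≤ e * G := by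
        have h3 : 2 * (G / L) = (2 / L) * G := by ring
        rw [h3]
        apply mul_le_mul_of_nonneg_right _ hG0.le
        rw [div_le_iff₀ hL0]
        rw [div_le_iff₀ he0] at l4
        linarith
      linarith
    have m4 : 20 * e * G ≤ ε * G := by
      apply mul_le_mul_of_nonneg_right _ hG0.le
      linarith
    linarith
  exact_mod_cast card_le_card hsub

end Pool.Agent.V5helper54.RI
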