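import Pool.Agent.V5helper54.RI.One

/-! # Several translations -/

set_option autoImplicit false

namespace Pool.Agent.V5helper54.RI

open Finset Filter

/-- sums over boxes, first coordinate first -/
lemma sum_box_succ {k : ℕ} (W : Fin (k + 1) → Finset ℕ) (f : (Fin (k + 1) → ℕ) → ℝ) :
    ∑ t ∈ Fintype.piFinset W, f t = ∑ a ∈ W 0, ∑ t ∈ Fintype.piFinset (fun i : Fin k => W i.succ), f (Fin.cons a t) := by
  rw [← sum_product']
  apply sum_nbij' (fun t => (t 0, Fin.tail t)) (fun q => Fin.cons q.1 q.2)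
  · intro t ht
    rw [Fintype.mem_piFinset] at ht
    rw [mem_product, Fintype.mem_piFinset]
    exact ⟨ht 0, fun i => ht i.succ⟩
  · intro q hq
    rw [mem_product, Fintype.mem_piFinset] at hq
    rw [Fintype.mem_piFinset]
    intro i
    refine Fin.cases ?_ (fun i => ?_) i
    · exact hq.1
    · exact hq.2 i
  · intro t _
    exact Fin.cons_self_tail t
  · intro q _
    rfl
  · intro t _
    simp only
    rw [Fin.cons_self_tail]

theorem many_step (k : ℕ) : ∀ A U : ℕ, ∃ D : ℕ, ∀ h : Fin k → ℕ → ℝ, (∀ i, Regular (h i)) → ∀ ε : ℝ, 0 < ε →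
    ∃ x0 : ℕ, ∀ x : ℕ, x0 ≤ x → ∀ g : ℕ → ℝ, (∀ s ∈ Icc 1 x, 0 ≤ g s ∧ g s ≤ Real.log x ^ A) →
    ∀ w H : Fin k → ℕ, (∀ i, w i + H i ≤ x) → (∀ i, (x : ℝ) ^ (1 / 3 : ℝ) * Real.log x ^ D ≤ H i) →
    ∑ t ∈ Fintype.piFinset (fun i => Ioc (w i) (w i + H i)),
      |∑ s ∈ Icc 1 x, g s * ∏ i, ratio (h i) (s + t i) - ∑ s ∈ Icc 1 x, g s| ≤
      (ε * ∑ s ∈ Icc 1 x, g s + x / Real.log x ^ U) * ∏ i, (H i : ℝ) := by
  induction k with
  | zero =>
    intro A U
    refine ⟨0, fun h _ ε hε => ⟨1, fun x hx g hg w H _ _ => ?_⟩⟩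
    have e1 : ∀ t ∈ Fintype.piFinset (fun i : Fin 0 => Ioc (w i) (w i + H i)),
        |∑ s ∈ Icc 1 x, g s * ∏ i : Fin 0, ratio (h i) (s + t i) - ∑ s ∈ Icc 1 x, g s| = 0 := by
      intro t _
      simp
    rw [sum_congr rfl e1, sum_const_zero]
    have hG : 0 ≤ ∑ s ∈ Icc 1 x, g s := sum_nonneg fun s hs => (hg s hs).1
    have hl : 0 ≤ Real.log (x : ℝ) := Real.log_natCast_nonneg x
    have : 0 ≤ ∏ i : Fin 0, (H i : ℝ) := prod_nonneg fun _ _ => Nat.cast_nonneg _
    positivity
  | succ k ih =>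
    intro A U
    obtain ⟨D1, h1⟩ := one_step A (U + 1)
    obtain ⟨D2, h2⟩ := ih (A + 2) (U + 1)
    refine ⟨max D1 D2, fun h hreg ε hε => ?_⟩
    obtain ⟨e, he⟩ : ∃ e : ℝ, e = min (ε / 3) 1 := ⟨_, rfl⟩
    have he0 : 0 < e := by rw [he]; exact lt_min (by positivity) one_pos
    have he1 : e ≤ 1 := by rw [he]; exact min_le_right _ _
    have he2 : e ≤ ε / 3 := by rw [he]; exact min_le_left _ _
    obtain ⟨x1, hx1⟩ := h1 (h 0) (hreg 0) e he0
    obtain ⟨x2, hx2⟩ := h2 (fun i => h i.succ) (fun i => hreg _) e he0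
    have hlim : Tendsto (fun N : ℕ => Real.log (N : ℝ)) atTop atTop :=
      Real.tendsto_log_atTop.comp (tendsto_natCast_atTop_atTop (R := ℝ))
    obtain ⟨x3, hx3⟩ := eventually_atTop.1 (hlim.eventually_ge_atTop 4)
    refine ⟨max (max x1 x2) (max x3 1), fun x hx g hg w H hwH hH => ?_⟩
    simp only [max_le_iff] at hx
    obtain ⟨⟨b1, b2⟩, b3, b4⟩ := hx
    obtain ⟨L, hLd⟩ : ∃ L, L = Real.log (x : ℝ) := ⟨_, rfl⟩
    have hL4 := hx3 x b3
    have k1 := hx1 x b1
    have k2 := hx2 x b2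
    rw [← hLd] at hL4 k1 k2 hg hH ⊢
    have hL0 : 0 < L := by linarith
    have hL1 : 1 ≤ L := by linarith
    have hxr : (1 : ℝ) ≤ x := by exact_mod_cast b4
    have hx0 : (0 : ℝ) < x := by linarith
    obtain ⟨G, hG⟩ : ∃ G, G = ∑ s ∈ Icc 1 x, g s := ⟨_, rfl⟩
    have hG0 : 0 ≤ G := by rw [hG]; exact sum_nonneg fun s hs => (hg s hs).1
    rw [← hG]
    have hnn : ∀ i, ∀ n, 0 ≤ h i n := fun i => (hreg i).1
    have hH1 : (x : ℝ) ^ (1 / 3 : ℝ) * L ^ D1 ≤ H 0 :=
      le_trans (mul_le_mul_of_nonneg_left (pow_le_pow_right₀ hL1 (le_max_left _ _)) (by positivity)) (hH 0)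
    have hH2 : ∀ i : Fin k, (x : ℝ) ^ (1 / 3 : ℝ) * L ^ D2 ≤ H i.succ := fun i =>
      le_trans (mul_le_mul_of_nonneg_left (pow_le_pow_right₀ hL1 (le_max_right _ _)) (by positivity)) (hH i.succ)
    have k1' := k1 g hg (w 0) (H 0) (hwH 0) hH1
    rw [← hG] at k1'
    -- the weights after the first translation
    obtain ⟨g', hg'⟩ : ∃ g' : ℕ → ℕ → ℝ, g' = fun a s => g s * ratio (h 0) (s + a) := ⟨_, rfl⟩
    obtain ⟨G', hG'⟩ : ∃ G' : ℕ → ℝ, G' = fun a => ∑ s ∈ Icc 1 x, g' a s := ⟨_, rfl⟩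
    have hgb : ∀ a ∈ Ioc (w 0) (w 0 + H 0), ∀ s ∈ Icc 1 x, 0 ≤ g' a s ∧ g' a s ≤ L ^ (A + 2) := by
      intro a ha s hs
      rw [hg']
      simp only
      have hs' := mem_Icc.1 hs
      have ha' := mem_Ioc.1 ha
      have hw0 := hwH 0
      refine ⟨mul_nonneg (hg s hs).1 (ratio_nonneg _ (hnn 0) _), ?_⟩
      rw [pow_add]
      apply mul_le_mul (hg s hs).2 _ (ratio_nonneg _ (hnn 0) _) (by positivity)
      refine (ratio_le_log _ (hnn 0) _).trans ?_
      have h3 : Real.log ((s + a : ℕ) : ℝ) ≤ Real.log 2 + L := by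
        rw [hLd, ← Real.log_mul (by norm_num) hx0.ne']
        apply Real.log_le_log (by exact_mod_cast (by omega : 0 < s + a))
        exact_mod_cast (by omega : s + a ≤ 2 * x)
      have h4 := Real.log_two_lt_d9
      nlinarith
    obtain ⟨PP, hPP⟩ : ∃ PP : ℝ, PP = ∏ i : Fin k, (H i.succ : ℝ) := ⟨_, rfl⟩
    have hPP0 : 0 ≤ PP := by rw [hPP]; exact prod_nonneg fun _ _ => Nat.cast_nonneg _
    have hH00 : (0 : ℝ) ≤ H 0 := Nat.cast_nonneg _
    rw [sum_box_succ, Fin.prod_univ_succ, ← hPP]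
    have hcard : ((Fintype.piFinset (fun i : Fin k => Ioc (w i.succ) (w i.succ + H i.succ))).card : ℝ) = PP := by
      rw [Fintype.card_piFinset, hPP]
      push_cast
      apply prod_congr rfl
      intro i _
      rw [Nat.card_Ioc, Nat.add_sub_cancel_left]
    have step : ∀ a ∈ Ioc (w 0) (w 0 + H 0), ∑ t ∈ Fintype.piFinset (fun i : Fin k => Ioc (w i.succ) (w i.succ + H i.succ)),
        |∑ s ∈ Icc 1 x, g s * ∏ i, ratio (h i) (s + (Fin.cons a t : Fin (k + 1) → ℕ) i) - G| ≤
        (e * G' a + x / L ^ (U + 1)) * PP + PP * |G' a - G| := by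
      intro a ha
      have h3 := k2 (g' a) (hgb a ha) (fun i => w i.succ) (fun i => H i.succ) (fun i => hwH _) hH2
      have hGa : ∑ s ∈ Icc 1 x, g' a s = G' a := by rw [hG']
      rw [hGa, ← hPP] at h3
      have h4 : ∀ t ∈ Fintype.piFinset (fun i : Fin k => Ioc (w i.succ) (w i.succ + H i.succ)),
          |∑ s ∈ Icc 1 x, g s * ∏ i, ratio (h i) (s + (Fin.cons a t : Fin (k + 1) → ℕ) i) - G| ≤
          |∑ s ∈ Icc 1 x, g' a s * ∏ i, ratio (h i.succ) (s + t i) - G' a| + |G' a - G| := by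
        intro t _
        have e1 : ∑ s ∈ Icc 1 x, g s * ∏ i, ratio (h i) (s + (Fin.cons a t : Fin (k + 1) → ℕ) i) =
            ∑ s ∈ Icc 1 x, g' a s * ∏ i, ratio (h i.succ) (s + t i) := by
          apply sum_congr rfl
          intro s _
          rw [Fin.prod_univ_succ, hg']
          simp only [Fin.cons_zero, Fin.cons_succ]
          ring
        rw [e1]
        have e2 : ∑ s ∈ Icc 1 x, g' a s * ∏ i, ratio (h i.succ) (s + t i) - G =
            (∑ s ∈ Icc 1 x, g' a s * ∏ i, ratio (h i.succ) (s + t i) - G' a) + (G' a - G) := by ring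
        rw [e2]
        exact abs_add_le _ _
      refine (sum_le_sum h4).trans ?_
      rw [sum_add_distrib, sum_const, nsmul_eq_mul, hcard]
      linarith
    refine (sum_le_sum step).trans ?_
    have e3 : ∑ a ∈ Ioc (w 0) (w 0 + H 0), ((e * G' a + x / L ^ (U + 1)) * PP + PP * |G' a - G|) =
        PP * (e * ∑ a ∈ Ioc (w 0) (w 0 + H 0), G' a + H 0 * (x / L ^ (U + 1)) +
          ∑ a ∈ Ioc (w 0) (w 0 + H 0), |G' a - G|) := by
      rw [sum_add_distrib, ← mul_sum, ← sum_mul, sum_add_distrib, ← mul_sum, sum_const, Nat.card_Ioc,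
        Nat.add_sub_cancel_left, nsmul_eq_mul]
      ring
    rw [e3]
    have k3 : ∑ a ∈ Ioc (w 0) (w 0 + H 0), |G' a - G| ≤ (e * G + x / L ^ (U + 1)) * H 0 := by
      rw [hG', hg']
      exact k1'
    have k4 : ∑ a ∈ Ioc (w 0) (w 0 + H 0), G' a ≤ H 0 * G + (e * G + x / L ^ (U + 1)) * H 0 := by
      have h5 : ∑ a ∈ Ioc (w 0) (w 0 + H 0), G' a ≤ ∑ a ∈ Ioc (w 0) (w 0 + H 0), (G + |G' a - G|) := by
        apply sum_le_sum
        intro a _
        have := le_abs_self (G' a - G)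
        linarith
      rw [sum_add_distrib, sum_const, Nat.card_Ioc, Nat.add_sub_cancel_left, nsmul_eq_mul] at h5
      linarith
    obtain ⟨Y, hY⟩ : ∃ Y, Y = x / L ^ (U + 1) := ⟨_, rfl⟩
    have hY0 : 0 ≤ Y := by rw [hY]; positivity
    have hYU : 3 * Y ≤ x / L ^ U := by
      have e4 : Y = (x / L ^ U) * (1 / L) := by
        rw [hY, pow_succ]
        field_simp
      rw [e4]
      have h6 : 3 * (1 / L) ≤ 1 := by
        rw [mul_one_div, div_le_one hL0]
        linarith
      have h7 : 0 ≤ x / L ^ U := by positivity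
      nlinarith
    rw [← hY] at k3 k4 ⊢
    have k5 : e * ∑ a ∈ Ioc (w 0) (w 0 + H 0), G' a ≤ e * (H 0 * G + (e * G + Y) * H 0) :=
      mul_le_mul_of_nonneg_left k4 he0.le
    have k6 : e * (H 0 * G + (e * G + Y) * H 0) ≤ e * (H 0 * G) + (e * G + Y) * H 0 := by
      have h8 : 0 ≤ (e * G + Y) * H 0 := by positivity
      have h9 : e * ((e * G + Y) * H 0) ≤ (e * G + Y) * H 0 := mul_le_of_le_one_left h8 he1
      linarith
    have k7 : e * ∑ a ∈ Ioc (w 0) (w 0 + H 0), G' a + H 0 * Y + ∑ a ∈ Ioc (w 0) (w 0 + H 0), |G' a - G| ≤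
        (3 * e * G + 3 * Y) * H 0 := by
      nlinarith
    have k8 : (3 * e * G + 3 * Y) * H 0 ≤ (ε * G + x / L ^ U) * H 0 := by
      apply mul_le_mul_of_nonneg_right _ hH00
      have h10 : 3 * e * G ≤ ε * G := mul_le_mul_of_nonneg_right (by linarith) hG0
      linarith
    calc PP * (e * ∑ a ∈ Ioc (w 0) (w 0 + H 0), G' a + H 0 * Y + ∑ a ∈ Ioc (w 0) (w 0 + H 0), |G' a - G|)
        ≤ PP * ((ε * G + x / L ^ U) * H 0) := mul_le_mul_of_nonneg_left (k7.trans k8) hPP0
      _ = _ := by ring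

/-- powers of the logarithm -/
theorem regular_log_pow (a : ℝ) (ha : 0 < a) : Regular (fun n => Real.log n ^ a) := by
  have hlim : Tendsto (fun N : ℕ => Real.log (N : ℝ)) atTop atTop :=
    Real.tendsto_log_atTop.comp (tendsto_natCast_atTop_atTop (R := ℝ))
  refine ⟨fun n => Real.rpow_nonneg (Real.log_natCast_nonneg n) a, ?_, ?_, ?_⟩
  · intro K
    have h1 := (isLittleO_log_rpow_rpow_atTop (s := 1) a (by norm_num)).bound
      (show (0 : ℝ) < 1 / (K + 1) by positivity)
    have h2 := (tendsto_natCast_atTop_atTop (R := ℝ)).eventually h1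
    filter_upwards [h2, eventually_ge_atTop 1] with n h3 h4
    have h5 : (1 : ℝ) ≤ n := by exact_mod_cast h4
    have h6 : 0 ≤ Real.log (n : ℝ) := Real.log_nonneg h5
    rw [Real.rpow_one, Real.norm_of_nonneg (by positivity), Real.norm_of_nonneg (by positivity)] at h3
    have hK : (0 : ℝ) ≤ K := Nat.cast_nonneg K
    calc (K : ℝ) * Real.log n ^ a ≤ K * (1 / (K + 1) * n) := mul_le_mul_of_nonneg_left h3 hK
      _ = (K / (K + 1)) * n := by ring
      _ ≤ 1 * n := by
          apply mul_le_mul_of_nonneg_right _ (by linarith)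
          rw [div_le_one (by linarith)]
          linarith
      _ = n := one_mul _
  · intro K
    have h1 := (isLittleO_log_rpow_atTop ha).bound (show (0 : ℝ) < 1 / (K + 1) by positivity)
    have h2 := hlim.eventually h1
    filter_upwards [h2, hlim.eventually_ge_atTop 1] with n h3 h4
    have h5 : 0 ≤ Real.log (Real.log n) := Real.log_nonneg h4
    rw [Real.norm_of_nonneg h5, Real.norm_of_nonneg (by positivity)] at h3
    have hK : (0 : ℝ) ≤ K := Nat.cast_nonneg K
    have h6 : 0 ≤ Real.log (n : ℝ) ^ a := by positivity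
    calc (K : ℝ) * Real.log (Real.log n) ≤ K * (1 / (K + 1) * Real.log n ^ a) := mul_le_mul_of_nonneg_left h3 hK
      _ = (K / (K + 1)) * Real.log n ^ a := by ring
      _ ≤ 1 * Real.log n ^ a := by
          apply mul_le_mul_of_nonneg_right _ h6
          rw [div_le_one (by linarith)]
          linarith
      _ = _ := one_mul _
  · intro C δ hδ
    -- `(1 - η) ^ a ≥ 1 - δ` for a small `η`
    obtain ⟨η, hη0, hη1, hη⟩ : ∃ η : ℝ, 0 < η ∧ η < 1 ∧ 1 - δ ≤ (1 - η) ^ a := by
      have hc : ContinuousAt (fun t : ℝ => (1 - t) ^ a) 0 := by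
        apply ContinuousAt.rpow_const
        · fun_prop
        · left
          norm_num
      have h1 : ∀ᶠ t : ℝ in nhds 0, 1 - δ < (1 - t) ^ a := by
        have h2 := hc.tendsto
        simp only [sub_zero, Real.one_rpow] at h2
        exact h2.eventually (lt_mem_nhds (by linarith))
      obtain ⟨r, hr, hr'⟩ := Metric.eventually_nhds_iff.1 h1
      refine ⟨min (r / 2) (1 / 2), lt_min (by positivity) (by norm_num), lt_of_le_of_lt (min_le_right _ _) (by norm_num), ?_⟩
      apply le_of_lt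
      apply hr'
      rw [Real.dist_eq, sub_zero, abs_of_pos (lt_min (by positivity) (by norm_num))]
      exact lt_of_le_of_lt (min_le_left _ _) (by linarith)
    have h1 := (Real.isLittleO_log_id_atTop).bound (show (0 : ℝ) < η / (C + 1) by positivity)
    have h2 := hlim.eventually h1
    filter_upwards [h2, hlim.eventually_ge_atTop 1, eventually_ge_atTop 1] with n h3 h4 h5 m hmn hm
    simp only [id] at h3
    have hLL0 : 0 ≤ Real.log (Real.log n) := Real.log_nonneg h4
    have hL0 : 0 < Real.log (n : ℝ) := by linarith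
    rw [Real.norm_of_nonneg hLL0, Real.norm_of_nonneg hL0.le] at h3
    have hn0 : (0 : ℝ) < n := by exact_mod_cast h5
    have hm0 : (0 : ℝ) < m := by
      by_contra hcon
      push Not at hcon
      have : (m : ℝ) * Real.log n ^ C ≤ 0 := mul_nonpos_of_nonpos_of_nonneg hcon (by positivity)
      linarith
    have h6 : Real.log n ≤ Real.log m + C * Real.log (Real.log n) := by
      have h7 := Real.log_le_log hn0 hm
      rwa [Real.log_mul hm0.ne' (by positivity), Real.log_pow] at h7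
    have h7 : (1 - η) * Real.log n ≤ Real.log m := by
      have h8 : (C : ℝ) * Real.log (Real.log n) ≤ η * Real.log n := by
        calc (C : ℝ) * Real.log (Real.log n) ≤ C * (η / (C + 1) * Real.log n) :=
              mul_le_mul_of_nonneg_left h3 (Nat.cast_nonneg C)
          _ = (C / (C + 1)) * (η * Real.log n) := by ring
          _ ≤ 1 * (η * Real.log n) := by
              apply mul_le_mul_of_nonneg_right _ (by positivity)
              rw [div_le_one (by positivity)]
              linarith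
          _ = _ := one_mul _
      linarith
    have h8 : Real.log (m : ℝ) ≤ Real.log n := Real.log_le_log hm0 (by exact_mod_cast hmn)
    have h9 : (1 - δ) * Real.log n ^ a ≤ Real.log m ^ a := by
      calc (1 - δ) * Real.log n ^ a ≤ (1 - η) ^ a * Real.log n ^ a :=
            mul_le_mul_of_nonneg_right hη (by positivity)
        _ = ((1 - η) * Real.log n) ^ a := (Real.mul_rpow (by linarith) hL0.le).symm
        _ ≤ Real.log m ^ a := Real.rpow_le_rpow (mul_nonneg (by linarith) hL0.le) h7 ha.le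
    have h10 : Real.log (m : ℝ) ^ a ≤ Real.log n ^ a :=
      Real.rpow_le_rpow (le_trans (mul_nonneg (by linarith) hL0.le) h7) h8 ha.le
    have h11 : 0 ≤ δ * Real.log n ^ a := by positivity
    rw [abs_le]
    constructor <;> linarith

end Pool.Agent.V5helper54.RI
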