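import Mathlib

/-! # A one-sided maximal inequality -/

set_option autoImplicit false

namespace Pool.Agent.V5helper54.RI

open Finset

/-- the one-sided maximal inequality (rising sun) -/
lemma max_one (f : ℕ → ℝ) (hf : ∀ n, 0 ≤ f n) (lam : ℝ) (hlam : 0 ≤ lam) (M : ℕ) (bad : ℕ → Prop) [DecidablePred bad]
    (hbad : ∀ t, bad t → ∃ m, 1 ≤ m ∧ m ≤ M ∧ lam * m ≤ ∑ l ∈ range m, f (t + l)) : ∀ n w : ℕ,
    (((Ico w (w + n)).filter bad).card : ℝ) * lam ≤ ∑ t ∈ Ico w (w + n + M), f t := by
  intro n
  induction n using Nat.strong_induction_on with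
  | _ n ih =>
    intro w
    rcases Nat.eq_zero_or_pos n with h0 | hpos
    · subst h0
      simp only [add_zero, Ico_self, filter_empty, card_empty, Nat.cast_zero, zero_mul]
      exact sum_nonneg fun _ _ => hf _
    by_cases hb : bad w
    · obtain ⟨m, hm1, hmM, hm⟩ := hbad w hb
      have e1 : ∑ l ∈ range m, f (w + l) = ∑ t ∈ Ico w (w + m), f t := by
        rw [sum_Ico_eq_sum_range, Nat.add_sub_cancel_left]
      rw [e1] at hm
      rcases Nat.le_total n m with hnm | hnm
      · have h1 : ((Ico w (w + n)).filter bad).card ≤ m := by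
          refine (card_filter_le _ _).trans ?_
          rw [Nat.card_Ico]
          omega
        have h2 : (((Ico w (w + n)).filter bad).card : ℝ) ≤ m := by exact_mod_cast h1
        calc (((Ico w (w + n)).filter bad).card : ℝ) * lam ≤ m * lam := mul_le_mul_of_nonneg_right h2 hlam
          _ = lam * m := mul_comm _ _
          _ ≤ ∑ t ∈ Ico w (w + m), f t := hm
          _ ≤ _ := sum_le_sum_of_subset_of_nonneg (Ico_subset_Ico le_rfl (by omega)) fun _ _ _ => hf _
      · have h1 := ih (n - m) (by omega) (w + m)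
        have e2 : w + m + (n - m) = w + n := by omega
        rw [e2] at h1
        have h2 : ((Ico w (w + n)).filter bad).card ≤ m + ((Ico (w + m) (w + n)).filter bad).card := by
          have e3 : Ico w (w + n) = Ico w (w + m) ∪ Ico (w + m) (w + n) := by
            rw [Ico_union_Ico_eq_Ico (by omega) (by omega)]
          rw [e3, filter_union]
          refine (card_union_le _ _).trans ?_
          apply Nat.add_le_add_right
          refine (card_filter_le _ _).trans ?_
          rw [Nat.card_Ico]
          omega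
        have h3 : (((Ico w (w + n)).filter bad).card : ℝ) ≤ m + ((Ico (w + m) (w + n)).filter bad).card := by
          exact_mod_cast h2
        have h4 : ∑ t ∈ Ico w (w + n + M), f t = ∑ t ∈ Ico w (w + m), f t + ∑ t ∈ Ico (w + m) (w + n + M), f t :=
          (sum_Ico_consecutive f (by omega) (by omega)).symm
        rw [h4]
        calc (((Ico w (w + n)).filter bad).card : ℝ) * lam
            ≤ (m + ((Ico (w + m) (w + n)).filter bad).card) * lam := mul_le_mul_of_nonneg_right h3 hlam
          _ = lam * m + ((Ico (w + m) (w + n)).filter bad).card * lam := by ring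
          _ ≤ _ := add_le_add hm h1
    · obtain ⟨n', rfl⟩ : ∃ n', n = n' + 1 := ⟨n - 1, by omega⟩
      have h1 := ih n' (by omega) (w + 1)
      have e1 : (Ico w (w + (n' + 1))).filter bad = (Ico (w + 1) (w + 1 + n')).filter bad := by
        ext t
        simp only [mem_filter, mem_Ico]
        constructor
        · rintro ⟨⟨h2, h3⟩, h4⟩
          refine ⟨⟨?_, by omega⟩, h4⟩
          rcases Nat.lt_or_ge w t with h5 | h5
          · exact h5
          · exfalso
            have : t = w := by omega
            rw [this] at h4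
            exact hb h4
        · rintro ⟨⟨h2, h3⟩, h4⟩
          exact ⟨⟨by omega, by omega⟩, h4⟩
      rw [e1]
      refine h1.trans (sum_le_sum_of_subset_of_nonneg (Ico_subset_Ico (by omega) (by omega)) fun _ _ _ => hf _)

/-- sums over blocks -/
lemma sum_range_blocks (φ : ℕ → ℝ) (b P : ℕ) : ∑ i ∈ range (P * b), φ i = ∑ r ∈ range b, ∑ l ∈ range P, φ (r + l * b) := by
  induction P with
  | zero => simp
  | succ P ih =>
    rw [Nat.succ_mul, sum_range_add, ih, ← sum_add_distrib]
    apply sum_congr rfl
    intro r _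
    rw [sum_range_succ]
    congr 2
    ring

/-- the maximal inequality along progressions with difference `b` -/
lemma max_step (f : ℕ → ℝ) (hf : ∀ n, 0 ≤ f n) (lam : ℝ) (hlam : 0 ≤ lam) (M b N w : ℕ) (bad : ℕ → Prop) [DecidablePred bad]
    (hbad : ∀ t, bad t → ∃ m, 1 ≤ m ∧ m ≤ M ∧ lam * m ≤ ∑ l ∈ range m, f (t + l * b)) :
    (((Ico w (w + N * b)).filter bad).card : ℝ) * lam ≤ ∑ t ∈ Ico w (w + (N + M) * b), f t := by
  have e1 : (((Ico w (w + N * b)).filter bad).card : ℝ) = ∑ i ∈ range (N * b), (if bad (w + i) then (1 : ℝ) else 0) := by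
    rw [card_filter]
    push_cast
    rw [sum_Ico_eq_sum_range, Nat.add_sub_cancel_left]
  have e2 : ∑ t ∈ Ico w (w + (N + M) * b), f t = ∑ i ∈ range ((N + M) * b), f (w + i) := by
    rw [sum_Ico_eq_sum_range, Nat.add_sub_cancel_left]
  rw [e1, e2, sum_range_blocks, sum_range_blocks, sum_mul]
  apply sum_le_sum
  intro r _
  have h1 := max_one (fun l => f (w + (r + l * b))) (fun _ => hf _) lam hlam M (fun l => bad (w + (r + l * b))) (by
    intro l hl
    obtain ⟨m, hm1, hm2, hm3⟩ := hbad _ hl
    refine ⟨m, hm1, hm2, hm3.trans (le_of_eq ?_)⟩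
    apply sum_congr rfl
    intro i _
    congr 1
    ring) N 0
  have e3 : (((Ico 0 (0 + N)).filter (fun l => bad (w + (r + l * b)))).card : ℝ) =
      ∑ l ∈ range N, (if bad (w + (r + l * b)) then (1 : ℝ) else 0) := by
    rw [card_filter]
    push_cast
    rw [sum_Ico_eq_sum_range]
    simp
  have e4 : ∑ l ∈ Ico 0 (0 + N + M), f (w + (r + l * b)) = ∑ l ∈ range (N + M), f (w + (r + l * b)) := by
    rw [sum_Ico_eq_sum_range]
    simp
  rw [e3, e4] at h1
  exact h1

end Pool.Agent.V5helper54.RI
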