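import Pool.Agent.V5helper54.RI.Key
import Pool.Agent.V5helper54.RI.Max
import Pool.Agent.V5helper54.RI.Main
import Pool.Agent.V5helper54.CS.Step

/-! # All lengths at once: from one length to all larger ones -/

set_option autoImplicit false

namespace Pool.Agent.V5helper54.RI

open Finset Filter

lemma Psi_nonneg (n v : ℕ) : 0 ≤ Psi n v := sum_nonneg fun _ _ => ArithmeticFunction.vonMangoldt_nonneg

lemma Psi_eq (n v : ℕ) : Psi n v = ∑ i ∈ range v, ArithmeticFunction.vonMangoldt (n + 1 + i) := by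
  unfold Psi
  have e1 : Icc 1 v = Ico 1 (1 + v) := by
    ext a
    simp only [mem_Icc, mem_Ico]
    omega
  rw [e1, sum_Ico_eq_sum_range, Nat.add_sub_cancel_left]
  apply sum_congr rfl
  intro i _
  congr 1
  ring

/-- blocks of length `b` -/
lemma Psi_blocks (n b m : ℕ) : ∑ l ∈ range m, Psi (n + l * b) b = Psi n (m * b) := by
  rw [Psi_eq]
  have h1 := sum_range_blocks (fun i => ArithmeticFunction.vonMangoldt (n + 1 + i)) b m
  rw [h1, sum_comm]
  apply sum_congr rfl
  intro l _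
  rw [Psi_eq]
  apply sum_congr rfl
  intro r _
  congr 1
  ring

lemma Psi_mono (n : ℕ) {v v' : ℕ} (h : v ≤ v') : Psi n v ≤ Psi n v' :=
  sum_le_sum_of_subset_of_nonneg (Icc_subset_Icc_right h) fun _ _ _ => ArithmeticFunction.vonMangoldt_nonneg

/-- from one length to all larger lengths -/
lemma good_lengths (x t b v M : ℕ) (e G : ℝ) (g : ℕ → ℝ) (hg : ∀ s ∈ Icc 1 x, 0 ≤ g s) (hG : G = ∑ s ∈ Icc 1 x, g s)
    (he0 : 0 < e) (he1 : e ≤ 1) (hb : 1 ≤ b) (hv : (b : ℝ) ≤ e * v) (hM : v / b + 1 ≤ M)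
    (hgood : ∀ m : ℕ, 1 ≤ m → m ≤ M →
      ∑ l ∈ range m, |∑ s ∈ Icc 1 x, g s * (Psi (s + (t + l * b)) b - b)| ≤ e * b * G * m) :
    |∑ s ∈ Icc 1 x, g s * (Psi (s + t) v - v)| ≤ 3 * e * v * G := by
  have hG0 : 0 ≤ G := by rw [hG]; exact sum_nonneg hg
  obtain ⟨Φ, hΦ⟩ : ∃ Φ : ℕ → ℝ, Φ = fun l => ∑ s ∈ Icc 1 x, g s * (Psi (s + (t + l * b)) b - b) := ⟨_, rfl⟩
  have hb0 : (0 : ℝ) < b := by exact_mod_cast hb
  have hv0 : (0 : ℝ) < v := by
    by_contra hcon
    push Not at hcon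
    have : e * v ≤ 0 := mul_nonpos_of_nonneg_of_nonpos he0.le hcon
    linarith
  -- block sums
  have hblk : ∀ m : ℕ, ∑ s ∈ Icc 1 x, g s * Psi (s + t) (m * b) = m * b * G + ∑ l ∈ range m, Φ l := by
    intro m
    have e1 : ∀ s, Psi (s + t) (m * b) = ∑ l ∈ range m, Psi (s + (t + l * b)) b := by
      intro s
      rw [← Psi_blocks]
      apply sum_congr rfl
      intro l _
      congr 1
      ring
    have e2 : ∑ s ∈ Icc 1 x, g s * Psi (s + t) (m * b) = ∑ l ∈ range m, ∑ s ∈ Icc 1 x, g s * Psi (s + (t + l * b)) b := by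
      rw [sum_comm]
      apply sum_congr rfl
      intro s _
      rw [e1, mul_sum]
    have e3 : ∀ l, ∑ s ∈ Icc 1 x, g s * Psi (s + (t + l * b)) b = b * G + Φ l := by
      intro l
      rw [hΦ, hG, mul_sum, ← sum_add_distrib]
      apply sum_congr rfl
      intro s _
      ring
    rw [e2, sum_congr rfl fun l _ => e3 l, sum_add_distrib, sum_const, card_range, nsmul_eq_mul]
    ring
  have hΦb : ∀ m : ℕ, m ≤ M → |∑ l ∈ range m, Φ l| ≤ e * b * G * m := by
    intro m hm
    rcases Nat.eq_zero_or_pos m with h0 | h0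
    · subst h0
      simp
    · refine (abs_sum_le_sum_abs _ _).trans ?_
      rw [hΦ]
      exact hgood m h0 hm
  obtain ⟨m, hm⟩ : ∃ m, m = v / b := ⟨_, rfl⟩
  have hm1 : m * b ≤ v := by rw [hm]; exact Nat.div_mul_le_self v b
  have hm2 : v < (m + 1) * b := by rw [hm]; exact Nat.lt_mul_of_div_lt (Nat.lt_succ_self _) (by omega)
  rw [← hm] at hM
  have hm1' : (m : ℝ) * b ≤ v := by exact_mod_cast hm1
  have hm2' : (v : ℝ) ≤ (m + 1) * b := by exact_mod_cast hm2.le
  have up : ∑ s ∈ Icc 1 x, g s * Psi (s + t) v ≤ (m + 1) * b * G + e * b * G * (m + 1) := by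
    have h1 : ∑ s ∈ Icc 1 x, g s * Psi (s + t) v ≤ ∑ s ∈ Icc 1 x, g s * Psi (s + t) ((m + 1) * b) :=
      sum_le_sum fun s hs => mul_le_mul_of_nonneg_left (Psi_mono _ hm2.le) (hg s hs)
    have h2 := hblk (m + 1)
    have h3 := (abs_le.1 (hΦb (m + 1) hM)).2
    push_cast at h2 h3
    linarith
  have lo : m * b * G - e * b * G * m ≤ ∑ s ∈ Icc 1 x, g s * Psi (s + t) v := by
    have h1 : ∑ s ∈ Icc 1 x, g s * Psi (s + t) (m * b) ≤ ∑ s ∈ Icc 1 x, g s * Psi (s + t) v :=
      sum_le_sum fun s hs => mul_le_mul_of_nonneg_left (Psi_mono _ hm1) (hg s hs)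
    have h2 := hblk m
    have h3 := (abs_le.1 (hΦb m (by omega))).1
    linarith
  have e4 : ∑ s ∈ Icc 1 x, g s * (Psi (s + t) v - v) = ∑ s ∈ Icc 1 x, g s * Psi (s + t) v - v * G := by
    rw [hG, mul_sum, ← sum_sub_distrib]
    apply sum_congr rfl
    intro s _
    ring
  rw [e4, abs_le]
  constructor
  · -- lower
    have h1 : (v : ℝ) - b ≤ m * b := by linarith
    have h2 : (1 - e) * ((v - b) * G) ≤ (1 - e) * (m * b * G) := by
      apply mul_le_mul_of_nonneg_left _ (by linarith)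
      exact mul_le_mul_of_nonneg_right h1 hG0
    have h3 : (1 - e) * ((1 - e) * v * G) ≤ (1 - e) * ((v - b) * G) := by
      apply mul_le_mul_of_nonneg_left _ (by linarith)
      apply mul_le_mul_of_nonneg_right _ hG0
      linarith
    have h4 : v * G - 3 * e * v * G ≤ (1 - e) * ((1 - e) * v * G) := by
      have h5 : 0 ≤ v * G := by positivity
      have h6 : 0 ≤ e ^ 2 * (v * G) := by positivity
      have h7 : (1 - e) * ((1 - e) * v * G) = v * G - 2 * (e * (v * G)) + e ^ 2 * (v * G) := by ring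
      rw [h7]
      have h8 : 0 ≤ e * (v * G) := by positivity
      linarith
    have h9 : (1 - e) * (m * b * G) = m * b * G - e * b * G * m := by ring
    linarith
  · have h1 : ((m : ℝ) + 1) * b ≤ (1 + e) * v := by linarith
    have h2 : (1 + e) * (((m : ℝ) + 1) * b * G) ≤ (1 + e) * ((1 + e) * v * G) := by
      apply mul_le_mul_of_nonneg_left _ (by linarith)
      exact mul_le_mul_of_nonneg_right h1 hG0
    have h3 : (1 + e) * ((1 + e) * v * G) ≤ v * G + 3 * e * v * G := by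
      have h6 : e ^ 2 * (v * G) ≤ e * (v * G) := by
        apply mul_le_mul_of_nonneg_right _ (by positivity)
        nlinarith
      have h7 : (1 + e) * ((1 + e) * v * G) = v * G + 2 * (e * (v * G)) + e ^ 2 * (v * G) := by ring
      rw [h7]
      linarith
    have h9 : (1 + e) * (((m : ℝ) + 1) * b * G) = (m + 1) * b * G + e * b * G * (m + 1) := by ring
    linarith

end Pool.Agent.V5helper54.RI
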