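import Pool.Agent.V5helper51.SG.Short
import Pool.Agent.V5helper51.MW.All

/-! # Primes along arbitrary weights in short windows -/

set_option autoImplicit false

namespace Pool.Agent.V5helper54.RI

open Finset
open Pool.Agent.H373R2.T7
open Pool.Agent.V5helper51.SG (energy_one)

theorem las_win (T U : ℕ) : ∃ D B0 : ℕ, ∀ E : ℕ, ∃ N0 : ℕ, ∀ x : ℕ, N0 ≤ x → ∀ z : ℕ, Real.log x ^ B0 ≤ z →
    (z : ℝ) ≤ Real.log x ^ E → ∀ w H j : ℕ, w + H ≤ x → j ≤ x → (x : ℝ) ^ (1 / 3 : ℝ) * Real.log x ^ D ≤ H →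
    ∀ g : ℕ → ℝ, ∑ s ∈ Icc 1 x, g s ^ 2 ≤ x * Real.log x ^ T →
    ∑ t ∈ Ioc w (w + H), |∑ s ∈ Icc 1 x, g s * (ArithmeticFunction.vonMangoldt (s + t + j) - lamz z (s + t + j))| ≤
      x * H / Real.log x ^ U := by
  obtain ⟨D, B0, h0⟩ := Pool.Agent.V5helper51.MW.las_all 1 2 0 T U le_rfl
  refine ⟨D, B0, fun E => ?_⟩
  obtain ⟨N0, hN0⟩ := h0 E
  refine ⟨max N0 1, fun x hx z hz1 hz2 w H j hwH hj hH g hg => ?_⟩
  have b1 : N0 ≤ x := le_trans (le_max_left _ _) hx
  have b2 : 1 ≤ x := le_trans (le_max_right _ _) hx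
  obtain ⟨sg, hsg⟩ : ∃ sg : ℕ → ℤ, sg = fun m : ℕ => (w : ℤ) + m + j := ⟨_, rfl⟩
  have key := hN0 x b1 H hH (by omega) H sg ((w : ℤ) + j) (by
      have h1 : (w : ℤ) + j ≤ 2 * x := by
        have : w + j ≤ 2 * x := by omega
        exact_mod_cast this
      rw [abs_of_nonneg (by positivity)]
      push_cast
      exact h1) (by
      intro m hm
      rw [mem_Icc] at hm
      have e1 : sg m - ((w : ℤ) + j) = m := by
        rw [hsg]
        ring
      rw [e1, abs_of_nonneg (by positivity)]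
      have : (m : ℤ) ≤ H := by exact_mod_cast hm.2
      push_cast
      have h0 : (0 : ℤ) ≤ H := by positivity
      linarith) (by
      have h1 : energy 1 H sg ≤ H := by
        apply energy_one
        intro a _ b _ hab
        rw [hsg] at hab
        simp only at hab
        have h3 : (a : ℤ) = b := by linarith
        exact_mod_cast h3
      have h2 : (energy 1 H sg : ℝ) ≤ H := by exact_mod_cast h1
      calc (energy 1 H sg : ℝ) * H ≤ H * H := mul_le_mul_of_nonneg_right h2 (Nat.cast_nonneg _)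
        _ = Real.log x ^ 0 * (H : ℝ) ^ (2 * 1) := by ring) x (by omega) z hz1 hz2 (fun a => (g a : ℂ)) (by
      refine le_trans (le_of_eq ?_) hg
      apply sum_congr rfl
      intro a _
      rw [Complex.norm_real, Real.norm_eq_abs, sq_abs])
  refine le_trans (le_of_eq ?_) key
  symm
  apply sum_bij (fun m _ => w + m)
  · intro m hm
    rw [mem_Icc] at hm
    rw [mem_Ioc]
    omega
  · intro a _ b _ hab
    have : w + a = w + b := hab
    omega
  · intro t ht
    rw [mem_Ioc] at ht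
    exact ⟨t - w, mem_Icc.2 (by omega), by omega⟩
  · intro m hm
    rw [mem_Icc] at hm
    have e1 : ∑ a ∈ Icc 1 x, (g a : ℂ) * ((lamI (a + sg m) - lamzI z (a + sg m) : ℝ) : ℂ) =
        ((∑ s ∈ Icc 1 x, g s * (ArithmeticFunction.vonMangoldt (s + (w + m) + j) - lamz z (s + (w + m) + j)) : ℝ) : ℂ) := by
      push_cast
      apply sum_congr rfl
      intro s hs
      rw [mem_Icc] at hs
      have e3 : (s : ℤ) + sg m = ((s + (w + m) + j : ℕ) : ℤ) := by
        rw [hsg]
        push_cast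
        ring
      rw [e3]
      unfold lamI lamzI
      rw [if_pos (by exact_mod_cast (by omega : 1 ≤ s + (w + m) + j)),
        if_pos (by exact_mod_cast (by omega : 1 ≤ s + (w + m) + j)), Int.toNat_natCast]
    rw [e1, Complex.norm_real, Real.norm_eq_abs]

end Pool.Agent.V5helper54.RI
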