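import Pool.Agent.V5helper54.RI.All

/-! # All exponents at once -/

set_option autoImplicit false

namespace Pool.Agent.V5helper54.RI

open Finset Filter

/-- `(log n) ^ a` is nearly constant for `x / (log x) ^ B ≤ n ≤ 2 x`, uniformly for `a loglog x ≤ δ log x` -/
lemma log_pow_near (B : ℕ) (x : ℕ) (L : ℝ) (hL : L = Real.log x) (hx : 0 < (x : ℝ)) (hLL : 1 ≤ Real.log L) (hL1 : 2 ≤ L)
    (hy : (B : ℝ) * Real.log L ≤ L / 2) (δ η a : ℝ) (hδ0 : 0 < δ) (hδ1 : δ ≤ 1) (hδη : 2 * δ ≤ η) (hδη' : 2 * δ * B ≤ η)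
    (ha0 : 0 < a) (ha : a * Real.log L ≤ δ * L) (n : ℕ) (hn : n ≤ 2 * x) (hn' : (x : ℝ) ≤ n * L ^ B) :
    |Real.log n ^ a - L ^ a| ≤ η * L ^ a := by
  have hL0 : 0 < L := by linarith
  have hn0 : (0 : ℝ) < n := by
    by_contra hcon
    push Not at hcon
    have : (n : ℝ) * L ^ B ≤ 0 := mul_nonpos_of_nonpos_of_nonneg hcon (by positivity)
    linarith
  have hBLL : 0 ≤ (B : ℝ) * Real.log L := by positivity
  have h1 : L ≤ Real.log n + B * Real.log L := by
    have := Real.log_le_log hx hn'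
    rwa [Real.log_mul hn0.ne' (by positivity), Real.log_pow, ← hL] at this
  have h2 : Real.log n ≤ L + 1 := by
    have h3 : (n : ℝ) ≤ 2 * x := by exact_mod_cast hn
    have h4 := Real.log_le_log hn0 h3
    rw [Real.log_mul (by norm_num) hx.ne', ← hL] at h4
    have := Real.log_two_lt_d9
    linarith
  have hln : 0 < Real.log n := by linarith
  have hu : 0 < L ^ a := Real.rpow_pos_of_pos hL0 a
  -- logs
  have h5 : Real.log (Real.log n) ≤ Real.log L + 1 / L := by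
    have h6 : Real.log (Real.log n) - Real.log L ≤ Real.log n / L - 1 := by
      rw [← Real.log_div hln.ne' hL0.ne']
      exact Real.log_le_sub_one_of_pos (by positivity)
    have h7 : Real.log n / L ≤ 1 + 1 / L := by
      rw [div_le_iff₀ hL0]
      have : (1 + 1 / L) * L = L + 1 := by field_simp
      rw [this]
      exact h2
    linarith
  have h8 : Real.log L - 2 * (B * Real.log L) / L ≤ Real.log (Real.log n) := by
    have h6 : Real.log L - Real.log (Real.log n) ≤ L / Real.log n - 1 := by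
      rw [← Real.log_div hL0.ne' hln.ne']
      exact Real.log_le_sub_one_of_pos (by positivity)
    have h7 : L / Real.log n - 1 ≤ 2 * (B * Real.log L) / L := by
      have h9 : L / 2 ≤ Real.log n := by linarith
      have h10 : L / Real.log n - 1 = (L - Real.log n) / Real.log n := by
        field_simp
      rw [h10]
      calc (L - Real.log n) / Real.log n ≤ (B * Real.log L) / Real.log n :=
            div_le_div_of_nonneg_right (by linarith) hln.le
        _ ≤ (B * Real.log L) / (L / 2) := div_le_div_of_nonneg_left hBLL (by positivity) h9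
        _ = _ := by field_simp
    linarith
  have haL : a / L ≤ δ := by
    rw [div_le_iff₀ hL0]
    have : a * 1 ≤ a * Real.log L := mul_le_mul_of_nonneg_left hLL ha0.le
    linarith
  have e1 : Real.log n ^ a ≤ (1 + η) * L ^ a := by
    rw [Real.rpow_def_of_pos hln, Real.rpow_def_of_pos hL0]
    have h11 : Real.log (Real.log n) * a ≤ Real.log L * a + δ := by
      have h12 := mul_le_mul_of_nonneg_right h5 ha0.le
      have h13 : (Real.log L + 1 / L) * a = Real.log L * a + a / L := by ring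
      linarith
    have h14 : Real.exp δ ≤ 1 + η := by
      have h15 := Real.exp_bound_div_one_sub_of_interval (x := δ) hδ0.le
      by_cases h16 : δ ≤ 1 / 2
      · have h17 := Real.exp_bound_div_one_sub_of_interval (x := δ) hδ0.le (by linarith)
        have h18 : 1 / (1 - δ) ≤ 1 + 2 * δ := by
          rw [div_le_iff₀ (by linarith)]
          nlinarith
        linarith
      · push Not at h16
        have h17 : Real.exp δ ≤ 1 + 2 * δ := by
          -- convexity: `exp δ ≤ 1 + (e - 1) δ`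
          have h18 := convexOn_exp.2 (Set.mem_univ 0) (Set.mem_univ 1) (show 0 ≤ 1 - δ by linarith) hδ0.le
            (by ring)
          simp only [smul_eq_mul, mul_zero, zero_add, mul_one, Real.exp_zero] at h18
          have h19 := Real.exp_one_lt_d9
          have h20 : δ * Real.exp 1 ≤ δ * 3 := mul_le_mul_of_nonneg_left (by linarith) hδ0.le
          linarith
        linarith
    calc Real.exp (Real.log (Real.log n) * a) ≤ Real.exp (Real.log L * a + δ) := Real.exp_le_exp.2 h11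
      _ = Real.exp δ * Real.exp (Real.log L * a) := by rw [Real.exp_add, mul_comm]
      _ ≤ _ := mul_le_mul_of_nonneg_right h14 (Real.exp_pos _).le
  have e2 : (1 - η) * L ^ a ≤ Real.log n ^ a := by
    rw [Real.rpow_def_of_pos hln, Real.rpow_def_of_pos hL0]
    have h11 : Real.log L * a - η ≤ Real.log (Real.log n) * a := by
      have h12 := mul_le_mul_of_nonneg_right h8 ha0.le
      have h13 : (Real.log L - 2 * (B * Real.log L) / L) * a = Real.log L * a - 2 * B * ((a * Real.log L) / L) := by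
        field_simp
      have h14 : (a * Real.log L) / L ≤ δ := by
        rw [div_le_iff₀ hL0]
        exact ha
      have h15 : 2 * B * ((a * Real.log L) / L) ≤ 2 * B * δ := mul_le_mul_of_nonneg_left h14 (by positivity)
      have h16 : 2 * (B : ℝ) * δ = 2 * δ * B := by ring
      linarith
    calc (1 - η) * Real.exp (Real.log L * a) ≤ Real.exp (-η) * Real.exp (Real.log L * a) := by
          apply mul_le_mul_of_nonneg_right _ (Real.exp_pos _).le
          have := Real.add_one_le_exp (-η)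
          linarith
      _ = Real.exp (Real.log L * a - η) := by rw [← Real.exp_add]; congr 1; ring
      _ ≤ _ := Real.exp_le_exp.2 h11
  rw [abs_le]
  constructor <;> linarith

open Classical in
theorem all_exponents (A D : ℕ) (ε : ℝ) (hD : ∃ K : ℕ, ∃ δ : ℝ, 0 < δ ∧ ∃ x0 : ℕ, ∀ x : ℕ, x0 ≤ x →
    ∀ g : ℕ → ℝ, (∀ s ∈ Icc 1 x, 0 ≤ g s ∧ g s ≤ Real.log x ^ A) → (x : ℝ) ≤ (∑ s ∈ Icc 1 x, g s) * Real.log x ^ A →
    ∀ w H : ℕ, w + H ≤ x → (x : ℝ) ^ (1 / 3 : ℝ) * Real.log x ^ D ≤ H →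
    (((Ioc w (w + H)).filter (fun t => ∃ u : ℝ, K * Real.log (Real.log x) ≤ u ∧ 10 * u ≤ H ∧
      2 * u * Real.log x ^ (2 * A + 4) ≤ x ∧ ∃ h : ℕ → ℝ, (∀ n, 0 ≤ h n) ∧
        (∀ n : ℕ, n ≤ 2 * x → (x : ℝ) ≤ n * Real.log x ^ (2 * A + 4) → |h n - u| ≤ δ * u) ∧
        ε * ∑ s ∈ Icc 1 x, g s < |∑ s ∈ Icc 1 x, g s * ratio h (s + t) - ∑ s ∈ Icc 1 x, g s|)).card : ℝ) ≤ ε * H) :
    ∃ δ : ℝ, 0 < δ ∧ ∀ a0 : ℝ, 0 < a0 → ∃ x0 : ℕ, ∀ x : ℕ, x0 ≤ x →
    ∀ g : ℕ → ℝ, (∀ s ∈ Icc 1 x, 0 ≤ g s ∧ g s ≤ Real.log x ^ A) → (x : ℝ) ≤ (∑ s ∈ Icc 1 x, g s) * Real.log x ^ A →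
    ∀ w H : ℕ, w + H ≤ x → (x : ℝ) ^ (1 / 3 : ℝ) * Real.log x ^ D ≤ H →
    (((Ioc w (w + H)).filter (fun t => ∃ a : ℝ, a0 ≤ a ∧ Real.log x ^ a ≤ (x : ℝ) ^ δ ∧
      ε * ∑ s ∈ Icc 1 x, g s < |∑ s ∈ Icc 1 x, g s * ratio (fun n => Real.log n ^ a) (s + t) - ∑ s ∈ Icc 1 x, g s|)).card : ℝ)
      ≤ ε * H := by
  obtain ⟨K, η, hη0, x1, hx1⟩ := hD
  obtain ⟨B, hB⟩ : ∃ B : ℕ, B = 2 * A + 4 := ⟨_, rfl⟩
  have hB4 : (4 : ℝ) ≤ B := by rw [hB]; push_cast; linarith [(Nat.cast_nonneg A : (0 : ℝ) ≤ A)]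
  obtain ⟨δ, hδ⟩ : ∃ δ : ℝ, δ = min (1 / 6) (η / (2 * B)) := ⟨_, rfl⟩
  have hδ0 : 0 < δ := by rw [hδ]; exact lt_min (by norm_num) (by positivity)
  have hδ3 : δ ≤ 1 / 6 := by rw [hδ]; exact min_le_left _ _
  have hδB : 2 * δ * B ≤ η := by
    have h1 : δ ≤ η / (2 * B) := by rw [hδ]; exact min_le_right _ _
    rw [le_div_iff₀ (by positivity)] at h1
    linarith
  have hδη : 2 * δ ≤ η := by
    have : 2 * δ * 1 ≤ 2 * δ * B := mul_le_mul_of_nonneg_left (by linarith) (by linarith)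
    linarith
  refine ⟨δ, hδ0, fun a0 ha0 => ?_⟩
  have hlim : Tendsto (fun N : ℕ => Real.log (N : ℝ)) atTop atTop :=
    Real.tendsto_log_atTop.comp (tendsto_natCast_atTop_atTop (R := ℝ))
  -- `K log log x ≤ (log x) ^ a0`
  obtain ⟨x2, hx2⟩ := eventually_atTop.1 ((regular_log_pow a0 ha0).2.2.1 K)
  -- `B log log x ≤ log x / 2`
  obtain ⟨x3, hx3⟩ := eventually_atTop.1 (hlim.eventually ((Real.isLittleO_log_id_atTop).bound
    (show (0 : ℝ) < 1 / (2 * B) by positivity)))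
  obtain ⟨x4, hx4⟩ := eventually_atTop.1 (hlim.eventually_ge_atTop 10)
  have hpw : ∀ᶠ N : ℕ in atTop, Real.log (N : ℝ) ^ (2 * A + 5) ≤ (N : ℝ) ^ (1 / 6 : ℝ) := by
    have h1 := (isLittleO_log_rpow_rpow_atTop (s := 1 / 6) ((2 * A + 5 : ℕ) : ℝ) (by norm_num)).bound
      (show (0 : ℝ) < 1 by norm_num)
    have h2 := (tendsto_natCast_atTop_atTop (R := ℝ)).eventually h1
    filter_upwards [h2, eventually_ge_atTop 1] with N h3 h4
    have h5 : (1 : ℝ) ≤ N := by exact_mod_cast h4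
    have h6 : 0 ≤ Real.log (N : ℝ) := Real.log_nonneg h5
    rw [Real.norm_of_nonneg (by positivity), Real.norm_of_nonneg (by positivity), one_mul, Real.rpow_natCast] at h3
    exact h3
  obtain ⟨x6, hx6⟩ := eventually_atTop.1 hpw
  refine ⟨max (max (max x1 x2) x6) (max (max x3 x4) 1), fun x hx g hg hgx w H hwH hH => ?_⟩
  simp only [max_le_iff] at hx
  obtain ⟨⟨⟨b1, b2⟩, b6⟩, ⟨b3, b4⟩, b5⟩ := hx
  have hx1r : (1 : ℝ) ≤ x := by exact_mod_cast b5
  have hx0 : (0 : ℝ) < x := by linarith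
  have hL := hx4 x b4
  have hL0 : 0 < Real.log (x : ℝ) := by linarith
  have hL1 : 1 ≤ Real.log (x : ℝ) := by linarith
  have hLL : 1 ≤ Real.log (Real.log (x : ℝ)) := by
    have he : Real.exp 1 ≤ Real.log x := by
      have := Real.exp_one_lt_d9
      linarith
    calc (1 : ℝ) = Real.log (Real.exp 1) := (Real.log_exp 1).symm
      _ ≤ _ := Real.log_le_log (Real.exp_pos 1) he
  have hK := hx2 x b2
  have hP := hx6 x b6
  have hx16 : 0 < (x : ℝ) ^ (1 / 6 : ℝ) := by positivity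
  have h10 : 10 ≤ (x : ℝ) ^ (1 / 6 : ℝ) := by
    calc (10 : ℝ) ≤ Real.log x ^ 1 := by rw [pow_one]; exact hL
      _ ≤ Real.log x ^ (2 * A + 5) := pow_le_pow_right₀ hL1 (by omega)
      _ ≤ _ := hP
  have hx13 : (x : ℝ) ^ (1 / 6 : ℝ) * (x : ℝ) ^ (1 / 6 : ℝ) = (x : ℝ) ^ (1 / 3 : ℝ) := by
    rw [← Real.rpow_add hx0]
    norm_num
  have hx13x : (x : ℝ) ^ (1 / 3 : ℝ) ≤ x := by
    calc (x : ℝ) ^ (1 / 3 : ℝ) ≤ (x : ℝ) ^ (1 : ℝ) := Real.rpow_le_rpow_of_exponent_le hx1r (by norm_num)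
      _ = x := Real.rpow_one _
  have hH3 : (x : ℝ) ^ (1 / 3 : ℝ) ≤ H := by
    refine le_trans ?_ hH
    exact le_mul_of_one_le_right (by positivity) (one_le_pow₀ hL1)
  have hBL : (B : ℝ) * Real.log (Real.log (x : ℝ)) ≤ Real.log x / 2 := by
    have h1 := hx3 x b3
    simp only [id] at h1
    rw [Real.norm_of_nonneg (by linarith), Real.norm_of_nonneg hL0.le] at h1
    calc (B : ℝ) * Real.log (Real.log (x : ℝ)) ≤ B * (1 / (2 * B) * Real.log x) :=
          mul_le_mul_of_nonneg_left h1 (by linarith)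
      _ = _ := by field_simp
  refine le_trans ?_ (hx1 x b1 g hg hgx w H hwH hH)
  have hsub : (Ioc w (w + H)).filter (fun t => ∃ a : ℝ, a0 ≤ a ∧ Real.log x ^ a ≤ (x : ℝ) ^ δ ∧
      ε * ∑ s ∈ Icc 1 x, g s < |∑ s ∈ Icc 1 x, g s * ratio (fun n => Real.log n ^ a) (s + t) - ∑ s ∈ Icc 1 x, g s|) ⊆
      (Ioc w (w + H)).filter (fun t => ∃ u : ℝ, K * Real.log (Real.log x) ≤ u ∧ 10 * u ≤ H ∧
      2 * u * Real.log x ^ (2 * A + 4) ≤ x ∧ ∃ h : ℕ → ℝ, (∀ n, 0 ≤ h n) ∧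
        (∀ n : ℕ, n ≤ 2 * x → (x : ℝ) ≤ n * Real.log x ^ (2 * A + 4) → |h n - u| ≤ η * u) ∧
        ε * ∑ s ∈ Icc 1 x, g s < |∑ s ∈ Icc 1 x, g s * ratio h (s + t) - ∑ s ∈ Icc 1 x, g s|) := by
    intro t ht
    rw [mem_filter] at ht ⊢
    obtain ⟨ht1, a, ha1, ha2, hlt⟩ := ht
    have ha : 0 < a := by linarith
    have hu16 : Real.log x ^ a ≤ (x : ℝ) ^ (1 / 6 : ℝ) := ha2.trans (Real.rpow_le_rpow_of_exponent_le hx1r hδ3)
    refine ⟨ht1, Real.log x ^ a, ?_, ?_, ?_, fun n => Real.log n ^ a,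
      fun n => Real.rpow_nonneg (Real.log_natCast_nonneg n) a, ?_, hlt⟩
    · refine hK.trans ?_
      exact Real.rpow_le_rpow_of_exponent_le hL1 ha1
    · calc 10 * Real.log x ^ a ≤ (x : ℝ) ^ (1 / 6 : ℝ) * (x : ℝ) ^ (1 / 6 : ℝ) :=
            mul_le_mul h10 hu16 (by positivity) hx16.le
        _ = (x : ℝ) ^ (1 / 3 : ℝ) := hx13
        _ ≤ H := hH3
    · calc 2 * Real.log x ^ a * Real.log x ^ (2 * A + 4) ≤ 2 * (x : ℝ) ^ (1 / 6 : ℝ) * Real.log x ^ (2 * A + 4) := by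
            gcongr
        _ = (x : ℝ) ^ (1 / 6 : ℝ) * (2 * Real.log x ^ (2 * A + 4)) := by ring
        _ ≤ (x : ℝ) ^ (1 / 6 : ℝ) * Real.log x ^ (2 * A + 5) := by
            apply mul_le_mul_of_nonneg_left _ hx16.le
            rw [pow_succ (Real.log (x : ℝ)) (2 * A + 4), mul_comm]
            apply mul_le_mul_of_nonneg_left _ (by positivity)
            linarith
        _ ≤ (x : ℝ) ^ (1 / 6 : ℝ) * (x : ℝ) ^ (1 / 6 : ℝ) := mul_le_mul_of_nonneg_left hP hx16.le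
        _ = (x : ℝ) ^ (1 / 3 : ℝ) := hx13
        _ ≤ x := hx13x
    · intro n hn hn'
      rw [← hB] at hn'
      refine log_pow_near B x (Real.log x) rfl hx0 hLL (by linarith) hBL δ η a hδ0 (by linarith) hδη hδB ha ?_ n hn hn'
      have h1 := Real.log_le_log (Real.rpow_pos_of_pos hL0 a) ha2
      rwa [Real.log_rpow hL0, Real.log_rpow hx0] at h1
  exact_mod_cast card_le_card hsub

end Pool.Agent.V5helper54.RI
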