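import Pool.Agent.V5helper54.RI.Var

/-! # Integers without small prime factors in very short intervals: first moment -/

set_option autoImplicit false

namespace Pool.Agent.V5helper54.RI

open Finset
open Pool.Agent.H373R2.T7
open Pool.Agent.Y877.SX

lemma lamz_nonneg (z n : ℕ) : 0 ≤ lamz z n := by
  unfold lamz
  split_ifs
  · exact (inv_pos.2 (Vz_pos z)).le
  · exact le_rfl

lemma lamz_le (z n : ℕ) : lamz z n ≤ (Vz z)⁻¹ := by
  unfold lamz
  split_ifs
  · exact le_rfl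
  · exact (inv_pos.2 (Vz_pos z)).le

open Classical in
/-- the sum of the model over an interval in a progression modulo the primorial -/
lemma lamz_sum (y z u h M g : ℕ) (hyz : y ≤ z) (hM : ∀ p ∈ pz y, p ∣ M) :
    ∑ j ∈ Icc 1 h, lamz z (u + M * g + j) = (Vz z)⁻¹ *
      ((((Icc 1 h).filter (fun j => ∀ p ∈ pz y, ¬ p ∣ u + j)).filter
        (fun j => ∀ p ∈ mid y z, ¬ p ∣ (u + j) + M * g)).card : ℝ) := by
  have e1 : ∀ j, lamz z (u + M * g + j) = if (∀ p ∈ pz y, ¬ p ∣ u + j) ∧ (∀ p ∈ mid y z, ¬ p ∣ (u + j) + M * g) then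
      (Vz z)⁻¹ else 0 := by
    intro j
    unfold lamz
    have e2 : (∀ p ∈ pz z, ¬ p ∣ u + M * g + j) ↔
        ((∀ p ∈ pz y, ¬ p ∣ u + j) ∧ (∀ p ∈ mid y z, ¬ p ∣ (u + j) + M * g)) := by
      have e3 : u + M * g + j = (u + j) + M * g := by ring
      rw [e3]
      constructor
      · intro h
        refine ⟨fun p hp hd => ?_, fun p hp => h p (mem_pz.2 (mem_mid.1 hp).2)⟩
        have hp' := mem_pz.1 hp
        exact h p (mem_pz.2 ⟨hp'.1.trans hyz, hp'.2⟩) (dvd_add hd ((hM p hp).mul_right g))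
      · rintro ⟨h1, h2⟩ p hp hd
        have hp' := mem_pz.1 hp
        by_cases hpy : p ≤ y
        · have hpy' : p ∈ pz y := mem_pz.2 ⟨hpy, hp'.2⟩
          exact h1 p hpy' ((Nat.dvd_add_iff_left ((hM p hpy').mul_right g)).2 hd)
        · exact h2 p (mem_mid.2 ⟨by omega, hp'.1, hp'.2⟩) hd
    simp only [e2]
  rw [sum_congr rfl fun j _ => e1 j, ← sum_filter, sum_const, nsmul_eq_mul, filter_filter, mul_comm]

open Classical in
/-- one residue class -/
theorem rough_class (ε : ℝ) (hε : 0 < ε) : ∃ K y : ℕ, 1 ≤ K ∧ 1 ≤ y ∧ y ≤ K ∧ ∀ E : ℕ, ∃ G0 : ℕ, ∀ G : ℕ, G0 ≤ G →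
    ∀ z : ℕ, y ≤ z → (z : ℝ) ≤ Real.log G ^ E → ∀ h u : ℕ, K * (Vz z)⁻¹ ≤ h →
    ∑ g ∈ Icc 1 G, |∑ j ∈ Icc 1 h, lamz z (u + primorial y * g + j) - h| ≤ ε * (h * G) := by
  obtain ⟨e, he⟩ : ∃ e, e = ε / 6 := ⟨_, rfl⟩
  have he0 : 0 < e := by rw [he]; positivity
  obtain ⟨η, hη⟩ : ∃ η, η = e ^ 2 := ⟨_, rfl⟩
  have hη0 : 0 < η := by rw [hη]; positivity
  -- the choice of `n`
  obtain ⟨n, hn⟩ : ∃ n : ℕ, 8 * ((6 * (n + 1) : ℕ) : ℝ) ≤ (1 + η) ^ (n + 1) := by
    have h1 := tendsto_pow_const_div_const_pow_of_one_lt 1 (show (1 : ℝ) < 1 + η by linarith)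
    have h2 : ∀ᶠ n : ℕ in Filter.atTop, (n : ℝ) ^ 1 / (1 + η) ^ n < 1 / 48 :=
      h1.eventually (gt_mem_nhds (by norm_num))
    obtain ⟨N, hN⟩ := Filter.eventually_atTop.1 h2
    refine ⟨N, ?_⟩
    have h3 := hN (N + 1) (by omega)
    rw [pow_one, div_lt_iff₀ (by positivity)] at h3
    push_cast at h3 ⊢
    linarith
  obtain ⟨y, hy⟩ : ∃ y, y = 6 * (n + 1) := ⟨_, rfl⟩
  have hy1 : 1 ≤ y := by omega
  have hyr : (1 : ℝ) ≤ y := by exact_mod_cast hy1
  obtain ⟨M, hMd⟩ : ∃ M, M = primorial y := ⟨_, rfl⟩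
  have hM1 : 1 ≤ M := by rw [hMd]; exact primorial_pos y
  have hM0 : (0 : ℝ) < M := by exact_mod_cast hM1
  have hVy := Vz_pos y
  have hVyy : 1 / (y : ℝ) ≤ Vz y := Vz_ge y hy1
  obtain ⟨K, hK⟩ := exists_nat_ge (M * y / e + 2 * M * y + 2 * y + 2 / e ^ 2)
  have hKe : M * y / e ≤ K := by
    have : 0 ≤ 2 * (M : ℝ) * y + 2 * y + 2 / e ^ 2 := by positivity
    linarith
  have hKM : 2 * (M : ℝ) * y ≤ K := by
    have : 0 ≤ M * y / e + 2 * (y : ℝ) + 2 / e ^ 2 := by positivity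
    linarith
  have hKy : (y : ℝ) ≤ K := by
    have : 0 ≤ M * y / e + 2 * (M : ℝ) * y + (y : ℝ) + 2 / e ^ 2 := by positivity
    linarith
  have hKe2 : 2 / e ^ 2 ≤ K := by
    have : 0 ≤ M * y / e + 2 * (M : ℝ) * y + 2 * (y : ℝ) := by positivity
    linarith
  have hyK : y ≤ K := by exact_mod_cast hKy
  refine ⟨K, y, by omega, hy1, hyK, fun E => ?_⟩
  obtain ⟨G1, hG1⟩ := single_cnt E 3
  obtain ⟨G2, hG2⟩ := pair_cnt E 3
  obtain ⟨G3, hG3⟩ := Vz_inv_small E
  have hlim : Filter.Tendsto (fun N : ℕ => Real.log (N : ℝ)) Filter.atTop Filter.atTop :=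
    Real.tendsto_log_atTop.comp (tendsto_natCast_atTop_atTop (R := ℝ))
  obtain ⟨G4, hG4⟩ := Filter.eventually_atTop.1 (hlim.eventually_ge_atTop (max 1 (4 / e ^ 2)))
  refine ⟨max (max G1 G2) (max G3 (max G4 1)), fun G hG z hyz hz h u hh => ?_⟩
  have b1 : G1 ≤ G := le_trans (le_trans (le_max_left _ _) (le_max_left _ _)) hG
  have b2 : G2 ≤ G := le_trans (le_trans (le_max_right _ _) (le_max_left _ _)) hG
  have b3 : G3 ≤ G := le_trans (le_trans (le_max_left _ _) (le_max_right _ _)) hG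
  have b4 : G4 ≤ G := le_trans (le_trans (le_trans (le_max_left _ _) (le_max_right _ _)) (le_max_right _ _)) hG
  have b5 : 1 ≤ G := le_trans (le_trans (le_trans (le_max_right _ _) (le_max_right _ _)) (le_max_right _ _)) hG
  have hz1 : 1 ≤ z := by omega
  obtain ⟨L, hLd⟩ : ∃ L, L = Real.log (G : ℝ) := ⟨_, rfl⟩
  have hL := hG4 G b4
  rw [← hLd] at hL
  have hL1 : 1 ≤ L := (le_max_left _ _).trans hL
  have hL2 : 4 / e ^ 2 ≤ L := (le_max_right _ _).trans hL
  have hL0 : 0 < L := by linarith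
  have hVzL := hG3 G b3 z hz1 hz
  rw [← hLd] at hVzL
  have hVz := Vz_pos z
  have hVz1 : 1 ≤ (Vz z)⁻¹ := by
    rw [one_le_inv₀ hVz]
    exact Vz_le_one z
  have hG0 : (0 : ℝ) < G := by exact_mod_cast (by omega : 0 < G)
  have hhK : (K : ℝ) ≤ h := le_trans (le_mul_of_one_le_right (Nat.cast_nonneg _) hVz1) hh
  have hh0 : (0 : ℝ) < h := by
    have : (1 : ℝ) ≤ K := by exact_mod_cast (by omega : 1 ≤ K)
    linarith
  have hsplit := Vz_split y z hyz
  have hVm := Vm_pos y z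
  -- the set `J`
  obtain ⟨J, hJ⟩ : ∃ J, J = (Icc 1 h).filter (fun j => ∀ p ∈ pz y, ¬ p ∣ u + j) := ⟨_, rfl⟩
  have hJs : J ⊆ Icc 1 h := by rw [hJ]; exact filter_subset _ _
  have hcop : ∀ a : ℕ, M.Coprime a ↔ ∀ p ∈ pz y, ¬ p ∣ a := by
    intro a
    rw [hMd]
    constructor
    · intro hc p hp hd
      have hp' := mem_pz.1 hp
      have h1 : p ∣ primorial y := hp'.2.dvd_primorial_iff.2 hp'.1
      have h2 := Nat.dvd_gcd h1 hd
      rw [hc] at h2
      exact hp'.2.one_lt.ne' (Nat.dvd_one.1 h2)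
    · intro hp
      by_contra hc
      obtain ⟨p, hpp, hd⟩ := Nat.exists_prime_and_dvd hc
      have h1 := hd.trans (Nat.gcd_dvd_left _ _)
      have h2 := hd.trans (Nat.gcd_dvd_right _ _)
      exact hp p (mem_pz.2 ⟨hpp.dvd_primorial_iff.1 h1, hpp⟩) h2
  obtain ⟨m, hm⟩ : ∃ m : ℝ, m = (J.card : ℝ) := ⟨_, rfl⟩
  have hJc : |m - h * Vz y| ≤ M := by
    have h1 := cop_cnt M hM1 (u + 1) h
    have h2 : ((Ico (u + 1) (u + 1 + h)).filter (fun a => M.Coprime a)).card = J.card := by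
      rw [hJ]
      symm
      apply card_bij (fun j _ => u + j)
      · intro j hj
        rw [mem_filter, mem_Icc] at hj
        rw [mem_filter, mem_Ico, hcop]
        exact ⟨by omega, hj.2⟩
      · intro a _ b _ hab
        have hab' : u + a = u + b := hab
        omega
      · intro a ha
        rw [mem_filter, mem_Ico, hcop] at ha
        refine ⟨a - u, ?_, by omega⟩
        rw [mem_filter, mem_Icc]
        have : u + (a - u) = a := by omega
        rw [this]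
        exact ⟨by omega, ha.2⟩
    rw [h2] at h1
    rw [hm, Vz_totient, ← hMd]
    exact h1
  obtain ⟨hJ1, hJ2⟩ := abs_le.1 hJc
  have hMh : 2 * M ≤ h * Vz y := by
    calc 2 * (M : ℝ) = (2 * M * y) * (1 / y) := by field_simp
      _ ≤ h * (1 / y) := by
          apply mul_le_mul_of_nonneg_right (hKM.trans hhK) (by positivity)
      _ ≤ h * Vz y := mul_le_mul_of_nonneg_left hVyy hh0.le
  have hmlow : h * Vz y / 2 ≤ m := by linarith
  have hm0 : 0 < m := by
    have : 0 < h * Vz y := by positivity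
    linarith
  have hmup : m ≤ 2 * (h * Vz y) := by linarith
  obtain ⟨V, hV⟩ : ∃ V, V = Vm y z := ⟨_, rfl⟩
  have hV0 : 0 < V := by rw [hV]; exact hVm
  have hV1 : V ≤ 1 := by rw [hV]; exact Vm_le y z
  obtain ⟨r, hr⟩ : ∃ r, r = G / L ^ 3 := ⟨_, rfl⟩
  have hr0 : 0 ≤ r := by rw [hr]; positivity
  have hMm : ∀ p ∈ mid y z, ¬ p ∣ M := fun p hp hd => by
    have hp' := mem_mid.1 hp
    rw [hMd, hp'.2.2.dvd_primorial_iff] at hd
    omega
  obtain ⟨P, hP⟩ : ∃ P : ℕ → ℕ → Prop, ∀ s g, P s g ↔ (∀ p ∈ mid y z, ¬ p ∣ (u + s) + M * g) := ⟨_, fun _ _ => Iff.rfl⟩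
  have c1 : ∀ s ∈ J, G * V - r ≤ (((Icc 1 G).filter (fun g => P s g)).card : ℝ) := by
    intro s hs
    have := hG1 G b1 z hz1 hz y M (u + s) hMm
    have e1 : (Icc 1 G).filter (fun g => P s g) = (Icc 1 G).filter (fun g => ∀ p ∈ mid y z, ¬ p ∣ (u + s) + M * g) := by
      ext g
      rw [mem_filter, mem_filter, hP]
    rw [e1, hV, hr, hLd]
    exact this
  have c2 : ∀ s ∈ J, ∀ t ∈ J.erase s, (((Icc 1 G).filter (fun g => P s g ∧ P t g)).card : ℝ) ≤
      G * (V ^ 2 * FF y z s t) + r := by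
    intro s hs t ht
    have := hG2 G b2 z hz1 hz y M (u + s) (u + t) (Nat.dist s t * (s + t)) hMm (by
      intro p hp g h1 h2
      apply Dvd.dvd.mul_right
      rcases Nat.le_total s t with hst | hst
      · have h3 := Nat.dvd_sub h2 h1
        have h4 : u + t + M * g - (u + s + M * g) = t - s := by omega
        rw [h4] at h3
        rwa [Nat.dist_eq_sub_of_le hst]
      · have h3 := Nat.dvd_sub h1 h2
        have h4 : u + s + M * g - (u + t + M * g) = s - t := by omega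
        rw [h4] at h3
        rwa [Nat.dist_eq_sub_of_le_right hst])
    have e1 : (Icc 1 G).filter (fun g => P s g ∧ P t g) = (Icc 1 G).filter (fun g => (∀ p ∈ mid y z, ¬ p ∣ (u + s) + M * g) ∧
        (∀ p ∈ mid y z, ¬ p ∣ (u + t) + M * g)) := by
      ext g
      rw [mem_filter, mem_filter, hP, hP]
    rw [e1, hV, hr, hLd]
    refine this.trans ?_
    have h5 : fd y z (Nat.dist s t * (s + t)) ≤ FF y z s t := fd_mul _ _ _ _
    have h6 : (G : ℝ) * (Vm y z ^ 2 * fd y z (Nat.dist s t * (s + t))) ≤ G * (Vm y z ^ 2 * FF y z s t) :=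
      mul_le_mul_of_nonneg_left (mul_le_mul_of_nonneg_left h5 (by positivity)) hG0.le
    linarith
  have c0 : ∀ s ∈ J, (((Icc 1 G).filter (fun g => P s g)).card : ℝ) ≤ G * V + r := by
    intro s hs
    have := hG2 G b2 z hz1 hz y M (u + s) (u + s) 0 hMm (fun p _ g _ _ => dvd_zero p)
    have e1 : (Icc 1 G).filter (fun g => (∀ p ∈ mid y z, ¬ p ∣ (u + s) + M * g) ∧
        (∀ p ∈ mid y z, ¬ p ∣ (u + s) + M * g)) = (Icc 1 G).filter (fun g => P s g) := by
      ext g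
      rw [mem_filter, mem_filter, hP]
      tauto
    rw [e1] at this
    have e2 : Vm y z ^ 2 * fd y z 0 = V := by
      have e3 : fd y z 0 = (Vm y z)⁻¹ := by
        unfold fd Vm
        rw [← prod_inv_distrib]
        apply prod_congr _ fun _ _ => rfl
        apply filter_true_of_mem
        intro p _
        exact dvd_zero p
      rw [e3, ← hV]
      field_simp
    rw [e2, ← hLd, ← hr] at this
    exact this
  have c3 : ∀ s ∈ J, ∑ t ∈ J.erase s, FF y z s t ≤ (1 + η) * m := fun s hs => by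
    rw [hm]
    apply FF_sum y z n h hy1 (by omega) J hJs η hη0 _ s hs
    have h1 : 4 * (h : ℝ) ≤ 8 * y * m := by
      have h2 : (h : ℝ) = y * (h * (1 / y)) := by field_simp
      have h3 : (h : ℝ) * (1 / y) ≤ 2 * m := by
        have := mul_le_mul_of_nonneg_left hVyy hh0.le
        linarith
      calc 4 * (h : ℝ) = 4 * (y * (h * (1 / y))) := by rw [← h2]
        _ ≤ 4 * (y * (2 * m)) := by gcongr
        _ = _ := by ring
    rw [← hm]
    refine h1.trans ?_
    rw [hy]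
    exact mul_le_mul_of_nonneg_right hn hm0.le
  have key := var_bound J (Icc 1 G) P V η r m G (FF y z) hV0 hV1 hm.symm (by simp) hr0 c0 c1 c2 c3
  -- sizes
  have hmV : 0 < m * V := by positivity
  have k1 : m * G * V ≤ e ^ 2 * (G * (m * V) ^ 2) := by
    have h1 : 1 ≤ e ^ 2 * (m * V) := by
      have h2 : (h : ℝ) * Vz z / 2 ≤ m * V := by
        rw [hsplit, hV]
        have := mul_le_mul_of_nonneg_right hmlow hVm.le
        linarith
      have h3 : (K : ℝ) ≤ h * Vz z := by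
        rw [← div_eq_mul_inv, div_le_iff₀ hVz] at hh
        exact hh
      have h4 : 2 / e ^ 2 ≤ h * Vz z := hKe2.trans h3
      rw [div_le_iff₀ (by positivity)] at h4
      have h5 := mul_le_mul_of_nonneg_left h2 (show 0 ≤ e ^ 2 by positivity)
      linarith
    calc m * G * V = (G * (m * V)) * 1 := by ring
      _ ≤ (G * (m * V)) * (e ^ 2 * (m * V)) := mul_le_mul_of_nonneg_left h1 (by positivity)
      _ = _ := by ring
  have k2 : 4 * (m ^ 2 * r) ≤ e ^ 2 * (G * (m * V) ^ 2) := by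
    have h1 : 1 / L ≤ V := by
      have h2 : Vz z ≤ V := by
        rw [hsplit, ← hV]
        exact mul_le_of_le_one_left hV0.le (Vz_le_one y)
      have h3 : L⁻¹ ≤ Vz z := by
        rw [inv_le_comm₀ hL0 hVz]
        exact hVzL
      rw [one_div]
      exact h3.trans h2
    have h2 : 1 / L ^ 2 ≤ V ^ 2 := by
      have := pow_le_pow_left₀ (by positivity) h1 2
      rwa [div_pow, one_pow] at this
    have h3 : 4 / L ≤ e ^ 2 := by
      rw [div_le_iff₀ (by positivity)] at hL2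
      rw [div_le_iff₀ hL0]
      linarith
    rw [hr]
    calc 4 * (m ^ 2 * (G / L ^ 3)) = (4 / L) * (G * m ^ 2 * (1 / L ^ 2)) := by field_simp
      _ ≤ e ^ 2 * (G * m ^ 2 * V ^ 2) := by gcongr
      _ = _ := by ring
  have k3 : ∑ g ∈ Icc 1 G, |((J.filter (fun s => P s g)).card : ℝ) - m * V| ≤ 2 * e * (G * (m * V)) := by
    apply l1_of_l2 _ _ _ (by positivity)
    have h1 : (((Icc 1 G).card : ℕ) : ℝ) = G := by simp
    rw [h1]
    have h2 : η * (G * (m * V) ^ 2) = e ^ 2 * (G * (m * V) ^ 2) := by rw [hη]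
    calc (G : ℝ) * ∑ g ∈ Icc 1 G, (((J.filter (fun s => P s g)).card : ℝ) - m * V) ^ 2
        ≤ G * (3 * (e ^ 2 * (G * (m * V) ^ 2))) := by
          apply mul_le_mul_of_nonneg_left _ hG0.le
          linarith
      _ ≤ G * (4 * (e ^ 2 * (G * (m * V) ^ 2))) := by
          apply mul_le_mul_of_nonneg_left _ hG0.le
          have : 0 ≤ e ^ 2 * (G * (m * V) ^ 2) := by positivity
          linarith
      _ = (2 * e * (G * (m * V))) ^ 2 := by ring
  have k4 : |m * (Vz y)⁻¹ - h| ≤ e * h := by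
    have h1 : m * (Vz y)⁻¹ - h = (m - h * Vz y) * (Vz y)⁻¹ := by
      field_simp
    rw [h1, abs_mul, abs_of_pos (inv_pos.2 hVy)]
    have h2 : (Vz y)⁻¹ ≤ y := Vz_inv_le y hy1
    calc |m - h * Vz y| * (Vz y)⁻¹ ≤ M * y := mul_le_mul hJc h2 (inv_pos.2 hVy).le hM0.le
      _ = e * (M * y / e) := by field_simp
      _ ≤ e * h := mul_le_mul_of_nonneg_left (hKe.trans hhK) he0.le
  have k5 : ∀ g ∈ Icc 1 G, |∑ j ∈ Icc 1 h, lamz z (u + M * g + j) - h| ≤
      (Vz z)⁻¹ * |((J.filter (fun s => P s g)).card : ℝ) - m * V| + e * h := by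
    intro g _
    rw [lamz_sum y z u h M g hyz (fun p hp => by
      have hp' := mem_pz.1 hp
      rw [hMd]
      exact hp'.2.dvd_primorial_iff.2 hp'.1)]
    have e1 : ((Icc 1 h).filter (fun j => ∀ p ∈ pz y, ¬ p ∣ u + j)).filter (fun j => ∀ p ∈ mid y z, ¬ p ∣ (u + j) + M * g) =
        J.filter (fun s => P s g) := by
      rw [← hJ]
      ext s
      rw [mem_filter, mem_filter, hP]
    rw [e1]
    have e2 : (Vz z)⁻¹ * ((J.filter (fun s => P s g)).card : ℝ) - h =
        (Vz z)⁻¹ * (((J.filter (fun s => P s g)).card : ℝ) - m * V) + (m * (Vz y)⁻¹ - h) := by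
      have e3 : (Vz z)⁻¹ * (m * V) = m * (Vz y)⁻¹ := by
        rw [hsplit, ← hV, mul_inv]
        field_simp
      rw [mul_sub, e3]
      ring
    rw [e2]
    refine (abs_add_le _ _).trans ?_
    rw [abs_mul, abs_of_pos (inv_pos.2 hVz)]
    linarith
  rw [← hMd]
  refine (sum_le_sum k5).trans ?_
  rw [sum_add_distrib, ← mul_sum, sum_const, Nat.card_Icc, nsmul_eq_mul, Nat.add_sub_cancel]
  have k6 : (Vz z)⁻¹ * ∑ g ∈ Icc 1 G, |((J.filter (fun s => P s g)).card : ℝ) - m * V| ≤ 4 * e * (h * G) := by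
    calc (Vz z)⁻¹ * ∑ g ∈ Icc 1 G, |((J.filter (fun s => P s g)).card : ℝ) - m * V|
        ≤ (Vz z)⁻¹ * (2 * e * (G * (m * V))) := mul_le_mul_of_nonneg_left k3 (inv_pos.2 hVz).le
      _ = 2 * e * G * (m * (Vz y)⁻¹) := by
          rw [hsplit, ← hV, mul_inv]
          field_simp
      _ ≤ 2 * e * G * (2 * h) := by
          apply mul_le_mul_of_nonneg_left _ (by positivity)
          rw [← div_eq_mul_inv, div_le_iff₀ hVy]
          linarith
      _ = _ := by ring
  calc (Vz z)⁻¹ * ∑ g ∈ Icc 1 G, |((J.filter (fun s => P s g)).card : ℝ) - m * V| + G * (e * h)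
      ≤ 4 * e * (h * G) + G * (e * h) := by linarith
    _ = 5 * e * (h * G) := by ring
    _ ≤ ε * (h * G) := by
        apply mul_le_mul_of_nonneg_right _ (by positivity)
        rw [he]
        linarith

end Pool.Agent.V5helper54.RI
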