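import Pool.Agent.V5helper54.RI.Int

/-! # Integers without small prime factors in very short intervals: all starting points in a window -/

set_option autoImplicit false

namespace Pool.Agent.V5helper54.RI

open Finset
open Pool.Agent.H373R2.T7
open Pool.Agent.Y877.SX

/-- splitting a window into residue classes -/
lemma class_split (M G H : ℕ) (hM : 1 ≤ M) (hG : G = H / M) (F : ℕ → ℝ) (hF : ∀ g, 0 ≤ F g) :
    ∑ g ∈ Icc 1 H, F g ≤ ∑ g ∈ Icc 1 M, F g + ∑ c ∈ Icc 1 M, ∑ g ∈ Icc 1 G, F (c + M * g) := by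
  classical
  have h1 : Icc 1 H ⊆ Icc 1 M ∪ (Icc 1 M ×ˢ Icc 1 G).image (fun q => q.1 + M * q.2) := by
    intro g hg
    rw [mem_Icc] at hg
    rw [mem_union, mem_image]
    by_cases hgM : g ≤ M
    · exact Or.inl (mem_Icc.2 ⟨hg.1, hgM⟩)
    · right
      refine ⟨((g - 1) % M + 1, (g - 1) / M), ?_, ?_⟩
      · rw [mem_product, mem_Icc, mem_Icc]
        have h2 : (g - 1) % M < M := Nat.mod_lt _ (by omega)
        refine ⟨⟨by dsimp only; omega, by dsimp only; omega⟩, ?_, ?_⟩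
        · dsimp only
          rw [Nat.one_le_div_iff (by omega)]
          omega
        · dsimp only
          rw [hG]
          exact Nat.div_le_div_right (by omega)
      · have := Nat.mod_add_div (g - 1) M
        dsimp only
        omega
  refine (sum_le_sum_of_subset_of_nonneg h1 fun _ _ _ => hF _).trans ?_
  have h2 := sum_union_inter (s₁ := Icc 1 M) (s₂ := (Icc 1 M ×ˢ Icc 1 G).image (fun q => q.1 + M * q.2)) (f := F)
  have h3 : 0 ≤ ∑ g ∈ Icc 1 M ∩ (Icc 1 M ×ˢ Icc 1 G).image (fun q => q.1 + M * q.2), F g :=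
    sum_nonneg fun _ _ => hF _
  have h4 : ∑ g ∈ (Icc 1 M ×ˢ Icc 1 G).image (fun q => q.1 + M * q.2), F g =
      ∑ c ∈ Icc 1 M, ∑ g ∈ Icc 1 G, F (c + M * g) := by
    rw [sum_image, sum_product]
    intro a ha b hb hab
    rw [mem_coe, mem_product, mem_Icc, mem_Icc] at ha hb
    have hab' : a.1 + M * a.2 = b.1 + M * b.2 := hab
    have e1 : a.2 = b.2 := by
      rcases Nat.lt_trichotomy a.2 b.2 with h | h | h
      · exfalso
        have : M * (a.2 + 1) ≤ M * b.2 := Nat.mul_le_mul_left M h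
        rw [mul_add, mul_one] at this
        omega
      · exact h
      · exfalso
        have : M * (b.2 + 1) ≤ M * a.2 := Nat.mul_le_mul_left M h
        rw [mul_add, mul_one] at this
        omega
    rw [e1] at hab'
    exact Prod.ext (by omega) e1
  rw [h4] at h2
  linarith

theorem rough_int (ε : ℝ) (hε : 0 < ε) : ∃ K : ℕ, 1 ≤ K ∧ ∀ E : ℕ, ∃ H0 : ℕ, ∀ H : ℕ, H0 ≤ H → ∀ z : ℕ, K ≤ z →
    (z : ℝ) ≤ Real.log H ^ E → ∀ h v : ℕ, K * (Vz z)⁻¹ ≤ h →
    ∑ g ∈ Icc 1 H, |∑ j ∈ Icc 1 h, lamz z (v + g + j) - h| ≤ ε * (h * H) := by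
  obtain ⟨K, y, hK1, hy1, hyK, hcl⟩ := rough_class (ε / 2) (by positivity)
  refine ⟨K, hK1, fun E => ?_⟩
  obtain ⟨G0, hG0⟩ := hcl (2 * E)
  obtain ⟨H1, hH1⟩ := Vz_inv_small E
  obtain ⟨M, hMd⟩ : ∃ M, M = primorial y := ⟨_, rfl⟩
  have hM1 : 1 ≤ M := by rw [hMd]; exact primorial_pos y
  have hM0 : (0 : ℝ) < M := by exact_mod_cast hM1
  have hlim : Filter.Tendsto (fun N : ℕ => Real.log (N : ℝ)) Filter.atTop Filter.atTop :=
    Real.tendsto_log_atTop.comp (tendsto_natCast_atTop_atTop (R := ℝ))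
  obtain ⟨H2, hH2⟩ := Filter.eventually_atTop.1 (hlim.eventually_ge_atTop 4)
  have h3 : ∀ᶠ N : ℕ in Filter.atTop, 2 * M * Real.log (N : ℝ) ≤ ε / 2 * N := by
    have h4 := (Real.isLittleO_log_id_atTop).bound (show (0 : ℝ) < ε / (4 * M) by positivity)
    have h5 := (tendsto_natCast_atTop_atTop (R := ℝ)).eventually h4
    filter_upwards [h5, Filter.eventually_ge_atTop 1] with N h6 h7
    have h8 : (1 : ℝ) ≤ N := by exact_mod_cast h7
    simp only [id] at h6
    rw [Real.norm_of_nonneg (Real.log_nonneg h8), Real.norm_of_nonneg (by linarith)] at h6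
    have h9 := mul_le_mul_of_nonneg_left h6 (show 0 ≤ 2 * (M : ℝ) by positivity)
    refine h9.trans (le_of_eq ?_)
    field_simp
    ring
  obtain ⟨H3, hH3⟩ := Filter.eventually_atTop.1 h3
  refine ⟨max (max (M * (G0 + 1)) H1) (max H2 (max H3 (16 * M ^ 2))), fun H hH z hz1 hz h v hh => ?_⟩
  have b1 : M * (G0 + 1) ≤ H := le_trans (le_trans (le_max_left _ _) (le_max_left _ _)) hH
  have b2 : H1 ≤ H := le_trans (le_trans (le_max_right _ _) (le_max_left _ _)) hH
  have b3 : H2 ≤ H := le_trans (le_trans (le_max_left _ _) (le_max_right _ _)) hH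
  have b4 : H3 ≤ H := le_trans (le_trans (le_trans (le_max_left _ _) (le_max_right _ _)) (le_max_right _ _)) hH
  have b5 : 16 * M ^ 2 ≤ H := le_trans (le_trans (le_trans (le_max_right _ _) (le_max_right _ _)) (le_max_right _ _)) hH
  have hHr : (0 : ℝ) < H := by
    have : 0 < 16 * M ^ 2 := by positivity
    exact_mod_cast (by omega : 0 < H)
  have hlH := hH2 H b3
  obtain ⟨G, hG⟩ : ∃ G, G = H / M := ⟨_, rfl⟩
  have hGG : G0 ≤ G := by
    rw [hG, Nat.le_div_iff_mul_le (by omega)]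
    have : M * (G0 + 1) = G0 * M + M := by ring
    omega
  have hMG : G * M ≤ H := by rw [hG]; exact Nat.div_mul_le_self H M
  have hsq : √(H : ℝ) ≤ G := by
    have h5 : H < (G + 1) * M := by rw [hG]; exact Nat.lt_mul_of_div_lt (Nat.lt_succ_self _) (by omega)
    have h5' : (H : ℝ) < (G + 1) * M := by exact_mod_cast h5
    have h6 : 4 * (M : ℝ) ≤ √(H : ℝ) := by
      apply Real.le_sqrt_of_sq_le
      have : (4 * (M : ℝ)) ^ 2 = ((16 * M ^ 2 : ℕ) : ℝ) := by push_cast; ring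
      rw [this]
      exact_mod_cast b5
    have h7 : √(H : ℝ) * √(H : ℝ) = H := Real.mul_self_sqrt hHr.le
    have h8 : (1 : ℝ) ≤ M := by exact_mod_cast hM1
    by_contra hcon
    push Not at hcon
    nlinarith
  have hG00 : (0 : ℝ) < G := lt_of_lt_of_le (Real.sqrt_pos.2 hHr) hsq
  have hlG : Real.log H / 2 ≤ Real.log G := by
    have := Real.log_le_log (Real.sqrt_pos.2 hHr) hsq
    rwa [Real.log_sqrt hHr.le] at this
  have hzG : (z : ℝ) ≤ Real.log G ^ (2 * E) := by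
    refine hz.trans ?_
    rw [pow_mul]
    apply pow_le_pow_left₀ (by linarith)
    nlinarith
  have hVz := Vz_pos z
  have hVz1 : 1 ≤ (Vz z)⁻¹ := by
    rw [one_le_inv₀ hVz]
    exact Vz_le_one z
  have hVL := hH1 H b2 z (by omega) hz
  have hh0 : (0 : ℝ) ≤ h := Nat.cast_nonneg h
  refine (class_split M G H hM1 hG (fun g => |∑ j ∈ Icc 1 h, lamz z (v + g + j) - h|) fun _ => abs_nonneg _).trans ?_
  have k1 : ∑ g ∈ Icc 1 M, |∑ j ∈ Icc 1 h, lamz z (v + g + j) - h| ≤ ε / 2 * (h * H) := by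
    have h5 : ∀ g ∈ Icc 1 M, |∑ j ∈ Icc 1 h, lamz z (v + g + j) - h| ≤ h * (2 * Real.log H) := by
      intro g _
      have h6 : ∑ j ∈ Icc 1 h, lamz z (v + g + j) ≤ h * (Vz z)⁻¹ := by
        refine (sum_le_sum fun j _ => lamz_le z (v + g + j)).trans ?_
        rw [sum_const, Nat.card_Icc, nsmul_eq_mul, Nat.add_sub_cancel]
      have h7 : 0 ≤ ∑ j ∈ Icc 1 h, lamz z (v + g + j) := sum_nonneg fun _ _ => lamz_nonneg _ _
      have h8 : (h : ℝ) * (Vz z)⁻¹ ≤ h * Real.log H := mul_le_mul_of_nonneg_left hVL hh0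
      have h9 : (h : ℝ) * 1 ≤ h * Real.log H := mul_le_mul_of_nonneg_left (by linarith) hh0
      rw [abs_le]
      constructor <;> linarith
    refine (sum_le_sum h5).trans ?_
    rw [sum_const, Nat.card_Icc, nsmul_eq_mul, Nat.add_sub_cancel]
    have h6 := mul_le_mul_of_nonneg_left (hH3 H b4) hh0
    calc (M : ℝ) * (h * (2 * Real.log H)) = h * (2 * M * Real.log H) := by ring
      _ ≤ h * (ε / 2 * H) := h6
      _ = _ := by ring
  have k2 : ∑ c ∈ Icc 1 M, ∑ g ∈ Icc 1 G, |∑ j ∈ Icc 1 h, lamz z (v + (c + M * g) + j) - h| ≤ ε / 2 * (h * H) := by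
    have h5 : ∀ c ∈ Icc 1 M, ∑ g ∈ Icc 1 G, |∑ j ∈ Icc 1 h, lamz z (v + (c + M * g) + j) - h| ≤ ε / 2 * (h * G) := by
      intro c _
      have h6 := hG0 G hGG z (by omega) hzG h (v + c) hh
      rw [← hMd] at h6
      refine le_trans (le_of_eq ?_) h6
      apply sum_congr rfl
      intro g _
      have h7 : ∀ j, v + (c + M * g) + j = v + c + M * g + j := fun j => by ring
      simp only [h7]
    refine (sum_le_sum h5).trans ?_
    rw [sum_const, Nat.card_Icc, nsmul_eq_mul, Nat.add_sub_cancel]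
    have h6 : (G : ℝ) * M ≤ H := by exact_mod_cast hMG
    calc (M : ℝ) * (ε / 2 * (h * G)) = ε / 2 * (h * (G * M)) := by ring
      _ ≤ ε / 2 * (h * H) := by gcongr
  linarith

end Pool.Agent.V5helper54.RI
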