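import Pool.Agent.V5helper54.RI.One

/-! # From prime powers to the normalised number of primes, for one translation -/

set_option autoImplicit false

namespace Pool.Agent.V5helper54.RI

open Finset Filter

/-- sums of prime powers -/
noncomputable def Psi (n v : ℕ) : ℝ := ∑ j ∈ Icc 1 v, ArithmeticFunction.vonMangoldt (n + j)

theorem key_ineq (A U x : ℕ) (L : ℝ) (hLd : L = Real.log x) (hL9 : 9 ≤ L) (hxr : (16 : ℝ) ≤ x)
    (hLp : L ^ (A + U + 10) ≤ (x : ℝ) ^ (1 / 2 : ℝ)) (g : ℕ → ℝ) (hg : ∀ s ∈ Icc 1 x, 0 ≤ g s ∧ g s ≤ L ^ A)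
    (h : ℕ → ℝ) (hh : ∀ n, 0 ≤ h n) (u δ : ℝ) (hδ0 : 0 < δ) (hδ1 : δ ≤ 1 / 8) (hu0 : 0 < u) (huδ : 1 ≤ δ * u)
    (hux : 2 * u ≤ x)
    (hgood : ∀ n : ℕ, n ≤ 2 * x → x / L ^ (A + U + 4) ≤ n → 1 ≤ n ∧ (1 - δ) * u ≤ h n ∧ h n ≤ (1 + δ) * u ∧ h n ≤ n ∧
      Real.log 2 ≤ δ * Real.log n) (hp hm : ℕ) (hhp : hp = ⌊(1 + δ) * u⌋₊) (hhm : hm = ⌊(1 - δ) * u⌋₊) (t : ℕ) (htx : t ≤ x) :
    |∑ s ∈ Icc 1 x, g s * ratio h (s + t) - ∑ s ∈ Icc 1 x, g s| ≤ 4 * δ * (∑ s ∈ Icc 1 x, g s) +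
      2 / u * |∑ s ∈ Icc 1 x, g s * (Psi (s + t) hp - hp)| + 1 / u * |∑ s ∈ Icc 1 x, g s * (Psi (s + t) hm - hm)| +
      2 * (x / L ^ (U + 1)) := by
  obtain ⟨C, hC⟩ : ∃ C, C = A + U + 4 := ⟨_, rfl⟩
  rw [← hC] at hgood
  obtain ⟨G, hG⟩ : ∃ G, G = ∑ s ∈ Icc 1 x, g s := ⟨_, rfl⟩
  rw [← hG]
  have hx0 : (0 : ℝ) < x := by linarith
  have hL0 : 0 < L := by linarith
  have hL1 : 1 ≤ L := by linarith
  have hl2 : Real.log 2 ≤ 1 := by
    have := Real.log_two_lt_d9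
    linarith
  have hl4x : Real.log ((4 * x : ℕ) : ℝ) ≤ 2 * L := by
    push_cast
    rw [Real.log_mul (by norm_num) hx0.ne', ← hLd, show (4 : ℝ) = 2 ^ 2 by norm_num, Real.log_pow]
    push_cast
    linarith
  have hp1 : (hp : ℝ) ≤ (1 + δ) * u := by rw [hhp]; exact Nat.floor_le (by positivity)
  have hm2 : (1 - δ) * u < hm + 1 := by rw [hhm]; exact Nat.lt_floor_add_one _
  have hm1 : (hm : ℝ) ≤ (1 - δ) * u := by rw [hhm]; exact Nat.floor_le (mul_nonneg (by linarith) hu0.le)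
  have hmu : (1 - 2 * δ) * u ≤ hm := by linarith
  have hmu' : (hm : ℝ) ≤ u := by nlinarith
  have hmx : hm ≤ x := by
    have : (hm : ℝ) ≤ x := by linarith
    exact_mod_cast this
  obtain ⟨X, hX⟩ : ∃ X : ℝ, X = x / L ^ C := ⟨_, rfl⟩
  have hX0 : 0 ≤ X := by rw [hX]; positivity
  rw [← hX] at hgood
  have hxs : (x : ℝ) ^ (1 / 2 : ℝ) * (x : ℝ) ^ (1 / 2 : ℝ) = x := by
    rw [← Real.rpow_add hx0]
    norm_num
  have hG0 : 0 ≤ G := by rw [hG]; exact sum_nonneg fun s hs => (hg s hs).1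
  obtain ⟨Ψ, hΨ'⟩ : ∃ Ψ : ℕ → ℕ → ℝ, Ψ = Psi := ⟨_, rfl⟩
  rw [← hΨ']
  have hΨ : Ψ = fun n v => ∑ j ∈ Icc 1 v, ArithmeticFunction.vonMangoldt (n + j) := by
    rw [hΨ']
    rfl
  obtain ⟨Q, hQ⟩ : ∃ Q : ℕ → ℕ → ℝ, Q = fun n v => ∑ j ∈ Icc 1 v, (if (n + j).Prime then (0 : ℝ) else
    ArithmeticFunction.vonMangoldt (n + j)) := ⟨_, rfl⟩
  have hΨ0 : ∀ n v, 0 ≤ Ψ n v := fun n v => by
    rw [hΨ]
    exact sum_nonneg fun _ _ => ArithmeticFunction.vonMangoldt_nonneg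
  have hQ0 : ∀ n v, 0 ≤ Q n v := fun n v => by
    rw [hQ]
    apply sum_nonneg
    intro j _
    split_ifs
    · exact le_rfl
    · exact ArithmeticFunction.vonMangoldt_nonneg
  have hQΨ : ∀ n v, Q n v ≤ Ψ n v := fun n v => by
    rw [hQ, hΨ]
    apply sum_le_sum
    intro j _
    split_ifs
    · exact ArithmeticFunction.vonMangoldt_nonneg
    · exact le_rfl
  have hXA : X * L ^ A * (2 * L) ≤ x / L ^ (U + 1) := by
    rw [hX, hC]
    have e1 : (x : ℝ) / L ^ (A + U + 4) * L ^ A * (2 * L) = (x / L ^ (U + 1)) * (2 / L ^ 2) := by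
      rw [pow_add, pow_add, pow_add]
      field_simp
    rw [e1]
    apply mul_le_of_le_one_right (by positivity)
    rw [div_le_one (by positivity)]
    nlinarith
  -- prime powers
  have hPS : L ^ A * (2 * √((4 * x : ℕ) : ℝ) * Real.log ((4 * x : ℕ) : ℝ)) ≤ x / L ^ (U + 1) := by
    have e1 : √((4 * x : ℕ) : ℝ) = 2 * (x : ℝ) ^ (1 / 2 : ℝ) := by
      rw [← Real.sqrt_eq_rpow]
      push_cast
      rw [Real.sqrt_mul (by norm_num), show (4 : ℝ) = 2 ^ 2 by norm_num, Real.sqrt_sq (by norm_num)]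
    rw [e1, le_div_iff₀ (by positivity)]
    calc L ^ A * (2 * (2 * (x : ℝ) ^ (1 / 2 : ℝ)) * Real.log ((4 * x : ℕ) : ℝ)) * L ^ (U + 1)
        ≤ L ^ A * (2 * (2 * (x : ℝ) ^ (1 / 2 : ℝ)) * (2 * L)) * L ^ (U + 1) := by gcongr
      _ = (x : ℝ) ^ (1 / 2 : ℝ) * (8 * L ^ (A + U + 2)) := by
          rw [show A + U + 2 = A + 1 + (U + 1) by ring, pow_add, pow_add, pow_one]
          ring
      _ ≤ (x : ℝ) ^ (1 / 2 : ℝ) * L ^ (A + U + 10) := by
          have h1 : L ^ (A + U + 10) = L ^ (A + U + 2) * L ^ 8 := by rw [← pow_add]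
          have h2 : 8 ≤ L ^ 8 := by
            have : L ^ 1 ≤ L ^ 8 := pow_le_pow_right₀ hL1 (by norm_num)
            rw [pow_one] at this
            linarith
          rw [h1]
          have h3 : 0 < L ^ (A + U + 2) := by positivity
          have h4 : 0 < (x : ℝ) ^ (1 / 2 : ℝ) := by positivity
          nlinarith [mul_le_mul_of_nonneg_left h2 h3.le]
      _ ≤ (x : ℝ) ^ (1 / 2 : ℝ) * (x : ℝ) ^ (1 / 2 : ℝ) := by gcongr
      _ = x := hxs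
  have hgL : ∀ s ∈ Icc 1 x, g s ≤ L ^ A := fun s hs => (hg s hs).2
  obtain ⟨Bd, hBd⟩ : ∃ Bd, Bd = (Icc 1 x).filter (fun s => ((s + t : ℕ) : ℝ) < X) := ⟨_, rfl⟩
  obtain ⟨Gd, hGd⟩ : ∃ Gd, Gd = (Icc 1 x).filter (fun s => ¬ ((s + t : ℕ) : ℝ) < X) := ⟨_, rfl⟩
  have hBdc : (Bd.card : ℝ) ≤ X := by rw [hBd]; exact few_small x t X hX0
  have hBds : Bd ⊆ Icc 1 x := by rw [hBd]; exact filter_subset _ _
  have hGds : Gd ⊆ Icc 1 x := by rw [hGd]; exact filter_subset _ _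
  have hsplit : ∀ f : ℕ → ℝ, ∑ s ∈ Icc 1 x, f s = ∑ s ∈ Bd, f s + ∑ s ∈ Gd, f s := by
    intro f
    rw [hBd, hGd]
    exact (sum_filter_add_sum_filter_not _ _ _).symm
  have hst : ∀ s ∈ Icc 1 x, 1 ≤ s + t ∧ s + t ≤ 2 * x := by
    intro s hs
    rw [mem_Icc] at hs
    omega
  have hgd : ∀ s ∈ Gd, X ≤ ((s + t : ℕ) : ℝ) := by
    intro s hs
    rw [hGd, mem_filter] at hs
    exact not_lt.1 hs.2
  have hlogst : ∀ s ∈ Icc 1 x, Real.log ((s + t : ℕ) : ℝ) ≤ 2 * L := by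
    intro s hs
    have h1 := hst s hs
    refine le_trans (Real.log_le_log (by exact_mod_cast h1.1) ?_) hl4x
    exact_mod_cast (by omega : s + t ≤ 4 * x)
  -- sums over the bad set
  have hbad1 : ∑ s ∈ Bd, g s * ratio h (s + t) ≤ X * L ^ A * (2 * L) := by
    have h1 : ∀ s ∈ Bd, g s * ratio h (s + t) ≤ L ^ A * (2 * L) := by
      intro s hs
      exact mul_le_mul (hgL s (hBds hs)) ((ratio_le_log h hh _).trans (hlogst s (hBds hs))) (ratio_nonneg h hh _)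
        (by positivity)
    refine (sum_le_sum h1).trans ?_
    rw [sum_const, nsmul_eq_mul, mul_assoc X]
    exact mul_le_mul_of_nonneg_right hBdc (by positivity)
  have hbad2 : ∑ s ∈ Bd, g s * Ψ (s + t) hm ≤ hm * (X * L ^ A * (2 * L)) := by
    have h1 : ∀ s ∈ Bd, g s * Ψ (s + t) hm ≤ L ^ A * (hm * (2 * L)) := by
      intro s hs
      apply mul_le_mul (hgL s (hBds hs)) _ (hΨ0 _ _) (by positivity)
      rw [hΨ]
      simp only
      have h2 : ∀ j ∈ Icc 1 hm, ArithmeticFunction.vonMangoldt (s + t + j) ≤ 2 * L := by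
        intro j hj
        rw [mem_Icc] at hj
        have h3 := hst s (hBds hs)
        refine ArithmeticFunction.vonMangoldt_le_log.trans (le_trans (Real.log_le_log ?_ ?_) hl4x)
        · exact_mod_cast (by omega : 0 < s + t + j)
        · exact_mod_cast (by omega : s + t + j ≤ 4 * x)
      refine (sum_le_sum h2).trans ?_
      rw [sum_const, Nat.card_Icc, nsmul_eq_mul, Nat.add_sub_cancel]
    refine (sum_le_sum h1).trans ?_
    rw [sum_const, nsmul_eq_mul]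
    calc (Bd.card : ℝ) * (L ^ A * (hm * (2 * L))) ≤ X * (L ^ A * (hm * (2 * L))) :=
          mul_le_mul_of_nonneg_right hBdc (by positivity)
      _ = _ := by ring
  -- prime powers
  have hpp : ∑ s ∈ Icc 1 x, g s * Q (s + t) hm ≤ hm * (L ^ A * (2 * √((4 * x : ℕ) : ℝ) * Real.log ((4 * x : ℕ) : ℝ))) := by
    have h1 : ∀ s ∈ Icc 1 x, g s * Q (s + t) hm ≤ L ^ A * Q (s + t) hm := fun s hs =>
      mul_le_mul_of_nonneg_right (hgL s hs) (hQ0 _ _)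
    refine (sum_le_sum h1).trans ?_
    rw [← mul_sum, hQ]
    simp only
    rw [sum_comm]
    have h2 : ∀ j ∈ Icc 1 hm, ∑ s ∈ Icc 1 x, (if (s + t + j).Prime then (0 : ℝ) else
        ArithmeticFunction.vonMangoldt (s + t + j)) ≤ 2 * √((4 * x : ℕ) : ℝ) * Real.log ((4 * x : ℕ) : ℝ) := by
      intro j hj
      rw [mem_Icc] at hj
      have h3 := pp_plus x (4 * x) (t + j) (by omega) (by omega)
      refine le_trans (le_of_eq ?_) h3
      apply sum_congr rfl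
      intro s _
      rw [add_assoc]
    have h3 := sum_le_sum h2
    rw [sum_const, Nat.card_Icc, nsmul_eq_mul, Nat.add_sub_cancel] at h3
    calc L ^ A * ∑ j ∈ Icc 1 hm, ∑ s ∈ Icc 1 x, (if (s + t + j).Prime then (0 : ℝ) else
        ArithmeticFunction.vonMangoldt (s + t + j)) ≤ L ^ A * (hm * (2 * √((4 * x : ℕ) : ℝ) * Real.log ((4 * x : ℕ) : ℝ))) := by
          gcongr
      _ = _ := by ring
  -- upper bound
  have up : ∑ s ∈ Icc 1 x, g s * ratio h (s + t) ≤ x / L ^ (U + 1) + (1 + 3 * δ) * G +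
      2 / u * |∑ s ∈ Icc 1 x, g s * (Ψ (s + t) hp - hp)| := by
    have h1 : ∑ s ∈ Gd, g s * ratio h (s + t) ≤ ∑ s ∈ Icc 1 x, g s * (Ψ (s + t) hp / ((1 - δ) * u)) := by
      have q1 : ∑ s ∈ Gd, g s * ratio h (s + t) ≤ ∑ s ∈ Gd, g s * (Ψ (s + t) hp / ((1 - δ) * u)) := by
        apply sum_le_sum
        intro s hs
        obtain ⟨g1, g2, g3, g4, g5⟩ := hgood (s + t) (hst s (hGds hs)).2 (hgd s hs)
        apply mul_le_mul_of_nonneg_left _ (hg s (hGds hs)).1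
        rw [hΨ]
        exact ratio_upper h hh (s + t) hp u δ g1 hu0 (by linarith) g2 (by rw [hhp]; exact Nat.floor_le_floor g3)
      refine q1.trans (sum_le_sum_of_subset_of_nonneg hGds fun s hs _ => ?_)
      exact mul_nonneg (hg s hs).1 (div_nonneg (hΨ0 _ _) (mul_nonneg (by linarith) hu0.le))
    have h2 : ∑ s ∈ Icc 1 x, g s * (Ψ (s + t) hp / ((1 - δ) * u)) =
        (hp * G + ∑ s ∈ Icc 1 x, g s * (Ψ (s + t) hp - hp)) / ((1 - δ) * u) := by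
      rw [hG, mul_sum, ← sum_add_distrib, sum_div]
      apply sum_congr rfl
      intro s _
      ring
    obtain ⟨E, hE⟩ : ∃ E, E = ∑ s ∈ Icc 1 x, g s * (Ψ (s + t) hp - hp) := ⟨_, rfl⟩
    rw [← hE] at h2 ⊢
    have h3 := up_ineq δ u G E hp hδ0 hδ1 hu0 hG0 hp1
    rw [hsplit]
    linarith
  -- lower bound
  have lo : (1 - 4 * δ) * G - 1 / u * |∑ s ∈ Icc 1 x, g s * (Ψ (s + t) hm - hm)| - 2 * (x / L ^ (U + 1)) ≤
      ∑ s ∈ Icc 1 x, g s * ratio h (s + t) := by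
    have hd : 0 < (1 + δ) ^ 2 * u := by positivity
    have h1 : ∑ s ∈ Gd, g s * ((Ψ (s + t) hm - Q (s + t) hm) / ((1 + δ) ^ 2 * u)) ≤ ∑ s ∈ Gd, g s * ratio h (s + t) := by
      apply sum_le_sum
      intro s hs
      obtain ⟨g1, g2, g3, g4, g5⟩ := hgood (s + t) (hst s (hGds hs)).2 (hgd s hs)
      apply mul_le_mul_of_nonneg_left _ (hg s (hGds hs)).1
      rw [hΨ, hQ]
      have g6 : hm ≤ ⌊h (s + t)⌋₊ := by rw [hhm]; exact Nat.floor_le_floor g2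
      apply ratio_lower h hh (s + t) hm u δ hu0 hδ0 g3 (lt_of_lt_of_le (mul_pos (by linarith) hu0) g2) g6 _ g5 g1
      have g7 : ((⌊h (s + t)⌋₊ : ℕ) : ℝ) ≤ ((s + t : ℕ) : ℝ) := (Nat.floor_le (hh _)).trans g4
      exact g6.trans (by exact_mod_cast g7)
    have h2 : 0 ≤ ∑ s ∈ Bd, g s * ratio h (s + t) :=
      sum_nonneg fun s hs => mul_nonneg (hg s (hBds hs)).1 (ratio_nonneg h hh _)
    have h3 : ∑ s ∈ Gd, g s * ((Ψ (s + t) hm - Q (s + t) hm) / ((1 + δ) ^ 2 * u)) =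
        (∑ s ∈ Gd, g s * (Ψ (s + t) hm - Q (s + t) hm)) / ((1 + δ) ^ 2 * u) := by
      rw [sum_div]
      apply sum_congr rfl
      intro s _
      ring
    obtain ⟨E, hE⟩ : ∃ E, E = ∑ s ∈ Icc 1 x, g s * (Ψ (s + t) hm - hm) := ⟨_, rfl⟩
    rw [← hE]
    have h4 : hm * G - |E| - hm * (2 * (x / L ^ (U + 1))) ≤ ∑ s ∈ Gd, g s * (Ψ (s + t) hm - Q (s + t) hm) := by
      have h5 : ∑ s ∈ Icc 1 x, g s * (Ψ (s + t) hm - Q (s + t) hm) = hm * G + E - ∑ s ∈ Icc 1 x, g s * Q (s + t) hm := by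
        rw [hE, hG, mul_sum, ← sum_add_distrib, ← sum_sub_distrib]
        apply sum_congr rfl
        intro s _
        ring
      have h6 : ∑ s ∈ Bd, g s * (Ψ (s + t) hm - Q (s + t) hm) ≤ ∑ s ∈ Bd, g s * Ψ (s + t) hm := by
        apply sum_le_sum
        intro s hs
        apply mul_le_mul_of_nonneg_left _ (hg s (hBds hs)).1
        linarith [hQ0 (s + t) hm]
      rw [hsplit] at h5
      have h7 := neg_abs_le E
      have h8 : (hm : ℝ) * (X * L ^ A * (2 * L)) ≤ hm * (x / L ^ (U + 1)) := mul_le_mul_of_nonneg_left hXA (Nat.cast_nonneg _)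
      have h9 : (hm : ℝ) * (L ^ A * (2 * √((4 * x : ℕ) : ℝ) * Real.log ((4 * x : ℕ) : ℝ))) ≤ hm * (x / L ^ (U + 1)) :=
        mul_le_mul_of_nonneg_left hPS (Nat.cast_nonneg _)
      linarith
    have h5 : (1 - 4 * δ) * G - 1 / u * |E| - 2 * (x / L ^ (U + 1)) ≤
        (∑ s ∈ Gd, g s * (Ψ (s + t) hm - Q (s + t) hm)) / ((1 + δ) ^ 2 * u) := by
      rw [le_div_iff₀ hd]
      exact le_trans (lo_ineq δ u G E hm (x / L ^ (U + 1)) hδ0 hδ1 hu0 hG0 hmu hmu' (by positivity)) h4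
    rw [hsplit]
    linarith
  have hE1 : 0 ≤ 2 / u * |∑ s ∈ Icc 1 x, g s * (Ψ (s + t) hp - hp)| := by positivity
  have hE2 : 0 ≤ 1 / u * |∑ s ∈ Icc 1 x, g s * (Ψ (s + t) hm - hm)| := by positivity
  have hE3 : 0 ≤ x / L ^ (U + 1) := by positivity
  have hE4 : 0 ≤ δ * G := by positivity
  rw [abs_le]
  constructor <;> linarith

end Pool.Agent.V5helper54.RI
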