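import Pool.Agent.V5helper54.RI.Rat

/-! # One translation -/

set_option autoImplicit false

namespace Pool.Agent.V5helper54.RI

open Finset Filter

/-- prime powers -/
lemma pp_plus (x N c : ℕ) (hN : x + c ≤ N) (hN1 : 1 ≤ N) :
    ∑ s ∈ Icc 1 x, (if (s + c).Prime then (0 : ℝ) else ArithmeticFunction.vonMangoldt (s + c)) ≤
      2 * √(N : ℝ) * Real.log N := by
  have h3 := Chebyshev.psi_sub_theta_le (x := (N : ℝ)) (by exact_mod_cast hN1)
  rw [Chebyshev.psi_sub_theta_eq_sum_not_prime, Nat.floor_natCast, sum_filter] at h3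
  refine le_trans ?_ h3
  have e1 : ∑ s ∈ Icc 1 x, (if (s + c).Prime then (0 : ℝ) else ArithmeticFunction.vonMangoldt (s + c)) =
      ∑ n ∈ (Icc 1 x).image (fun s => s + c), (if ¬ n.Prime then ArithmeticFunction.vonMangoldt n else (0 : ℝ)) := by
    rw [sum_image]
    · apply sum_congr rfl
      intro s _
      by_cases hp : (s + c).Prime
      · rw [if_pos hp, if_neg (not_not.2 hp)]
      · rw [if_neg hp, if_pos hp]
    · intro a _ b _ hab
      have : a + c = b + c := hab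
      omega
  rw [e1]
  apply sum_le_sum_of_subset_of_nonneg
  · intro n hn
    rw [mem_image] at hn
    obtain ⟨s, hs, rfl⟩ := hn
    rw [mem_Icc] at hs
    rw [mem_Ioc]
    omega
  · intro n _ _
    split_ifs
    · exact le_rfl
    · exact ArithmeticFunction.vonMangoldt_nonneg

/-- few small numbers -/
lemma few_small (x t : ℕ) (X : ℝ) (hX : 0 ≤ X) :
    (((Icc 1 x).filter (fun s => ((s + t : ℕ) : ℝ) < X)).card : ℝ) ≤ X := by
  have h1 : (Icc 1 x).filter (fun s => ((s + t : ℕ) : ℝ) < X) ⊆ Icc 1 ⌊X⌋₊ := by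
    intro s hs
    rw [mem_filter, mem_Icc] at hs
    rw [mem_Icc]
    refine ⟨hs.1.1, Nat.le_floor ?_⟩
    have h2 := hs.2
    push_cast at h2
    have : (0 : ℝ) ≤ t := Nat.cast_nonneg t
    linarith
  have h2 := card_le_card h1
  rw [Nat.card_Icc, Nat.add_sub_cancel] at h2
  exact (by exact_mod_cast h2 : _ ≤ ((⌊X⌋₊ : ℕ) : ℝ)).trans (Nat.floor_le hX)

lemma up_ineq (δ u G E hp : ℝ) (hδ0 : 0 < δ) (hδ1 : δ ≤ 1 / 8) (hu0 : 0 < u) (hG0 : 0 ≤ G) (hp1 : hp ≤ (1 + δ) * u) :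
    (hp * G + E) / ((1 - δ) * u) ≤ (1 + 3 * δ) * G + 2 / u * |E| := by
  have hd : 0 < (1 - δ) * u := mul_pos (by linarith) hu0
  rw [div_le_iff₀ hd]
  have h4 : hp * G ≤ (1 + δ) * u * G := mul_le_mul_of_nonneg_right hp1 hG0
  have h5 : (1 + δ) * (u * G) ≤ (1 + 3 * δ) * (1 - δ) * (u * G) := by
    apply mul_le_mul_of_nonneg_right _ (by positivity)
    nlinarith
  have h6 : E ≤ 2 / u * |E| * ((1 - δ) * u) := by
    have e1 : 2 / u * |E| * ((1 - δ) * u) = 2 * (1 - δ) * |E| := by field_simp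
    rw [e1]
    have h7 := le_abs_self E
    have h8 : 1 * |E| ≤ 2 * (1 - δ) * |E| := mul_le_mul_of_nonneg_right (by linarith) (abs_nonneg E)
    linarith
  have e2 : ((1 + 3 * δ) * G + 2 / u * |E|) * ((1 - δ) * u) = (1 + 3 * δ) * (1 - δ) * (u * G) +
      2 / u * |E| * ((1 - δ) * u) := by ring
  have e3 : (1 + δ) * u * G = (1 + δ) * (u * G) := by ring
  rw [e2]
  linarith

lemma lo_ineq (δ u G E hm Y : ℝ) (hδ0 : 0 < δ) (hδ1 : δ ≤ 1 / 8) (hu0 : 0 < u) (hG0 : 0 ≤ G)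
    (hmu : (1 - 2 * δ) * u ≤ hm) (hmu' : hm ≤ u) (hY : 0 ≤ Y) :
    ((1 - 4 * δ) * G - 1 / u * |E| - 2 * Y) * ((1 + δ) ^ 2 * u) ≤ hm * G - |E| - hm * (2 * Y) := by
  have k1 : (1 - 4 * δ) * ((1 + δ) ^ 2) * (u * G) ≤ (1 - 2 * δ) * (u * G) := by
    apply mul_le_mul_of_nonneg_right _ (by positivity)
    nlinarith [sq_nonneg δ, pow_pos hδ0 3]
  have k2 : (1 - 2 * δ) * u * G ≤ hm * G := mul_le_mul_of_nonneg_right hmu hG0
  have h1 : 1 ≤ (1 + δ) ^ 2 := by nlinarith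
  have k3 : |E| ≤ 1 / u * |E| * ((1 + δ) ^ 2 * u) := by
    have e1 : 1 / u * |E| * ((1 + δ) ^ 2 * u) = (1 + δ) ^ 2 * |E| := by field_simp
    rw [e1]
    exact le_mul_of_one_le_left (abs_nonneg E) h1
  have k4 : hm * (2 * Y) ≤ 2 * Y * ((1 + δ) ^ 2 * u) := by
    have k6 : hm ≤ (1 + δ) ^ 2 * u := hmu'.trans (le_mul_of_one_le_left hu0.le h1)
    rw [mul_comm hm]
    exact mul_le_mul_of_nonneg_left k6 (by positivity)
  have e2 : ((1 - 4 * δ) * G - 1 / u * |E| - 2 * Y) * ((1 + δ) ^ 2 * u) = (1 - 4 * δ) * ((1 + δ) ^ 2) * (u * G) -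
      1 / u * |E| * ((1 + δ) ^ 2 * u) - 2 * Y * ((1 + δ) ^ 2 * u) := by ring
  have e3 : (1 - 2 * δ) * u * G = (1 - 2 * δ) * (u * G) := by ring
  rw [e2]
  linarith

theorem one_step (A U : ℕ) : ∃ D : ℕ, ∀ h : ℕ → ℝ, Regular h → ∀ ε : ℝ, 0 < ε → ∃ x0 : ℕ, ∀ x : ℕ, x0 ≤ x →
    ∀ g : ℕ → ℝ, (∀ s ∈ Icc 1 x, 0 ≤ g s ∧ g s ≤ Real.log x ^ A) → ∀ w H : ℕ, w + H ≤ x →
    (x : ℝ) ^ (1 / 3 : ℝ) * Real.log x ^ D ≤ H →
    ∑ t ∈ Ioc w (w + H), |∑ s ∈ Icc 1 x, g s * ratio h (s + t) - ∑ s ∈ Icc 1 x, g s| ≤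
      (ε * ∑ s ∈ Icc 1 x, g s + x / Real.log x ^ U) * H := by
  obtain ⟨D, hD⟩ := psi_win A (U + 1)
  refine ⟨D, fun h hreg ε hε => ?_⟩
  obtain ⟨hh, hlin, hll, hslow⟩ := hreg
  obtain ⟨K, x1, hK⟩ := hD (ε / 10) (by positivity)
  obtain ⟨δ, hδd⟩ : ∃ δ : ℝ, δ = min (ε / 10) (1 / 8) := ⟨_, rfl⟩
  have hδ0 : 0 < δ := by rw [hδd]; exact lt_min (by positivity) (by norm_num)
  have hδ1 : δ ≤ 1 / 8 := by rw [hδd]; exact min_le_right _ _
  have hδ2 : δ ≤ ε / 10 := by rw [hδd]; exact min_le_left _ _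
  obtain ⟨C, hC⟩ : ∃ C, C = A + U + 4 := ⟨_, rfl⟩
  -- eventualities at `2 x`
  obtain ⟨n1, hn1⟩ := eventually_atTop.1 (hslow (C + 1) δ hδ0)
  obtain ⟨n2, hn2⟩ := eventually_atTop.1 (hll (2 * K + 16))
  obtain ⟨n3, hn3⟩ := eventually_atTop.1 (hlin 4)
  have hlim : Tendsto (fun N : ℕ => Real.log (N : ℝ)) atTop atTop :=
    Real.tendsto_log_atTop.comp (tendsto_natCast_atTop_atTop (R := ℝ))
  have hlim2 : Tendsto (fun N : ℕ => Real.log (Real.log (N : ℝ))) atTop atTop := Real.tendsto_log_atTop.comp hlim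
  obtain ⟨n4, hn4⟩ := eventually_atTop.1 (hlim2.eventually_ge_atTop (max 1 (1 / δ)))
  obtain ⟨n5, hn5⟩ := eventually_atTop.1 (hlim.eventually_ge_atTop (max 9 (Real.log 2 / δ)))
  -- powers of logarithms
  have hpw : ∀ᶠ N : ℕ in atTop, Real.log (N : ℝ) ^ (A + U + 10) ≤ (N : ℝ) ^ (1 / 2 : ℝ) := by
    have h1 := (isLittleO_log_rpow_rpow_atTop (s := 1 / 2) ((A + U + 10 : ℕ) : ℝ) (by norm_num)).bound
      (show (0 : ℝ) < 1 by norm_num)
    have h2 := (tendsto_natCast_atTop_atTop (R := ℝ)).eventually h1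
    filter_upwards [h2, eventually_ge_atTop 1] with N h3 h4
    have h5 : (1 : ℝ) ≤ N := by exact_mod_cast h4
    have h6 : 0 ≤ Real.log (N : ℝ) := Real.log_nonneg h5
    rw [Real.norm_of_nonneg (by positivity), Real.norm_of_nonneg (by positivity), one_mul, Real.rpow_natCast] at h3
    exact h3
  obtain ⟨n6, hn6⟩ := eventually_atTop.1 hpw
  refine ⟨max (max x1 (max n1 n2)) (max (max n3 n4) (max (max n5 n6) (max 16 ((n3 + n5) ^ 2)))), fun x hx g hg w H hwH hH => ?_⟩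
  simp only [max_le_iff] at hx
  obtain ⟨⟨b1, b2, b3⟩, ⟨b4, b5⟩, ⟨b6, b7⟩, b8, b9⟩ := hx
  have hxr : (16 : ℝ) ≤ x := by exact_mod_cast b8
  have hx0 : (0 : ℝ) < x := by linarith
  obtain ⟨L, hLd⟩ : ∃ L, L = Real.log (x : ℝ) := ⟨_, rfl⟩
  have hL := hn5 x b6
  have hLL := hn4 x b5
  have hLp := hn6 x b7
  rw [← hLd] at hL hLL hLp hg hH ⊢
  have hL9 : 9 ≤ L := (le_max_left _ _).trans hL
  have hLL1 : 1 ≤ Real.log L := (le_max_left _ _).trans hLL
  have hLLδ : 1 / δ ≤ Real.log L := (le_max_right _ _).trans hLL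
  have hL0 : 0 < L := by linarith
  have hL1 : 1 ≤ L := by linarith
  have hKx := hK x b1
  rw [← hLd] at hKx
  have hl2 : Real.log 2 ≤ 1 := by
    have := Real.log_two_lt_d9
    linarith
  have hl2x : Real.log ((2 * x : ℕ) : ℝ) = Real.log 2 + L := by
    push_cast
    rw [Real.log_mul (by norm_num) hx0.ne', ← hLd]
  have hl20 : 0 ≤ Real.log 2 := Real.log_nonneg (by norm_num)
  have hl4x : Real.log ((4 * x : ℕ) : ℝ) ≤ 2 * L := by
    push_cast
    rw [Real.log_mul (by norm_num) hx0.ne', ← hLd, show (4 : ℝ) = 2 ^ 2 by norm_num, Real.log_pow]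
    push_cast
    linarith
  -- the length `u`
  obtain ⟨u, hu⟩ : ∃ u, u = h (2 * x) := ⟨_, rfl⟩
  have f1 := hn1 (2 * x) (by omega)
  have f2 := hn2 (2 * x) (by omega)
  have f3 := hn3 (2 * x) (by omega)
  rw [← hu] at f1 f2 f3
  have f2' : (2 * K + 16) * Real.log L ≤ u := by
    refine le_trans ?_ f2
    push_cast
    apply mul_le_mul_of_nonneg_left _ (by positivity)
    apply Real.log_le_log hL0
    rw [← Nat.cast_ofNat, ← Nat.cast_mul, hl2x]
    linarith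
  have hK0 : (0 : ℝ) ≤ K := Nat.cast_nonneg K
  have hu16 : 16 ≤ u := by nlinarith
  have hu0 : 0 < u := by linarith
  have huδ : 1 ≤ δ * u := by
    have h1 : 1 / δ ≤ u := by nlinarith
    rw [div_le_iff₀ hδ0] at h1
    linarith
  have hux : 2 * u ≤ x := by
    push_cast at f3
    linarith
  obtain ⟨hp, hhp⟩ : ∃ hp, hp = ⌊(1 + δ) * u⌋₊ := ⟨_, rfl⟩
  obtain ⟨hm, hhm⟩ : ∃ hm, hm = ⌊(1 - δ) * u⌋₊ := ⟨_, rfl⟩
  have hp1 : (hp : ℝ) ≤ (1 + δ) * u := by rw [hhp]; exact Nat.floor_le (by positivity)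
  have hp2 : (1 + δ) * u < hp + 1 := by rw [hhp]; exact Nat.lt_floor_add_one _
  have hm1 : (hm : ℝ) ≤ (1 - δ) * u := by rw [hhm]; exact Nat.floor_le (mul_nonneg (by linarith) hu0.le)
  have hm2 : (1 - δ) * u < hm + 1 := by rw [hhm]; exact Nat.lt_floor_add_one _
  have hmu : (1 - 2 * δ) * u ≤ hm := by linarith
  have hmu' : (hm : ℝ) ≤ u := by nlinarith
  have hpu : (hp : ℝ) ≤ 2 * u := by nlinarith
  have hpx : hp ≤ x := by
    have : (hp : ℝ) ≤ x := by linarith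
    exact_mod_cast this
  have hmx : hm ≤ x := by
    have : (hm : ℝ) ≤ x := by linarith
    exact_mod_cast this
  have hmK : K * Real.log L ≤ hm := by
    have h1 : (1 / 2 : ℝ) * u ≤ hm := by
      refine le_trans ?_ hmu
      apply mul_le_mul_of_nonneg_right _ hu0.le
      linarith
    nlinarith
  have hpK : K * Real.log L ≤ hp := by
    have : (hm : ℝ) ≤ hp + 1 := by nlinarith
    have h1 : (hm : ℝ) ≤ hp := by
      rw [hhm, hhp]
      exact_mod_cast Nat.floor_le_floor (by nlinarith)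
    linarith
  have Kp := hKx hp hpK hpx w H hwH hH g hg
  have Km := hKx hm hmK hmx w H hwH hH g hg
  -- good numbers
  obtain ⟨X, hX⟩ : ∃ X : ℝ, X = x / L ^ C := ⟨_, rfl⟩
  have hX0 : 0 ≤ X := by rw [hX]; positivity
  have hLC : L ^ C ≤ (x : ℝ) ^ (1 / 2 : ℝ) := (pow_le_pow_right₀ hL1 (by omega)).trans hLp
  have hxs : (x : ℝ) ^ (1 / 2 : ℝ) * (x : ℝ) ^ (1 / 2 : ℝ) = x := by
    rw [← Real.rpow_add hx0]
    norm_num
  have hXs : (x : ℝ) ^ (1 / 2 : ℝ) ≤ X := by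
    rw [hX, le_div_iff₀ (by positivity)]
    calc (x : ℝ) ^ (1 / 2 : ℝ) * L ^ C ≤ (x : ℝ) ^ (1 / 2 : ℝ) * (x : ℝ) ^ (1 / 2 : ℝ) := by gcongr
      _ = x := hxs
  have hXn : ((n3 + n5 : ℕ) : ℝ) ≤ X := by
    refine le_trans ?_ hXs
    rw [← Real.sqrt_eq_rpow]
    apply Real.le_sqrt_of_sq_le
    exact_mod_cast b9
  have hgood : ∀ n : ℕ, n ≤ 2 * x → X ≤ n → 1 ≤ n ∧ (1 - δ) * u ≤ h n ∧ h n ≤ (1 + δ) * u ∧ h n ≤ n ∧
      Real.log 2 ≤ δ * Real.log n := by
    intro n hn hXn'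
    have g0 : ((n3 + n5 : ℕ) : ℝ) ≤ n := hXn.trans hXn'
    have g0' : n3 + n5 ≤ n := by exact_mod_cast g0
    have g1 : 1 ≤ n := by
      have h1 : 1 ≤ (x : ℝ) ^ (1 / 2 : ℝ) := Real.one_le_rpow (by linarith) (by norm_num)
      have : (1 : ℝ) ≤ n := by linarith
      exact_mod_cast this
    have g2 := f1 n hn (by
      rw [hl2x]
      push_cast
      have h1 : (x : ℝ) ≤ n * L ^ C := by
        rw [hX, div_le_iff₀ (by positivity)] at hXn'
        exact hXn'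
      have h2 : L ^ (C + 1) ≤ (Real.log 2 + L) ^ (C + 1) := pow_le_pow_left₀ hL0.le (by linarith) _
      have h3 : 2 * L ^ C ≤ L ^ (C + 1) := by
        rw [pow_succ]
        have : 0 < L ^ C := by positivity
        nlinarith
      calc 2 * (x : ℝ) ≤ 2 * (n * L ^ C) := by linarith
        _ = n * (2 * L ^ C) := by ring
        _ ≤ n * (Real.log 2 + L) ^ (C + 1) := mul_le_mul_of_nonneg_left (h3.trans h2) (Nat.cast_nonneg n))
    obtain ⟨g3, g4⟩ := abs_le.1 g2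
    have g5 := hn3 n (by omega)
    have g6 := (le_max_right _ _).trans (hn5 n (by omega))
    rw [div_le_iff₀ hδ0] at g6
    have g7 := hh n
    push_cast at g5
    refine ⟨g1, by linarith, by linarith, by linarith, by linarith⟩
  obtain ⟨G, hG⟩ : ∃ G, G = ∑ s ∈ Icc 1 x, g s := ⟨_, rfl⟩
  have hG0 : 0 ≤ G := by rw [hG]; exact sum_nonneg fun s hs => (hg s hs).1
  obtain ⟨Ψ, hΨ⟩ : ∃ Ψ : ℕ → ℕ → ℝ, Ψ = fun n v => ∑ j ∈ Icc 1 v, ArithmeticFunction.vonMangoldt (n + j) := ⟨_, rfl⟩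
  obtain ⟨Q, hQ⟩ : ∃ Q : ℕ → ℕ → ℝ, Q = fun n v => ∑ j ∈ Icc 1 v, (if (n + j).Prime then (0 : ℝ) else
    ArithmeticFunction.vonMangoldt (n + j)) := ⟨_, rfl⟩
  have hΨ0 : ∀ n v, 0 ≤ Ψ n v := fun n v => by
    rw [hΨ]
    exact sum_nonneg fun _ _ => ArithmeticFunction.vonMangoldt_nonneg
  have hQ0 : ∀ n v, 0 ≤ Q n v := fun n v => by
    rw [hQ]
    apply sum_nonneg
    intro j _
    split_ifs
    · exact le_rfl
    · exact ArithmeticFunction.vonMangoldt_nonneg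
  have hQΨ : ∀ n v, Q n v ≤ Ψ n v := fun n v => by
    rw [hQ, hΨ]
    apply sum_le_sum
    intro j _
    split_ifs
    · exact ArithmeticFunction.vonMangoldt_nonneg
    · exact le_rfl
  have hXA : X * L ^ A * (2 * L) ≤ x / L ^ (U + 1) := by
    rw [hX, hC]
    have e1 : (x : ℝ) / L ^ (A + U + 4) * L ^ A * (2 * L) = (x / L ^ (U + 1)) * (2 / L ^ 2) := by
      rw [pow_add, pow_add, pow_add]
      field_simp
    rw [e1]
    apply mul_le_of_le_one_right (by positivity)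
    rw [div_le_one (by positivity)]
    nlinarith
  -- prime powers
  have hPS : L ^ A * (2 * √((4 * x : ℕ) : ℝ) * Real.log ((4 * x : ℕ) : ℝ)) ≤ x / L ^ (U + 1) := by
    have e1 : √((4 * x : ℕ) : ℝ) = 2 * (x : ℝ) ^ (1 / 2 : ℝ) := by
      rw [← Real.sqrt_eq_rpow]
      push_cast
      rw [Real.sqrt_mul (by norm_num), show (4 : ℝ) = 2 ^ 2 by norm_num, Real.sqrt_sq (by norm_num)]
    rw [e1, le_div_iff₀ (by positivity)]
    calc L ^ A * (2 * (2 * (x : ℝ) ^ (1 / 2 : ℝ)) * Real.log ((4 * x : ℕ) : ℝ)) * L ^ (U + 1)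
        ≤ L ^ A * (2 * (2 * (x : ℝ) ^ (1 / 2 : ℝ)) * (2 * L)) * L ^ (U + 1) := by gcongr
      _ = (x : ℝ) ^ (1 / 2 : ℝ) * (8 * L ^ (A + U + 2)) := by
          rw [show A + U + 2 = A + 1 + (U + 1) by ring, pow_add, pow_add, pow_one]
          ring
      _ ≤ (x : ℝ) ^ (1 / 2 : ℝ) * L ^ (A + U + 10) := by
          have h1 : L ^ (A + U + 10) = L ^ (A + U + 2) * L ^ 8 := by rw [← pow_add]
          have h2 : 8 ≤ L ^ 8 := by
            have : L ^ 1 ≤ L ^ 8 := pow_le_pow_right₀ hL1 (by norm_num)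
            rw [pow_one] at this
            linarith
          rw [h1]
          have h3 : 0 < L ^ (A + U + 2) := by positivity
          have h4 : 0 < (x : ℝ) ^ (1 / 2 : ℝ) := by positivity
          nlinarith [mul_le_mul_of_nonneg_left h2 h3.le]
      _ ≤ (x : ℝ) ^ (1 / 2 : ℝ) * (x : ℝ) ^ (1 / 2 : ℝ) := by gcongr
      _ = x := hxs
  have hgL : ∀ s ∈ Icc 1 x, g s ≤ L ^ A := fun s hs => (hg s hs).2
  -- the pointwise bound
  have key : ∀ t ∈ Ioc w (w + H), |∑ s ∈ Icc 1 x, g s * ratio h (s + t) - G| ≤ 4 * δ * G +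
      2 / u * |∑ s ∈ Icc 1 x, g s * (Ψ (s + t) hp - hp)| + 1 / u * |∑ s ∈ Icc 1 x, g s * (Ψ (s + t) hm - hm)| +
      2 * (x / L ^ (U + 1)) := by
    intro t ht
    rw [mem_Ioc] at ht
    obtain ⟨Bd, hBd⟩ : ∃ Bd, Bd = (Icc 1 x).filter (fun s => ((s + t : ℕ) : ℝ) < X) := ⟨_, rfl⟩
    obtain ⟨Gd, hGd⟩ : ∃ Gd, Gd = (Icc 1 x).filter (fun s => ¬ ((s + t : ℕ) : ℝ) < X) := ⟨_, rfl⟩
    have hBdc : (Bd.card : ℝ) ≤ X := by rw [hBd]; exact few_small x t X hX0
    have hBds : Bd ⊆ Icc 1 x := by rw [hBd]; exact filter_subset _ _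
    have hGds : Gd ⊆ Icc 1 x := by rw [hGd]; exact filter_subset _ _
    have hsplit : ∀ f : ℕ → ℝ, ∑ s ∈ Icc 1 x, f s = ∑ s ∈ Bd, f s + ∑ s ∈ Gd, f s := by
      intro f
      rw [hBd, hGd]
      exact (sum_filter_add_sum_filter_not _ _ _).symm
    have hst : ∀ s ∈ Icc 1 x, 1 ≤ s + t ∧ s + t ≤ 2 * x := by
      intro s hs
      rw [mem_Icc] at hs
      omega
    have hgd : ∀ s ∈ Gd, X ≤ ((s + t : ℕ) : ℝ) := by
      intro s hs
      rw [hGd, mem_filter] at hs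
      exact not_lt.1 hs.2
    have hlogst : ∀ s ∈ Icc 1 x, Real.log ((s + t : ℕ) : ℝ) ≤ 2 * L := by
      intro s hs
      have h1 := hst s hs
      refine le_trans (Real.log_le_log (by exact_mod_cast h1.1) ?_) hl4x
      exact_mod_cast (by omega : s + t ≤ 4 * x)
    -- sums over the bad set
    have hbad1 : ∑ s ∈ Bd, g s * ratio h (s + t) ≤ X * L ^ A * (2 * L) := by
      have h1 : ∀ s ∈ Bd, g s * ratio h (s + t) ≤ L ^ A * (2 * L) := by
        intro s hs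
        exact mul_le_mul (hgL s (hBds hs)) ((ratio_le_log h hh _).trans (hlogst s (hBds hs))) (ratio_nonneg h hh _)
          (by positivity)
      refine (sum_le_sum h1).trans ?_
      rw [sum_const, nsmul_eq_mul, mul_assoc X]
      exact mul_le_mul_of_nonneg_right hBdc (by positivity)
    have hbad2 : ∑ s ∈ Bd, g s * Ψ (s + t) hm ≤ hm * (X * L ^ A * (2 * L)) := by
      have h1 : ∀ s ∈ Bd, g s * Ψ (s + t) hm ≤ L ^ A * (hm * (2 * L)) := by
        intro s hs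
        apply mul_le_mul (hgL s (hBds hs)) _ (hΨ0 _ _) (by positivity)
        rw [hΨ]
        simp only
        have h2 : ∀ j ∈ Icc 1 hm, ArithmeticFunction.vonMangoldt (s + t + j) ≤ 2 * L := by
          intro j hj
          rw [mem_Icc] at hj
          have h3 := hst s (hBds hs)
          refine ArithmeticFunction.vonMangoldt_le_log.trans (le_trans (Real.log_le_log ?_ ?_) hl4x)
          · exact_mod_cast (by omega : 0 < s + t + j)
          · exact_mod_cast (by omega : s + t + j ≤ 4 * x)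
        refine (sum_le_sum h2).trans ?_
        rw [sum_const, Nat.card_Icc, nsmul_eq_mul, Nat.add_sub_cancel]
      refine (sum_le_sum h1).trans ?_
      rw [sum_const, nsmul_eq_mul]
      calc (Bd.card : ℝ) * (L ^ A * (hm * (2 * L))) ≤ X * (L ^ A * (hm * (2 * L))) :=
            mul_le_mul_of_nonneg_right hBdc (by positivity)
        _ = _ := by ring
    -- prime powers
    have hpp : ∑ s ∈ Icc 1 x, g s * Q (s + t) hm ≤ hm * (L ^ A * (2 * √((4 * x : ℕ) : ℝ) * Real.log ((4 * x : ℕ) : ℝ))) := by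
      have h1 : ∀ s ∈ Icc 1 x, g s * Q (s + t) hm ≤ L ^ A * Q (s + t) hm := fun s hs =>
        mul_le_mul_of_nonneg_right (hgL s hs) (hQ0 _ _)
      refine (sum_le_sum h1).trans ?_
      rw [← mul_sum, hQ]
      simp only
      rw [sum_comm]
      have h2 : ∀ j ∈ Icc 1 hm, ∑ s ∈ Icc 1 x, (if (s + t + j).Prime then (0 : ℝ) else
          ArithmeticFunction.vonMangoldt (s + t + j)) ≤ 2 * √((4 * x : ℕ) : ℝ) * Real.log ((4 * x : ℕ) : ℝ) := by
        intro j hj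
        rw [mem_Icc] at hj
        have h3 := pp_plus x (4 * x) (t + j) (by omega) (by omega)
        refine le_trans (le_of_eq ?_) h3
        apply sum_congr rfl
        intro s _
        rw [add_assoc]
      have h3 := sum_le_sum h2
      rw [sum_const, Nat.card_Icc, nsmul_eq_mul, Nat.add_sub_cancel] at h3
      calc L ^ A * ∑ j ∈ Icc 1 hm, ∑ s ∈ Icc 1 x, (if (s + t + j).Prime then (0 : ℝ) else
          ArithmeticFunction.vonMangoldt (s + t + j)) ≤ L ^ A * (hm * (2 * √((4 * x : ℕ) : ℝ) * Real.log ((4 * x : ℕ) : ℝ))) := by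
            gcongr
        _ = _ := by ring
    -- upper bound
    have up : ∑ s ∈ Icc 1 x, g s * ratio h (s + t) ≤ x / L ^ (U + 1) + (1 + 3 * δ) * G +
        2 / u * |∑ s ∈ Icc 1 x, g s * (Ψ (s + t) hp - hp)| := by
      have h1 : ∑ s ∈ Gd, g s * ratio h (s + t) ≤ ∑ s ∈ Icc 1 x, g s * (Ψ (s + t) hp / ((1 - δ) * u)) := by
        have q1 : ∑ s ∈ Gd, g s * ratio h (s + t) ≤ ∑ s ∈ Gd, g s * (Ψ (s + t) hp / ((1 - δ) * u)) := by
          apply sum_le_sum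
          intro s hs
          obtain ⟨g1, g2, g3, g4, g5⟩ := hgood (s + t) (hst s (hGds hs)).2 (hgd s hs)
          apply mul_le_mul_of_nonneg_left _ (hg s (hGds hs)).1
          rw [hΨ]
          exact ratio_upper h hh (s + t) hp u δ g1 hu0 (by linarith) g2 (by rw [hhp]; exact Nat.floor_le_floor g3)
        refine q1.trans (sum_le_sum_of_subset_of_nonneg hGds fun s hs _ => ?_)
        exact mul_nonneg (hg s hs).1 (div_nonneg (hΨ0 _ _) (mul_nonneg (by linarith) hu0.le))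
      have h2 : ∑ s ∈ Icc 1 x, g s * (Ψ (s + t) hp / ((1 - δ) * u)) =
          (hp * G + ∑ s ∈ Icc 1 x, g s * (Ψ (s + t) hp - hp)) / ((1 - δ) * u) := by
        rw [hG, mul_sum, ← sum_add_distrib, sum_div]
        apply sum_congr rfl
        intro s _
        ring
      obtain ⟨E, hE⟩ : ∃ E, E = ∑ s ∈ Icc 1 x, g s * (Ψ (s + t) hp - hp) := ⟨_, rfl⟩
      rw [← hE] at h2 ⊢
      have h3 := up_ineq δ u G E hp hδ0 hδ1 hu0 hG0 hp1
      rw [hsplit]
      linarith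
    -- lower bound
    have lo : (1 - 4 * δ) * G - 1 / u * |∑ s ∈ Icc 1 x, g s * (Ψ (s + t) hm - hm)| - 2 * (x / L ^ (U + 1)) ≤
        ∑ s ∈ Icc 1 x, g s * ratio h (s + t) := by
      have hd : 0 < (1 + δ) ^ 2 * u := by positivity
      have h1 : ∑ s ∈ Gd, g s * ((Ψ (s + t) hm - Q (s + t) hm) / ((1 + δ) ^ 2 * u)) ≤ ∑ s ∈ Gd, g s * ratio h (s + t) := by
        apply sum_le_sum
        intro s hs
        obtain ⟨g1, g2, g3, g4, g5⟩ := hgood (s + t) (hst s (hGds hs)).2 (hgd s hs)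
        apply mul_le_mul_of_nonneg_left _ (hg s (hGds hs)).1
        rw [hΨ, hQ]
        have g6 : hm ≤ ⌊h (s + t)⌋₊ := by rw [hhm]; exact Nat.floor_le_floor g2
        apply ratio_lower h hh (s + t) hm u δ hu0 hδ0 g3 (lt_of_lt_of_le (mul_pos (by linarith) hu0) g2) g6 _ g5 g1
        have g7 : ((⌊h (s + t)⌋₊ : ℕ) : ℝ) ≤ ((s + t : ℕ) : ℝ) := (Nat.floor_le (hh _)).trans g4
        exact g6.trans (by exact_mod_cast g7)
      have h2 : 0 ≤ ∑ s ∈ Bd, g s * ratio h (s + t) :=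
        sum_nonneg fun s hs => mul_nonneg (hg s (hBds hs)).1 (ratio_nonneg h hh _)
      have h3 : ∑ s ∈ Gd, g s * ((Ψ (s + t) hm - Q (s + t) hm) / ((1 + δ) ^ 2 * u)) =
          (∑ s ∈ Gd, g s * (Ψ (s + t) hm - Q (s + t) hm)) / ((1 + δ) ^ 2 * u) := by
        rw [sum_div]
        apply sum_congr rfl
        intro s _
        ring
      obtain ⟨E, hE⟩ : ∃ E, E = ∑ s ∈ Icc 1 x, g s * (Ψ (s + t) hm - hm) := ⟨_, rfl⟩
      rw [← hE]
      have h4 : hm * G - |E| - hm * (2 * (x / L ^ (U + 1))) ≤ ∑ s ∈ Gd, g s * (Ψ (s + t) hm - Q (s + t) hm) := by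
        have h5 : ∑ s ∈ Icc 1 x, g s * (Ψ (s + t) hm - Q (s + t) hm) = hm * G + E - ∑ s ∈ Icc 1 x, g s * Q (s + t) hm := by
          rw [hE, hG, mul_sum, ← sum_add_distrib, ← sum_sub_distrib]
          apply sum_congr rfl
          intro s _
          ring
        have h6 : ∑ s ∈ Bd, g s * (Ψ (s + t) hm - Q (s + t) hm) ≤ ∑ s ∈ Bd, g s * Ψ (s + t) hm := by
          apply sum_le_sum
          intro s hs
          apply mul_le_mul_of_nonneg_left _ (hg s (hBds hs)).1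
          linarith [hQ0 (s + t) hm]
        rw [hsplit] at h5
        have h7 := neg_abs_le E
        have h8 : (hm : ℝ) * (X * L ^ A * (2 * L)) ≤ hm * (x / L ^ (U + 1)) := mul_le_mul_of_nonneg_left hXA (Nat.cast_nonneg _)
        have h9 : (hm : ℝ) * (L ^ A * (2 * √((4 * x : ℕ) : ℝ) * Real.log ((4 * x : ℕ) : ℝ))) ≤ hm * (x / L ^ (U + 1)) :=
          mul_le_mul_of_nonneg_left hPS (Nat.cast_nonneg _)
        linarith
      have h5 : (1 - 4 * δ) * G - 1 / u * |E| - 2 * (x / L ^ (U + 1)) ≤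
          (∑ s ∈ Gd, g s * (Ψ (s + t) hm - Q (s + t) hm)) / ((1 + δ) ^ 2 * u) := by
        rw [le_div_iff₀ hd]
        exact le_trans (lo_ineq δ u G E hm (x / L ^ (U + 1)) hδ0 hδ1 hu0 hG0 hmu hmu' (by positivity)) h4
      rw [hsplit]
      linarith
    have hE1 : 0 ≤ 2 / u * |∑ s ∈ Icc 1 x, g s * (Ψ (s + t) hp - hp)| := by positivity
    have hE2 : 0 ≤ 1 / u * |∑ s ∈ Icc 1 x, g s * (Ψ (s + t) hm - hm)| := by positivity
    have hE3 : 0 ≤ x / L ^ (U + 1) := by positivity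
    have hE4 : 0 ≤ δ * G := by positivity
    rw [abs_le]
    constructor <;> linarith
  rw [← hG] at Kp Km ⊢
  refine (sum_le_sum key).trans ?_
  rw [sum_add_distrib, sum_add_distrib, sum_add_distrib, ← mul_sum, ← mul_sum, ← mul_sum, sum_const, sum_const, Nat.card_Ioc,
    Nat.add_sub_cancel_left, nsmul_eq_mul, nsmul_eq_mul]
  have hH0 : (0 : ℝ) ≤ H := Nat.cast_nonneg H
  have m1 : 2 / u * ∑ t ∈ Ioc w (w + H), |∑ s ∈ Icc 1 x, g s * (Ψ (s + t) hp - hp)| ≤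
      4 * (ε / 10 * (H * G) + x * H / L ^ (U + 1)) := by
    rw [hΨ]
    have h1 : (0 : ℝ) ≤ ε / 10 * (H * G) + x * H / L ^ (U + 1) := by positivity
    calc _ ≤ 2 / u * (hp * (ε / 10 * (H * G) + x * H / L ^ (U + 1))) := mul_le_mul_of_nonneg_left Kp (by positivity)
      _ ≤ 2 / u * (2 * u * (ε / 10 * (H * G) + x * H / L ^ (U + 1))) := by gcongr
      _ = _ := by
          field_simp
          ring
  have m2 : 1 / u * ∑ t ∈ Ioc w (w + H), |∑ s ∈ Icc 1 x, g s * (Ψ (s + t) hm - hm)| ≤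
      1 * (ε / 10 * (H * G) + x * H / L ^ (U + 1)) := by
    rw [hΨ]
    have h1 : (0 : ℝ) ≤ ε / 10 * (H * G) + x * H / L ^ (U + 1) := by positivity
    calc _ ≤ 1 / u * (hm * (ε / 10 * (H * G) + x * H / L ^ (U + 1))) := mul_le_mul_of_nonneg_left Km (by positivity)
      _ ≤ 1 / u * (u * (ε / 10 * (H * G) + x * H / L ^ (U + 1))) := by gcongr
      _ = _ := by
          field_simp
  have m3 : 7 * (x * H / L ^ (U + 1)) ≤ x / L ^ U * H := by
    have e1 : 7 * (x * H / L ^ (U + 1)) = (x / L ^ U * H) * (7 / L) := by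
      rw [pow_succ]
      field_simp
    rw [e1]
    apply mul_le_of_le_one_right (by positivity)
    rw [div_le_one hL0]
    linarith
  have m4 : 4 * δ * (H * G) ≤ 4 * (ε / 10) * (H * G) := by gcongr
  have m5 : (H : ℝ) * (2 * (x / L ^ (U + 1))) = 2 * (x * H / L ^ (U + 1)) := by ring
  have m6 : 0 ≤ ε * (H * G) := by positivity
  have m7 : (ε * G + x / L ^ U) * H = ε * (H * G) + x / L ^ U * H := by ring
  rw [m7]
  linarith

end Pool.Agent.V5helper54.RI
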