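import Pool.Agent.V5helper54.RI.Int2
import Pool.Agent.V5helper54.RI.Cor

/-! # Prime powers in very short intervals, averaged along arbitrary weights -/

set_option autoImplicit false

namespace Pool.Agent.V5helper54.RI

open Finset
open Pool.Agent.H373R2.T7

theorem psi_win (T U : ℕ) : ∃ D : ℕ, ∀ ε : ℝ, 0 < ε → ∃ K x0 : ℕ, ∀ x : ℕ, x0 ≤ x → ∀ h : ℕ,
    K * Real.log (Real.log x) ≤ h → h ≤ x → ∀ w H : ℕ, w + H ≤ x → (x : ℝ) ^ (1 / 3 : ℝ) * Real.log x ^ D ≤ H →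
    ∀ g : ℕ → ℝ, (∀ s ∈ Icc 1 x, 0 ≤ g s ∧ g s ≤ Real.log x ^ T) →
    ∑ t ∈ Ioc w (w + H), |∑ s ∈ Icc 1 x, g s * (∑ j ∈ Icc 1 h, ArithmeticFunction.vonMangoldt (s + t + j) - h)| ≤
      h * (ε * (H * ∑ s ∈ Icc 1 x, g s) + x * H / Real.log x ^ U) := by
  obtain ⟨D, B0, h0⟩ := las_win (2 * T) U
  refine ⟨D, fun ε hε => ?_⟩
  obtain ⟨K', hK'1, hr⟩ := rough_int ε hε
  obtain ⟨C, hC0, hC⟩ := Vz_mertens
  obtain ⟨N0, hN0⟩ := h0 (B0 + 2)
  obtain ⟨H0, hH0⟩ := hr (2 * (B0 + 2))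
  have hlim : Filter.Tendsto (fun N : ℕ => Real.log (N : ℝ)) Filter.atTop Filter.atTop :=
    Real.tendsto_log_atTop.comp (tendsto_natCast_atTop_atTop (R := ℝ))
  obtain ⟨N1, hN1⟩ := Filter.eventually_atTop.1 (hlim.eventually_ge_atTop (max 9 (K' + 3)))
  obtain ⟨K, hK⟩ := exists_nat_ge (K' * (C * (B0 + 2 : ℕ)))
  refine ⟨K, max (max N0 N1) (max (H0 ^ 3) 1), fun x hx h hh hhx w H hwH hH g hg => ?_⟩
  have b1 : N0 ≤ x := le_trans (le_trans (le_max_left _ _) (le_max_left _ _)) hx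
  have b2 : N1 ≤ x := le_trans (le_trans (le_max_right _ _) (le_max_left _ _)) hx
  have b3 : H0 ^ 3 ≤ x := le_trans (le_trans (le_max_left _ _) (le_max_right _ _)) hx
  have b4 : 1 ≤ x := le_trans (le_trans (le_max_right _ _) (le_max_right _ _)) hx
  have hL := hN1 x b2
  have hlas := hN0 x b1
  obtain ⟨L, hLd⟩ : ∃ L, L = Real.log (x : ℝ) := ⟨_, rfl⟩
  rw [← hLd] at hL hlas hh hH hg ⊢
  have hL9 : 9 ≤ L := (le_max_left _ _).trans hL
  have hLK : (K' : ℝ) + 3 ≤ L := (le_max_right _ _).trans hL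
  have hL0 : 0 < L := by linarith
  have hL1 : 1 ≤ L := by linarith
  have hxr : (1 : ℝ) ≤ x := by exact_mod_cast b4
  have hx0 : (0 : ℝ) < x := by linarith
  -- the sieving limit
  obtain ⟨z, hzd⟩ : ∃ z, z = ⌈L ^ (B0 + 1)⌉₊ := ⟨_, rfl⟩
  have hz1 : L ^ (B0 + 1) ≤ z := by rw [hzd]; exact Nat.le_ceil _
  have hz1' : L ^ B0 ≤ z := (pow_le_pow_right₀ hL1 (by omega)).trans hz1
  have hzL : L ≤ z := by
    have : L ^ 1 ≤ L ^ (B0 + 1) := pow_le_pow_right₀ hL1 (by omega)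
    rw [pow_one] at this
    linarith
  have hz2 : (z : ℝ) ≤ L ^ (B0 + 2) := by
    have h1 : (z : ℝ) < L ^ (B0 + 1) + 1 := by rw [hzd]; exact Nat.ceil_lt_add_one (by positivity)
    have h2 : L ^ (B0 + 2) = L ^ (B0 + 1) * L := pow_succ _ _
    have h3 : 1 ≤ L ^ (B0 + 1) := one_le_pow₀ hL1
    have h4 : L ^ (B0 + 1) * 2 ≤ L ^ (B0 + 1) * L := mul_le_mul_of_nonneg_left (by linarith) (by linarith)
    rw [h2]
    linarith
  have hzK : K' ≤ z := by
    have : (K' : ℝ) ≤ z := by linarith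
    exact_mod_cast this
  have hz3 : 3 ≤ z := by
    have : (3 : ℝ) ≤ z := by linarith
    exact_mod_cast this
  have hVz := hC z hz3
  have hlz : Real.log z ≤ (B0 + 2 : ℕ) * Real.log L := by
    have h1 := Real.log_le_log (by linarith) hz2
    rwa [Real.log_pow] at h1
  have hKh : K' * (Vz z)⁻¹ ≤ h := by
    have hlL : 0 ≤ Real.log L := Real.log_nonneg hL1
    calc K' * (Vz z)⁻¹ ≤ K' * (C * ((B0 + 2 : ℕ) * Real.log L)) := by gcongr; exact hVz.trans (by gcongr)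
      _ = K' * (C * (B0 + 2 : ℕ)) * Real.log L := by ring
      _ ≤ K * Real.log L := mul_le_mul_of_nonneg_right hK hlL
      _ ≤ h := hh
  -- the length of the window
  have hHx : (x : ℝ) ^ (1 / 3 : ℝ) ≤ H :=
    le_trans (le_mul_of_one_le_right (by positivity) (one_le_pow₀ hL1)) hH
  have hH0' : H0 ≤ H := by
    have h1 : (H0 : ℝ) ≤ (x : ℝ) ^ (1 / 3 : ℝ) := by
      have h2 : ((H0 : ℝ)) ^ (3 : ℕ) ≤ x := by exact_mod_cast b3
      calc (H0 : ℝ) = (((H0 : ℝ)) ^ (3 : ℕ)) ^ (1 / 3 : ℝ) := by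
            rw [← Real.rpow_natCast, ← Real.rpow_mul (Nat.cast_nonneg _)]
            norm_num
        _ ≤ _ := Real.rpow_le_rpow (by positivity) h2 (by norm_num)
    exact_mod_cast h1.trans hHx
  have hlH : L / 3 ≤ Real.log H := by
    have := Real.log_le_log (by positivity) hHx
    rw [Real.log_rpow hx0, ← hLd] at this
    linarith
  have hzH : (z : ℝ) ≤ Real.log H ^ (2 * (B0 + 2)) := by
    refine hz2.trans ?_
    rw [pow_mul]
    apply pow_le_pow_left₀ hL0.le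
    have h3 : 3 ≤ Real.log H := by linarith
    nlinarith
  -- the two parts
  have p1 : ∀ j ∈ Icc 1 h, ∑ t ∈ Ioc w (w + H), |∑ s ∈ Icc 1 x, g s *
      (ArithmeticFunction.vonMangoldt (s + t + j) - lamz z (s + t + j))| ≤ x * H / L ^ U := by
    intro j hj
    rw [mem_Icc] at hj
    refine hlas z hz1' hz2 w H j hwH (by omega) hH g ?_
    have h1 : ∀ s ∈ Icc 1 x, g s ^ 2 ≤ L ^ (2 * T) := by
      intro s hs
      have h2 := pow_le_pow_left₀ (hg s hs).1 (hg s hs).2 2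
      rwa [← pow_mul, mul_comm T 2] at h2
    refine (sum_le_sum h1).trans ?_
    rw [sum_const, Nat.card_Icc, nsmul_eq_mul, Nat.add_sub_cancel]
  have p2 : ∀ s ∈ Icc 1 x, ∑ t ∈ Ioc w (w + H), |∑ j ∈ Icc 1 h, lamz z (s + t + j) - h| ≤ ε * (h * H) := by
    intro s _
    have h1 := hH0 H hH0' z hzK hzH h (s + w) hKh
    refine le_trans (le_of_eq ?_) h1
    symm
    apply sum_bij (fun m _ => w + m)
    · intro m hm
      rw [mem_Icc] at hm
      rw [mem_Ioc]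
      omega
    · intro a _ b _ hab
      have : w + a = w + b := hab
      omega
    · intro t ht
      rw [mem_Ioc] at ht
      exact ⟨t - w, mem_Icc.2 (by omega), by omega⟩
    · intro m _
      have h2 : ∀ j, s + w + m + j = s + (w + m) + j := fun j => by ring
      simp only [h2]
  have p3 : ∀ t ∈ Ioc w (w + H), |∑ s ∈ Icc 1 x, g s * (∑ j ∈ Icc 1 h, ArithmeticFunction.vonMangoldt (s + t + j) - h)| ≤
      ∑ j ∈ Icc 1 h, |∑ s ∈ Icc 1 x, g s * (ArithmeticFunction.vonMangoldt (s + t + j) - lamz z (s + t + j))| +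
      ∑ s ∈ Icc 1 x, g s * |∑ j ∈ Icc 1 h, lamz z (s + t + j) - h| := by
    intro t _
    have e1 : ∑ s ∈ Icc 1 x, g s * (∑ j ∈ Icc 1 h, ArithmeticFunction.vonMangoldt (s + t + j) - h) =
        ∑ j ∈ Icc 1 h, ∑ s ∈ Icc 1 x, g s * (ArithmeticFunction.vonMangoldt (s + t + j) - lamz z (s + t + j)) +
        ∑ s ∈ Icc 1 x, g s * (∑ j ∈ Icc 1 h, lamz z (s + t + j) - h) := by
      rw [sum_comm, ← sum_add_distrib]
      apply sum_congr rfl
      intro s _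
      rw [← mul_sum, sum_sub_distrib]
      ring
    rw [e1]
    refine (abs_add_le _ _).trans (add_le_add (abs_sum_le_sum_abs _ _) ?_)
    refine (abs_sum_le_sum_abs _ _).trans (sum_le_sum ?_)
    intro s hs
    rw [abs_mul, abs_of_nonneg (hg s hs).1]
  refine (sum_le_sum p3).trans ?_
  rw [sum_add_distrib, sum_comm]
  have p4 : ∑ j ∈ Icc 1 h, ∑ t ∈ Ioc w (w + H), |∑ s ∈ Icc 1 x, g s *
      (ArithmeticFunction.vonMangoldt (s + t + j) - lamz z (s + t + j))| ≤ h * (x * H / L ^ U) := by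
    refine (sum_le_sum p1).trans ?_
    rw [sum_const, Nat.card_Icc, nsmul_eq_mul, Nat.add_sub_cancel]
  have p5 : ∑ t ∈ Ioc w (w + H), ∑ s ∈ Icc 1 x, g s * |∑ j ∈ Icc 1 h, lamz z (s + t + j) - h| ≤
      h * (ε * (H * ∑ s ∈ Icc 1 x, g s)) := by
    rw [sum_comm]
    have h1 : ∀ s ∈ Icc 1 x, ∑ t ∈ Ioc w (w + H), g s * |∑ j ∈ Icc 1 h, lamz z (s + t + j) - h| ≤
        g s * (ε * (h * H)) := by
      intro s hs
      rw [← mul_sum]
      exact mul_le_mul_of_nonneg_left (p2 s hs) (hg s hs).1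
    refine (sum_le_sum h1).trans (le_of_eq ?_)
    rw [← sum_mul]
    ring
  rw [mul_add]
  linarith

end Pool.Agent.V5helper54.RI
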