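import Pool.Agent.V5helper54.RI.Psi

/-! # The normalised number of primes in a short interval: comparison with prime powers -/

set_option autoImplicit false

namespace Pool.Agent.V5helper54.RI

open Finset Filter

/-- `R_h(n)`: the number of primes in `(n, n + h(n)]`, divided by `h(n) / log n` -/
noncomputable def ratio (h : ℕ → ℝ) (n : ℕ) : ℝ :=
  Real.log n / h n * ((Nat.primeCounting ⌊(n : ℝ) + h n⌋₊ : ℝ) - Nat.primeCounting n)

/-- lengths: nonnegative, `h(n) = o(n)`, `h(n) / log log n → ∞`, and `h(m) / h(n) → 1` for `n / (log n) ^ C ≤ m ≤ n` -/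
def Regular (h : ℕ → ℝ) : Prop :=
  (∀ n, 0 ≤ h n) ∧ (∀ K : ℕ, ∀ᶠ n : ℕ in atTop, K * h n ≤ n) ∧
  (∀ K : ℕ, ∀ᶠ n : ℕ in atTop, K * Real.log (Real.log n) ≤ h n) ∧
  (∀ C : ℕ, ∀ δ : ℝ, 0 < δ → ∀ᶠ n : ℕ in atTop, ∀ m ≤ n, (n : ℝ) ≤ m * Real.log n ^ C → |h m - h n| ≤ δ * h n)

/-- the number of primes in `(n, n + u]` -/
lemma prime_cnt (n u : ℕ) : (Nat.primeCounting (n + u) : ℝ) - Nat.primeCounting n =
    (((Icc 1 u).filter (fun j => (n + j).Prime)).card : ℝ) := by
  have h1 : Nat.primeCounting (n + u) = Nat.primeCounting n + ((Icc 1 u).filter (fun j => (n + j).Prime)).card := by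
    induction u with
    | zero => simp
    | succ u ih =>
      have e1 : Icc 1 (u + 1) = insert (u + 1) (Icc 1 u) := by
        ext a
        simp only [mem_Icc, mem_insert]
        omega
      have e2 : Nat.primeCounting (n + (u + 1)) = Nat.primeCounting (n + u) + if (n + (u + 1)).Prime then 1 else 0 := by
        have e3 : n + (u + 1) = (n + u) + 1 := by ring
        rw [e3]
        unfold Nat.primeCounting Nat.primeCounting'
        rw [Nat.count_succ]
      rw [e2, ih, e1, filter_insert]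
      split_ifs with hp
      · rw [card_insert_of_notMem (by simp)]
        ring
      · ring
  rw [h1]
  push_cast
  ring

lemma ratio_eq (h : ℕ → ℝ) (hh : ∀ n, 0 ≤ h n) (n : ℕ) :
    ratio h n = Real.log n / h n * (((Icc 1 ⌊h n⌋₊).filter (fun j => (n + j).Prime)).card : ℝ) := by
  unfold ratio
  have e1 : ⌊(n : ℝ) + h n⌋₊ = n + ⌊h n⌋₊ := by
    rw [add_comm, Nat.floor_add_natCast (hh n), add_comm]
  rw [e1, prime_cnt]

lemma ratio_nonneg (h : ℕ → ℝ) (hh : ∀ n, 0 ≤ h n) (n : ℕ) : 0 ≤ ratio h n := by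
  rw [ratio_eq h hh]
  have := hh n
  have : 0 ≤ Real.log (n : ℝ) := Real.log_natCast_nonneg n
  positivity

lemma ratio_le_log (h : ℕ → ℝ) (hh : ∀ n, 0 ≤ h n) (n : ℕ) : ratio h n ≤ Real.log n := by
  rw [ratio_eq h hh]
  have h0 := hh n
  have hl : 0 ≤ Real.log (n : ℝ) := Real.log_natCast_nonneg n
  have h1 : (((Icc 1 ⌊h n⌋₊).filter (fun j => (n + j).Prime)).card : ℝ) ≤ h n := by
    have h2 : ((Icc 1 ⌊h n⌋₊).filter (fun j => (n + j).Prime)).card ≤ ⌊h n⌋₊ := by
      refine (card_filter_le _ _).trans ?_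
      simp
    exact (by exact_mod_cast h2 : _ ≤ ((⌊h n⌋₊ : ℕ) : ℝ)).trans (Nat.floor_le h0)
  rcases h0.eq_or_lt with h3 | h3
  · rw [← h3]
    simp only [div_zero, zero_mul]
    exact hl
  · rw [div_mul_eq_mul_div, div_le_iff₀ h3]
    exact mul_le_mul_of_nonneg_left h1 hl

/-- upper bound by prime powers -/
lemma ratio_upper (h : ℕ → ℝ) (hh : ∀ n, 0 ≤ h n) (n hp : ℕ) (u δ : ℝ) (hn : 1 ≤ n) (hu : 0 < u) (hδ : δ < 1)
    (h1 : (1 - δ) * u ≤ h n) (h2 : ⌊h n⌋₊ ≤ hp) :
    ratio h n ≤ (∑ j ∈ Icc 1 hp, ArithmeticFunction.vonMangoldt (n + j)) / ((1 - δ) * u) := by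
  rw [ratio_eq h hh]
  have hd : 0 < (1 - δ) * u := mul_pos (by linarith) hu
  have hhn : 0 < h n := lt_of_lt_of_le hd h1
  have hl : 0 ≤ Real.log (n : ℝ) := Real.log_natCast_nonneg n
  have k1 : Real.log n * (((Icc 1 ⌊h n⌋₊).filter (fun j => (n + j).Prime)).card : ℝ) ≤
      ∑ j ∈ Icc 1 hp, ArithmeticFunction.vonMangoldt (n + j) := by
    have k2 : (Icc 1 ⌊h n⌋₊).filter (fun j => (n + j).Prime) ⊆ Icc 1 hp :=
      (filter_subset _ _).trans (Icc_subset_Icc_right h2)
    refine le_trans ?_ (sum_le_sum_of_subset_of_nonneg k2 fun _ _ _ => ArithmeticFunction.vonMangoldt_nonneg)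
    rw [mul_comm, ← nsmul_eq_mul, ← sum_const]
    apply sum_le_sum
    intro j hj
    have hj' := (mem_filter.1 hj).2
    rw [ArithmeticFunction.vonMangoldt_apply_prime hj']
    apply Real.log_le_log (by exact_mod_cast hn)
    exact_mod_cast (by omega : n ≤ n + j)
  rw [div_mul_eq_mul_div]
  calc Real.log n * (((Icc 1 ⌊h n⌋₊).filter (fun j => (n + j).Prime)).card : ℝ) / h n
      ≤ (∑ j ∈ Icc 1 hp, ArithmeticFunction.vonMangoldt (n + j)) / h n := by gcongr
    _ ≤ (∑ j ∈ Icc 1 hp, ArithmeticFunction.vonMangoldt (n + j)) / ((1 - δ) * u) := by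
        apply div_le_div_of_nonneg_left _ hd h1
        exact sum_nonneg fun _ _ => ArithmeticFunction.vonMangoldt_nonneg

/-- lower bound by prime powers -/
lemma ratio_lower (h : ℕ → ℝ) (hh : ∀ n, 0 ≤ h n) (n hm : ℕ) (u δ : ℝ) (hu : 0 < u) (hδ : 0 < δ)
    (h1 : h n ≤ (1 + δ) * u) (h0 : 0 < h n) (h2 : hm ≤ ⌊h n⌋₊) (h3 : hm ≤ n) (h4 : Real.log 2 ≤ δ * Real.log n) (hn : 1 ≤ n) :
    (∑ j ∈ Icc 1 hm, ArithmeticFunction.vonMangoldt (n + j) -
      ∑ j ∈ Icc 1 hm, (if (n + j).Prime then (0 : ℝ) else ArithmeticFunction.vonMangoldt (n + j))) / ((1 + δ) ^ 2 * u) ≤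
      ratio h n := by
  rw [ratio_eq h hh]
  have hl : 0 ≤ Real.log (n : ℝ) := Real.log_natCast_nonneg n
  have hn0 : (0 : ℝ) < n := by exact_mod_cast hn
  have k1 : ∑ j ∈ Icc 1 hm, ArithmeticFunction.vonMangoldt (n + j) -
      ∑ j ∈ Icc 1 hm, (if (n + j).Prime then (0 : ℝ) else ArithmeticFunction.vonMangoldt (n + j)) ≤
      (1 + δ) * (Real.log n * (((Icc 1 ⌊h n⌋₊).filter (fun j => (n + j).Prime)).card : ℝ)) := by
    have k2 : (((Icc 1 hm).filter (fun j => (n + j).Prime)).card : ℝ) ≤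
        (((Icc 1 ⌊h n⌋₊).filter (fun j => (n + j).Prime)).card : ℝ) := by
      exact_mod_cast card_le_card (filter_subset_filter _ (Icc_subset_Icc_right h2))
    rw [← sum_sub_distrib]
    have k3 : ∀ j ∈ Icc 1 hm, ArithmeticFunction.vonMangoldt (n + j) -
        (if (n + j).Prime then (0 : ℝ) else ArithmeticFunction.vonMangoldt (n + j)) ≤
        if (n + j).Prime then (1 + δ) * Real.log n else 0 := by
      intro j hj
      rw [mem_Icc] at hj
      split_ifs with hp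
      · rw [ArithmeticFunction.vonMangoldt_apply_prime hp, sub_zero]
        have k4 : Real.log ((n + j : ℕ) : ℝ) ≤ Real.log (2 * n) := by
          apply Real.log_le_log (by exact_mod_cast hp.pos)
          exact_mod_cast (by omega : n + j ≤ 2 * n)
        rw [Real.log_mul (by norm_num) hn0.ne'] at k4
        linarith
      · rw [sub_self]
    refine (sum_le_sum k3).trans ?_
    rw [← sum_filter, sum_const, nsmul_eq_mul]
    have k5 : 0 ≤ (1 + δ) * Real.log n := by positivity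
    calc (((Icc 1 hm).filter (fun j => (n + j).Prime)).card : ℝ) * ((1 + δ) * Real.log n)
        ≤ (((Icc 1 ⌊h n⌋₊).filter (fun j => (n + j).Prime)).card : ℝ) * ((1 + δ) * Real.log n) := by gcongr
      _ = _ := by ring
  rw [div_le_iff₀ (by positivity)]
  refine k1.trans ?_
  have k6 : (1 : ℝ) ≤ (1 + δ) * u / h n := by
    rw [le_div_iff₀ h0]
    linarith
  have k7 : 0 ≤ (1 + δ) * (Real.log n * (((Icc 1 ⌊h n⌋₊).filter (fun j => (n + j).Prime)).card : ℝ)) := by positivity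
  calc (1 + δ) * (Real.log n * (((Icc 1 ⌊h n⌋₊).filter (fun j => (n + j).Prime)).card : ℝ))
      ≤ (1 + δ) * (Real.log n * (((Icc 1 ⌊h n⌋₊).filter (fun j => (n + j).Prime)).card : ℝ)) * ((1 + δ) * u / h n) :=
        le_mul_of_one_le_right k7 k6
    _ = _ := by
        field_simp

end Pool.Agent.V5helper54.RI
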