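import Pool.Agent.Y877.SxM
import Pool.Agent.H770Sun.Sing1

/-! # Integers without small prime factors in very short intervals: the second moment -/

set_option autoImplicit false

namespace Pool.Agent.V5helper54.RI

open Finset
open Pool.Agent.H373R2.T7
open Pool.Agent.Y877.SX

open Classical in
/-- the second moment, with the true size of the diagonal -/
lemma var_bound (S Gs : Finset ℕ) (P : ℕ → ℕ → Prop) (V η r m G : ℝ) (F : ℕ → ℕ → ℝ) (hV0 : 0 < V) (hV : V ≤ 1)
    (hm : (S.card : ℝ) = m) (hG : (Gs.card : ℝ) = G) (hr : 0 ≤ r)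
    (h0 : ∀ s ∈ S, ((Gs.filter (fun g => P s g)).card : ℝ) ≤ G * V + r)
    (h1 : ∀ s ∈ S, G * V - r ≤ ((Gs.filter (fun g => P s g)).card : ℝ))
    (h2 : ∀ s ∈ S, ∀ t ∈ S.erase s, ((Gs.filter (fun g => P s g ∧ P t g)).card : ℝ) ≤ G * (V ^ 2 * F s t) + r)
    (h3 : ∀ s ∈ S, ∑ t ∈ S.erase s, F s t ≤ (1 + η) * m) :
    ∑ g ∈ Gs, (((S.filter (fun s => P s g)).card : ℝ) - m * V) ^ 2 ≤
      η * (G * (m * V) ^ 2) + m * G * V + 4 * (m ^ 2 * r) := by
  set i : ℕ → ℕ → ℝ := fun s g => if P s g then 1 else 0 with hi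
  set X : ℕ → ℝ := fun g => ∑ s ∈ S, i s g with hX
  have hm0 : 0 ≤ m := by rw [← hm]; exact Nat.cast_nonneg _
  have hG0 : 0 ≤ G := by rw [← hG]; exact Nat.cast_nonneg _
  have hmm : m ≤ m ^ 2 := by
    rw [← hm]
    have : S.card ≤ S.card ^ 2 := Nat.le_self_pow (by norm_num) _
    exact_mod_cast this
  have hXc : ∀ g, X g = ((S.filter (fun s => P s g)).card : ℝ) := by
    intro g
    rw [hX, hi]
    simp only
    rw [← sum_filter, sum_const, nsmul_eq_mul, mul_one]
  have hc1 : ∀ s, ∑ g ∈ Gs, i s g = ((Gs.filter (fun g => P s g)).card : ℝ) := by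
    intro s
    rw [hi]
    simp only
    rw [← sum_filter, sum_const, nsmul_eq_mul, mul_one]
  have hc2 : ∀ s t, ∑ g ∈ Gs, i s g * i t g = ((Gs.filter (fun g => P s g ∧ P t g)).card : ℝ) := by
    intro s t
    have : ∀ g, i s g * i t g = if P s g ∧ P t g then (1 : ℝ) else 0 := by
      intro g
      rw [hi]
      by_cases ha : P s g <;> by_cases hb : P t g <;> simp [ha, hb]
    simp_rw [this]
    rw [← sum_filter, sum_const, nsmul_eq_mul, mul_one]
  have hS1 : m * (G * V - r) ≤ ∑ g ∈ Gs, X g := by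
    rw [hX, sum_comm]
    have : ∑ _s ∈ S, (G * V - r) ≤ ∑ s ∈ S, ∑ g ∈ Gs, i s g := by
      apply sum_le_sum
      intro s hs
      rw [hc1]
      exact h1 s hs
    rwa [sum_const, nsmul_eq_mul, hm] at this
  have hS2 : ∑ g ∈ Gs, X g ^ 2 ≤ m * ((G * V + r) + (G * V ^ 2 * ((1 + η) * m) + m * r)) := by
    have e1 : ∑ g ∈ Gs, X g ^ 2 = ∑ s ∈ S, ∑ t ∈ S, ∑ g ∈ Gs, i s g * i t g := by
      have : ∀ g, X g ^ 2 = ∑ s ∈ S, ∑ t ∈ S, i s g * i t g := by
        intro g
        rw [hX, sq, sum_mul_sum]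
      simp_rw [this]
      rw [sum_comm]
      apply sum_congr rfl
      intro s _
      rw [sum_comm]
    rw [e1]
    have : ∀ s ∈ S, ∑ t ∈ S, ∑ g ∈ Gs, i s g * i t g ≤ (G * V + r) + (G * V ^ 2 * ((1 + η) * m) + m * r) := by
      intro s hs
      rw [← add_sum_erase S _ hs]
      apply add_le_add
      · rw [hc2]
        have e2 : Gs.filter (fun g => P s g ∧ P s g) = Gs.filter (fun g => P s g) := by
          apply filter_congr
          intro g _
          exact and_self_iff
        rw [e2]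
        exact h0 s hs
      · calc ∑ t ∈ S.erase s, ∑ g ∈ Gs, i s g * i t g ≤ ∑ t ∈ S.erase s, (G * (V ^ 2 * F s t) + r) := by
              apply sum_le_sum
              intro t ht
              rw [hc2]
              exact h2 s hs t ht
          _ = G * V ^ 2 * ∑ t ∈ S.erase s, F s t + ((S.erase s).card : ℝ) * r := by
              rw [sum_add_distrib, sum_const, nsmul_eq_mul, mul_sum]
              congr 1
              apply sum_congr rfl
              intro t _
              ring
          _ ≤ G * V ^ 2 * ((1 + η) * m) + m * r := by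
              have : ((S.erase s).card : ℝ) ≤ m := by
                rw [← hm]
                exact_mod_cast card_le_card (erase_subset _ _)
              have := h3 s hs
              gcongr
    calc ∑ s ∈ S, ∑ t ∈ S, ∑ g ∈ Gs, i s g * i t g
        ≤ ∑ _s ∈ S, ((G * V + r) + (G * V ^ 2 * ((1 + η) * m) + m * r)) := sum_le_sum this
      _ = _ := by rw [sum_const, nsmul_eq_mul, hm]
  have e : ∑ g ∈ Gs, (X g - m * V) ^ 2 = ∑ g ∈ Gs, X g ^ 2 - 2 * (m * V) * ∑ g ∈ Gs, X g + G * (m * V) ^ 2 := by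
    rw [← hG, mul_sum, ← nsmul_eq_mul, ← sum_const, ← sum_sub_distrib, ← sum_add_distrib]
    apply sum_congr rfl
    intro g _
    ring
  have e' : ∑ g ∈ Gs, (((S.filter (fun s => P s g)).card : ℝ) - m * V) ^ 2 = ∑ g ∈ Gs, (X g - m * V) ^ 2 := by
    apply sum_congr rfl
    intro g _
    rw [hXc]
  rw [e', e]
  have h5 : 2 * (m * V) * (m * (G * V - r)) ≤ 2 * (m * V) * ∑ g ∈ Gs, X g := by
    apply mul_le_mul_of_nonneg_left hS1
    positivity
  have h6 : m * V * (m * r) ≤ m ^ 2 * r := by
    have : m * V * (m * r) = V * (m ^ 2 * r) := by ring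
    rw [this]
    exact mul_le_of_le_one_left (by positivity) hV
  have h7 : m * r ≤ m ^ 2 * r := mul_le_mul_of_nonneg_right hmm hr
  nlinarith

/-- from the second moment to the first -/
lemma l1_of_l2 (Gs : Finset ℕ) (f : ℕ → ℝ) (B : ℝ) (hB : 0 ≤ B) (h : (Gs.card : ℝ) * ∑ g ∈ Gs, f g ^ 2 ≤ B ^ 2) :
    ∑ g ∈ Gs, |f g| ≤ B := by
  have h1 := sq_sum_le_card_mul_sum_sq (s := Gs) (f := fun g => |f g|)
  simp only [sq_abs] at h1
  exact le_of_sq_le_sq (h1.trans h) hB

/-- integers coprime to `M` in a block of `q` periods -/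
lemma cop_block (M : ℕ) (n q : ℕ) : ((Ico n (n + q * M)).filter (fun a => M.Coprime a)).card = q * M.totient := by
  induction q with
  | zero => simp
  | succ q ih =>
    have e1 : Ico n (n + (q + 1) * M) = Ico n (n + q * M) ∪ Ico (n + q * M) (n + q * M + M) := by
      rw [Ico_union_Ico_eq_Ico (by omega) (by omega)]
      congr 1
      ring
    have hd : Disjoint (Ico n (n + q * M)) (Ico (n + q * M) (n + q * M + M)) := by
      rw [disjoint_left]
      intro a ha hb
      rw [mem_Ico] at ha hb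
      omega
    rw [e1, filter_union, card_union_of_disjoint (disjoint_filter_filter hd), ih,
      Nat.filter_coprime_Ico_eq_totient]
    ring

/-- integers coprime to `M` in intervals -/
lemma cop_cnt (M : ℕ) (hM : 0 < M) (n h : ℕ) :
    |(((Ico n (n + h)).filter (fun a => M.Coprime a)).card : ℝ) - h * ((M.totient : ℝ) / M)| ≤ M := by
  obtain ⟨q, hq⟩ : ∃ q, q = h / M := ⟨_, rfl⟩
  have hM0 : (0 : ℝ) < M := by exact_mod_cast hM
  have h1 : q * M ≤ h := by rw [hq]; exact Nat.div_mul_le_self h M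
  have h2 : h < (q + 1) * M := by rw [hq]; exact Nat.lt_mul_of_div_lt (Nat.lt_succ_self _) hM
  have c1 : q * M.totient ≤ ((Ico n (n + h)).filter (fun a => M.Coprime a)).card := by
    rw [← cop_block M n q]
    exact card_le_card (filter_subset_filter _ (Ico_subset_Ico le_rfl (by omega)))
  have c2 : ((Ico n (n + h)).filter (fun a => M.Coprime a)).card ≤ (q + 1) * M.totient := by
    rw [← cop_block M n (q + 1)]
    exact card_le_card (filter_subset_filter _ (Ico_subset_Ico le_rfl (by omega)))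
  have hφ : (M.totient : ℝ) ≤ M := by exact_mod_cast Nat.totient_le M
  have hφ0 : (0 : ℝ) ≤ (M.totient : ℝ) / M := by positivity
  have e3 : (q : ℝ) * M.totient = (q * M : ℝ) * ((M.totient : ℝ) / M) := by field_simp
  have e4 : ((q : ℝ) + 1) * M.totient = ((q + 1) * M : ℝ) * ((M.totient : ℝ) / M) := by field_simp
  have h1' : (q * M : ℝ) ≤ h := by exact_mod_cast h1
  have h2' : (h : ℝ) ≤ (q + 1) * M := by exact_mod_cast h2.le
  have c1' : (q : ℝ) * M.totient ≤ (((Ico n (n + h)).filter (fun a => M.Coprime a)).card : ℝ) := by exact_mod_cast c1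
  have c2' : (((Ico n (n + h)).filter (fun a => M.Coprime a)).card : ℝ) ≤ ((q : ℝ) + 1) * M.totient := by
    exact_mod_cast c2
  have d1 := mul_le_mul_of_nonneg_right h1' hφ0
  have d2 := mul_le_mul_of_nonneg_right h2' hφ0
  rw [abs_le]
  constructor <;> nlinarith

/-- the density of the integers coprime to the primorial -/
lemma Vz_totient (y : ℕ) : Vz y = ((primorial y).totient : ℝ) / primorial y := by
  have h1 : primorial y = ∏ p ∈ pz y, p := by
    unfold primorial pz
    apply prod_congr _ fun _ _ => rfl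
    ext p
    simp only [mem_filter, mem_range, mem_Icc]
    constructor
    · rintro ⟨a, b⟩
      exact ⟨⟨b.one_le, by omega⟩, b⟩
    · rintro ⟨⟨a, b⟩, c⟩
      exact ⟨by omega, c⟩
  have h2 := Pool.Agent.V5helper54.RI.cop_block
  rw [h1]
  have hA : ∀ p ∈ pz y, p.Prime := fun p hp => (mem_pz.1 hp).2
  have h3 : Nat.totient (∏ p ∈ pz y, p) = ∏ p ∈ pz y, (p - 1) := by
    have : ∀ A : Finset ℕ, (∀ p ∈ A, p.Prime) → Nat.totient (∏ p ∈ A, p) = ∏ p ∈ A, (p - 1) := by
      classical
      intro A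
      induction A using Finset.induction_on with
      | empty => simp
      | insert a s ha ih =>
        intro hA
        rw [prod_insert ha, prod_insert ha, Nat.totient_mul, ih fun p hp => hA p (mem_insert_of_mem hp),
          Nat.totient_prime (hA a (mem_insert_self _ _))]
        apply Nat.Coprime.prod_right
        intro p hp
        rw [Nat.coprime_primes (hA a (mem_insert_self _ _)) (hA p (mem_insert_of_mem hp))]
        rintro rfl
        exact ha hp
    exact this _ hA
  rw [h3]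
  unfold Vz
  push_cast
  rw [← prod_div_distrib]
  apply prod_congr rfl
  intro p hp
  have hp1 := (hA p hp).one_le
  have hp0 : (p : ℝ) ≠ 0 := by exact_mod_cast (hA p hp).ne_zero
  rw [Nat.cast_sub hp1]
  push_cast
  field_simp

/-- the upper bound of Mertens' theorem -/
theorem Vz_mertens : ∃ C : ℝ, 0 < C ∧ ∀ z : ℕ, 3 ≤ z → (Vz z)⁻¹ ≤ C * Real.log z := by
  obtain ⟨C, hC, h⟩ := Pool.Agent.H770Sun.mertens_prod
  refine ⟨C, hC, fun z hz => ?_⟩
  have h1 := h z hz
  refine le_trans (le_of_eq ?_) h1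
  unfold Vz pz
  rw [← prod_inv_distrib]
  apply prod_congr rfl
  intro p hp
  have hp2 : (2 : ℝ) ≤ p := by exact_mod_cast (mem_filter.1 hp).2.two_le
  have hp0 : (p : ℝ) ≠ 0 := by positivity
  have hp1 : (p : ℝ) - 1 ≠ 0 := by
    have : (0 : ℝ) < (p : ℝ) - 1 := by linarith
    exact this.ne'
  have hp3 : (1 : ℝ) - 1 / p ≠ 0 := by
    have : 0 < (1 : ℝ) - 1 / p := by
      rw [sub_pos, div_lt_one (by linarith)]
      linarith
    exact this.ne'
  field_simp
  ring

end Pool.Agent.V5helper54.RI
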